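import Pool.Agent.Helper7.Types
import Pool.Agent.Helper7.CMTypes

/-!
Abelian threefolds with multiplication by an imaginary quadratic field, and abelian varieties whose
endomorphism algebra is a totally real field of degree equal to the dimension.
-/

namespace Pool.Agent.GPC

/-- `A` is a threefold with multiplication by the imaginary quadratic field `K` : the field `K`
acts on `H_1(A)` through endomorphisms of `A` (tensor `ℚ`), the Rosati involution is complex
conjugation on `K`, and only the elements of `K` commute with `K` among the endomorphisms of `A`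
(tensor `ℚ`). (This means that the endomorphism algebra of `A` is `K`.) -/
structure PicardMult (A : AbVar) (K : Type) [Field K] [NumberField K]
    [NumberField.IsCMField K] where
  ρ : K → A.H1 → A.H1
  one : ∀ v, ρ 1 v = v
  mul : ∀ x y v, ρ (x * y) v = ρ x (ρ y v)
  add : ∀ x y v, ρ (x + y) v = ρ x v + ρ y v
  degree : Module.finrank ℚ K = 2
  dim : A.g = 3
  endo : ∀ x, A.IsEnd (ρ x)
  rosati : ∀ x, A.IsAdjoint (ρ x) (ρ (cmConj K x))
  centralizer : ∀ f, A.IsEnd f → (∀ x v, f (ρ x v) = ρ x (f v)) → ∃ x, ∀ v, f v = ρ x v

/-- `A` is an abelian threefold whose endomorphism algebra is the imaginary quadratic field `K`. -/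
def IsPicardType (A : AbVar) (K : Type) [Field K] [NumberField K] : Prop :=
  ∃ _ : NumberField.IsCMField K, Nonempty (PicardMult A K)

/-- `A` has real multiplication by the totally real field `K` of degree `dim A`, and the
endomorphism algebra of `A` is `K`. For example `A` is an elliptic curve without complex
multiplication and `K = ℚ`. -/
def IsFullRMType (A : AbVar) (K : Type) [Field K] [NumberField K] : Prop :=
  NumberField.IsTotallyReal K ∧ ∃ C : RM A K, ∀ f, A.IsEnd f → ∃ x, ∀ v, f v = C.ρ x v

/-- The abelian varieties `A_i`, `i ∈ S`, are pairwise without non-zero homomorphisms. -/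
def HomZero {I : Type} (A : I → AbVar) (S : Finset I) : Prop :=
  ∀ i ∈ S, ∀ j ∈ S, i ≠ j → ∀ f, (A i).IsMor (A j) f → ∀ v, f v = 0

end Pool.Agent.GPC
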