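import Pool.Agent.Helper24.PT.URec
import Pool.Agent.Helper24.PT.PTypes
import Pool.Agent.Helper7.U.MainU

/-!
The period conjecture for products of a Picard threefold, abelian varieties with real
multiplication and abelian varieties with complex multiplication.
-/

namespace Pool.Agent.Helper24

open Module NumberField LieAlgebra Pool.Agent.Helper7 Pool.Agent.GPC

attribute [local instance 100] LieRing.ofAssociativeRing

set_option linter.unusedSectionVars false

/-- the action as ring homomorphism -/
noncomputable def picRho {A : AbVar} {K : Type} [Field K] [NumberField K] [IsCMField K]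
    (C : PicardMult A K) : K →+* Module.End ℂ A.H1 where
  toFun x := IsLinearMap.mk' _ (C.endo x).linear
  map_one' := LinearMap.ext C.one
  map_mul' x y := LinearMap.ext (C.mul x y)
  map_add' x y := LinearMap.ext (C.add x y)
  map_zero' := LinearMap.ext fun v => by
    have h := C.add 0 0 v
    rw [add_zero] at h
    have h2 : C.ρ 0 v = 0 := by
      have h3 := congrArg (fun w => w - C.ρ 0 v) h
      simp only [sub_self, add_sub_cancel_right] at h3
      exact h3.symm
    exact h2

theorem nonempty_UF3 (A : AbVar) (K : Type) [Field K] [NumberField K] [IsCMField K]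
    (C : PicardMult A K) : Nonempty (UF (pData A) K 3) := by
  have hQ : ∀ x, ∀ v ∈ (pData A).Q, picRho C x v ∈ (pData A).Q :=
    fun x v hv => (isDRB_of_isEnd A _ (C.endo x)).rat v hv
  obtain ⟨lam, h1, h2, eb, h3⟩ := exists_Kbasis (pData A) (picRho C) hQ 3
    (by rw [C.degree, card_index, C.dim])
  exact ⟨{  ρ := picRho C
            hρ := fun x => isDRB_of_isEnd A _ (C.endo x)
            cc := cmConj K
            hcc := fun σ x => IsCMField.complexEmbedding_complexConj K σ x
            hros := fun x u v => C.rosati x u v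
            hcen := fun f hf hc => C.centralizer f (isEnd_of_isDRB A f hf) hc
            hnd := hnd_pData A
            lam := lam
            lam_rat := h1
            gen := h2
            eb := eb
            heb := h3 }⟩

/-- a homomorphism commuting with a field over which the homology is of rank one -/
lemma cen_one {κ : Type} [Fintype κ] [DecidableEq κ] {ϖ : ℂ} (P : PData κ ϖ) {K : Type} [Field K]
    [NumberField K] (ρ : K →+* Module.End ℂ (κ → ℂ)) (lam : Fin 1 → (κ → ℂ))
    (lam_rat : ∀ j, lam j ∈ P.Q) (gen : ∀ u ∈ P.Q, ∃ x : Fin 1 → K, u = ∑ j, ρ (x j) (lam j))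
    (f : Module.End ℂ (κ → ℂ)) (hf : IsDRB P P f) (hc : ∀ x v, f (ρ x v) = ρ x (f v)) :
    ∃ x, ∀ v, f v = ρ x v := by
  obtain ⟨x, hx⟩ := gen _ (hf.rat _ (lam_rat 0))
  rw [Fin.sum_univ_one] at hx
  refine ⟨x 0, fun v => ?_⟩
  have h1 : f = ρ (x 0) := by
    refine P.bB.ext fun j => ?_
    obtain ⟨y, hy⟩ := gen (P.bB j) (Submodule.subset_span ⟨j, rfl⟩)
    rw [Fin.sum_univ_one] at hy
    rw [hy, hc, hx, ← Module.End.mul_apply, ← Module.End.mul_apply, ← map_mul, ← map_mul,
      mul_comm]
  rw [h1]

theorem nonempty_UF1 (A : AbVar) (K : Type) [Field K] [NumberField K] [IsCMField K]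
    (C : CM A K) : Nonempty (UF (pData A) K 1) := by
  have hQ : ∀ x, ∀ v ∈ (pData A).Q, cmRho C x v ∈ (pData A).Q :=
    fun x v hv => (isDRB_of_isEnd A _ (C.endo x)).rat v hv
  obtain ⟨lam, h1, h2, eb, h3⟩ := exists_Kbasis (pData A) (cmRho C) hQ 1
    (by rw [C.degree, card_index, mul_one])
  exact ⟨{  ρ := cmRho C
            hρ := fun x => isDRB_of_isEnd A _ (C.endo x)
            cc := cmConj K
            hcc := fun σ x => IsCMField.complexEmbedding_complexConj K σ x
            hros := fun x u v => C.rosati x u v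
            hcen := fun f hf hc => cen_one (pData A) (cmRho C) lam h1 h2 f hf hc
            hnd := hnd_pData A
            lam := lam
            lam_rat := h1
            gen := h2
            eb := eb
            heb := h3 }⟩

theorem nonempty_UF2 (A : AbVar) (K : Type) [Field K] [NumberField K] [IsTotallyReal K]
    (C : RM A K) : ∃ F : UF (pData A) K 2, ∀ x v, F.ρ x v = C.ρ x v := by
  have hQ : ∀ x, ∀ v ∈ (pData A).Q, rmRho C x v ∈ (pData A).Q :=
    fun x v hv => (isDRB_of_isEnd A _ (C.endo x)).rat v hv
  obtain ⟨lam, h1, h2, eb, h3⟩ := exists_Kbasis (pData A) (rmRho C) hQ 2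
    (by rw [C.degree, card_index, mul_comm])
  exact ⟨{  ρ := rmRho C
            hρ := fun x => isDRB_of_isEnd A _ (C.endo x)
            cc := fun x => x
            hcc := fun σ x => by
              have h := ComplexEmbedding.isReal_iff.mp
                (IsTotallyReal.complexEmbedding_isReal σ)
              have h2 := congrArg (fun τ => τ x) h
              simp only [ComplexEmbedding.conjugate_coe_eq] at h2
              exact h2.symm
            hros := fun x u v => C.rosati x u v
            hcen := fun f hf hc => C.centralizer f (isEnd_of_isDRB A f hf) hc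
            hnd := hnd_pData A
            lam := lam
            lam_rat := h1
            gen := h2
            eb := eb
            heb := h3 }, fun x v => rfl⟩

/-- the embeddings of an imaginary quadratic field -/
lemma emb_two {K : Type} [Field K] [NumberField K] [IsCMField K] (hd : finrank ℚ K = 2)
    (σ τ : K →+* ℂ) : τ = σ ∨ τ = ComplexEmbedding.conjugate σ := by
  classical
  have hne : ComplexEmbedding.conjugate σ ≠ σ := fun h =>
    IsTotallyComplex.complexEmbedding_not_isReal σ (ComplexEmbedding.isReal_iff.mpr h)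
  have hcard : Fintype.card (K →+* ℂ) = 2 := by rw [card_emb, hd]
  by_contra hcon
  push Not at hcon
  have h1 : ({τ, σ, ComplexEmbedding.conjugate σ} : Finset (K →+* ℂ)).card = 3 :=
    Finset.card_eq_three.mpr ⟨τ, σ, ComplexEmbedding.conjugate σ, hcon.1, hcon.2, hne.symm, rfl⟩
  have h2 := Finset.card_le_univ ({τ, σ, ComplexEmbedding.conjugate σ} : Finset (K →+* ℂ))
  omega

variable {I : Type} [Fintype I] (A : I → AbVar) (n : I → ℕ) (K : I → Type)
  [∀ i, Field (K i)] [∀ i, NumberField (K i)]

theorem main_P (hnp' : ∀ i, NotProportional (A i)) (p : I) (S T : Finset I) (hI : ∀ i, i = p ∨ i ∈ S ∨ i ∈ T)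
    (hp : IsPicardType (A p) (K p)) (hnp : n p = 1)
    (hS : ∀ i ∈ S, IsFullRMType (A i) (K i)) (hnS : ∀ i ∈ S, n i = 1) (hSS : HomZero A S)
    (hT : ∀ i ∈ T, IsCMType (A i) (K i)) (h : OddMultiplicityFree K)
    (k : ℕ) (α : Form A n (2 * k)) : IsGrothendieck A n k α ↔ IsDivisorial A n k α := by
  classical
  refine ⟨?_, isGrothendieck_of_isDivisorial A n k α⟩
  rintro ⟨hα1, hα2⟩
  -- the types
  have hSr : ∀ i ∈ S, ∀ σ : K i →+* ℂ, ComplexEmbedding.conjugate σ = σ := by
    intro i hi σ
    have := (hS i hi).1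
    exact ComplexEmbedding.isReal_iff.mp (IsTotallyReal.complexEmbedding_isReal σ)
  have hTc : ∀ i ∈ T, ∀ σ : K i →+* ℂ, ComplexEmbedding.conjugate σ ≠ σ := by
    intro i hi σ hσ
    have := (hT i hi).choose
    exact IsTotallyComplex.complexEmbedding_not_isReal σ (ComplexEmbedding.isReal_iff.mpr hσ)
  have hpc : ∀ σ : K p →+* ℂ, ComplexEmbedding.conjugate σ ≠ σ := by
    intro σ hσ
    have := hp.choose
    exact IsTotallyComplex.complexEmbedding_not_isReal σ (ComplexEmbedding.isReal_iff.mpr hσ)
  have hKp : ∀ σ τ : K p →+* ℂ, τ = σ ∨ τ = ComplexEmbedding.conjugate σ := by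
    obtain ⟨h1, ⟨C⟩⟩ := hp
    exact emb_two C.degree
  have hpS : p ∉ S := by
    intro hpS
    obtain ⟨σ⟩ : Nonempty (K p →+* ℂ) := inferInstance
    exact hpc σ (hSr p hpS σ)
  let r : I → ℕ := fun i => if i = p then 3 else if i ∈ S then 2 else 1
  have hF : ∀ i, ∃ F : UF (pData (A i)) (K i) (r i), (i ∈ S →
      ∀ f, IsDRB (pData (A i)) (pData (A i)) f → ∃ x, ∀ v, f v = F.ρ x v) := by
    intro i
    by_cases hip : i = p
    · subst hip
      obtain ⟨h1, ⟨C⟩⟩ := hp
      obtain ⟨F⟩ := nonempty_UF3 (A i) (K i) C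
      have hr : r i = 3 := if_pos rfl
      rw [hr]
      exact ⟨F, fun hi => absurd hi hpS⟩
    · by_cases hiS : i ∈ S
      · obtain ⟨h1, C, hC⟩ := hS i hiS
        obtain ⟨F, hF⟩ := nonempty_UF2 (A i) (K i) C
        have hr : r i = 2 := by simp only [r, if_neg hip, if_pos hiS]
        rw [hr]
        refine ⟨F, fun _ f hf => ?_⟩
        obtain ⟨x, hx⟩ := hC f (isEnd_of_isDRB (A i) f hf)
        exact ⟨x, fun v => by rw [hx v, hF]⟩
      · obtain ⟨h1, ⟨C⟩⟩ := hT i (by
          rcases hI i with h | h | h
          · exact absurd h hip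
          · exact absurd h hiS
          · exact h)
        obtain ⟨F⟩ := nonempty_UF1 (A i) (K i) C
        have hr : r i = 1 := by simp only [r, if_neg hip, if_neg hiS]
        rw [hr]
        exact ⟨F, fun hi => absurd hi hiS⟩
  choose F hFS using hF
  have hrp : r p = 3 := if_pos rfl
  have hr2 : ∀ i, r i = 2 → i ∈ S := by
    intro i hi
    by_contra hiS
    by_cases hip : i = p
    · simp only [r, if_pos hip] at hi; omega
    · simp only [r, if_neg hip, if_neg hiS] at hi; omega
  have hr0 : ∀ i, 0 < r i := by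
    intro i
    simp only [r]
    split_ifs <;> norm_num
  have hB : ∀ v : Fin (2 * k) → HW (fun i => Fin (A i).g ⊕ Fin (A i).g) n,
      (∀ r, IsRatP n (fun i => pData (A i)) (v r)) →
      ∃ q : ℚ, (α : MultilinearMap ℂ
        (fun _ : Fin (2 * k) => HW (fun i => Fin (A i).g ⊕ Fin (A i).g) n) ℂ) v =
          (2 * Real.pi * Complex.I) ^ k * q := by
    intro v hv
    apply hα2
    intro r i m
    exact (mem_pData_Q _ _).mp (hv r i m)
  have hA : ∀ v : Fin (2 * k) → HW (fun i => Fin (A i).g ⊕ Fin (A i).g) n,
      (∀ r i m j, IsAlgebraic ℚ (v r i m j)) → IsAlgebraic ℚ ((α : MultilinearMap ℂ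
        (fun _ : Fin (2 * k) => HW (fun i => Fin (A i).g ⊕ Fin (A i).g) n) ℂ) v) := hα1
  have hϖ := Complex.two_pi_I_ne_zero
  have H : SpecFam n (fun i => pData (A i)) F (α : MultilinearMap ℂ
        (fun _ : Fin (2 * k) => HW (fun i => Fin (A i).g ⊕ Fin (A i).g) n) ℂ) p := by
    refine ⟨hrp.ge, fun i hip => ?_, ?_⟩
    · by_cases hiS : i ∈ S
      · right
        exact ⟨by simp only [r, if_neg hip, if_pos hiS], hnS i hiS, hSr i hiS⟩
      · left
        have hiT : i ∈ T := by
          rcases hI i with h | h | h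
          · exact absurd h hip
          · exact absurd h hiS
          · exact h
        have hr1 : r i = 1 := by simp only [r, if_neg hip, if_neg hiS]
        refine ⟨hr1, hTc i hiT, fun u hu σ => ?_⟩
        by_contra hne
        obtain ⟨w, hw1, hw2, hw3⟩ := relS_ne n (fun i => pData (A i)) F _ hϖ hB hA hr0 i hr1 (by
          rintro v hv hv0 ⟨w, u, hu, hvu⟩
          rw [pData_Q] at hv
          obtain ⟨N, l, hN, hl, hNl⟩ := betti_eq_period (A i) v hv
          have hNC : (N : ℂ) ≠ 0 := Nat.cast_ne_zero.mpr hN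
          refine hnp' i l hl ?_ ⟨N * w, u, hu, ?_⟩
          · rintro rfl
            apply hv0
            have h1 : (A i).period 0 = 0 := map_zero (periodHom (A i))
            rw [h1, smul_eq_zero] at hNl
            exact hNl.resolve_left hNC
          · rw [← hNl, hvu, smul_smul])
        exact hw3 (h _ (relS_odd n _ F _) i ⟨u, hu, σ, hne⟩ w hw1 hw2)
    · intro s t hs ht hst f hf hI' x y
      have hsS := hr2 s.1 hs
      have htS := hr2 t.1 ht
      refine no_link n _ F _ hϖ hB hA hr0 s t hst (hSr _ hsS s.2) (hSr _ htS t.2) (hFS s.1 hsS)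
        (fun hne g hg v => ?_) f hf hI' x y
      have h1 := (isDRB_iff (A s.1) (A t.1) g).mp hg
      exact hSS s.1 hsS t.1 htS hne g
        ⟨g.isLinear, h1.1, h1.2, hom_fil (A s.1) (A t.1) g g.isLinear h1.1 h1.2⟩ v
  have h1 := abstract_of_span n (fun i => pData (A i)) hϖ α hB hα1
    (family_S n (fun i => pData (A i)) F α H hϖ hB hA
      (fun q hk hirr T Φ hev h hR => core_P n (fun i => pData (A i)) F _ H hrp hnp hKp hpc hk hirr
        hev h hR))
  exact isDivisorial_of_span A n k α h1

end Pool.Agent.Helper24
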