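import Pool.Agent.Helper8.J.Parity
import Pool.Agent.Helper7.Goursat
import Pool.Agent.Helper7.Sl2

/-!
Parities of weights: an element of an ideal which has odd weights on a given plane and even
weights on all irreducible modules of dimension three.
-/

namespace Pool.Agent.Helper24

open Module LieAlgebra LieModule
open Pool.Agent.Helper8 (Principal Symp ML2 Inv2 irr_cases exists_principal)
open Pool.Agent.Helper7 (ConjRep goursat_finset sl2_mem mE mF mH tr_mE tr_mF tr_mH mE00 mE01 mE10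
  mE11 mF00 mF01 mF10 mF11)

set_option linter.unusedSectionVars false

attribute [local instance 100] LieRing.ofAssociativeRing

section proj

variable {L : Type*} [LieRing L] [LieAlgebra ℂ L] [FiniteDimensional ℂ L] [IsKilling ℂ L]

lemma lie_zero_of_disjoint {J J' : LieIdeal ℂ L} (h : Disjoint J J') {x y : L} (hx : x ∈ J)
    (hy : y ∈ J') : ⁅x, y⁆ = 0 := by
  have h1 : ⁅x, y⁆ ∈ J := lie_mem_left ℂ L J x y hx
  have h2 : ⁅x, y⁆ ∈ J' := lie_mem_right ℂ L J' x y hy
  have h3 : ⁅x, y⁆ ∈ J ⊓ J' := ⟨h1, h2⟩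
  rw [h.eq_bot] at h3
  exact h3

lemma eq_of_disjoint {J J' : LieIdeal ℂ L} (h : Disjoint J J') {a a' b b' : L} (ha : a ∈ J)
    (ha' : a' ∈ J) (hb : b ∈ J') (hb' : b' ∈ J') (he : a + b = a' + b') : a = a' ∧ b = b' := by
  have h1 : a - a' = b' - b := by
    have : a + b - a' - b = a' + b' - a' - b := by rw [he]
    calc a - a' = a + b - a' - b := by abel
      _ = a' + b' - a' - b := this
      _ = b' - b := by abel
  have h2 : a - a' ∈ J ⊓ J' := ⟨J.sub_mem ha ha', by rw [h1]; exact J'.sub_mem hb' hb⟩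
  rw [h.eq_bot] at h2
  have h3 : a - a' = 0 := h2
  have h4 : b' - b = 0 := by rw [← h1]; exact h3
  exact ⟨sub_eq_zero.mp h3, (sub_eq_zero.mp h4).symm⟩

/-- the projection of a principal triple to an ideal -/
structure ProjTriple (J : LieIdeal ℂ L) (h0 h e f : L) : Prop where
  hJ : h ∈ J
  ef : ⁅e, f⁆ = h
  he : ⁅h, e⁆ = (2 : ℂ) • e
  hf : ⁅h, f⁆ = (-2 : ℂ) • f
  comm : ∀ x ∈ J, ⁅h0 - h, x⁆ = 0
  dec : ∀ x : L, x ∈ Submodule.span ℂ {y : L | ∃ m : ℤ, ⁅h, y⁆ = ((2 * m : ℤ) : ℂ) • y}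

theorem exists_projTriple (p : Principal L) (J : LieIdeal ℂ L) :
    ∃ h e f, ProjTriple J p.h h e f := by
  obtain ⟨J', hJ⟩ := exists_isCompl J
  have hd := hJ.disjoint
  have hsplit : ∀ x : L, ∃ y ∈ J, ∃ z ∈ J', y + z = x := by
    intro x
    rw [← LieSubmodule.mem_sup, hJ.sup_eq_top]
    exact LieSubmodule.mem_top x
  obtain ⟨h1, hh1, h2, hh2, hh⟩ := hsplit p.h
  obtain ⟨e1, he1, e2, he2, hee⟩ := hsplit p.e
  obtain ⟨f1, hf1, f2, hf2, hff⟩ := hsplit p.f
  have z12 : ∀ x ∈ J, ∀ y ∈ J', ⁅x, y⁆ = 0 := fun x hx y hy => lie_zero_of_disjoint hd hx hy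
  have z21 : ∀ x ∈ J', ∀ y ∈ J, ⁅x, y⁆ = 0 := fun x hx y hy =>
    lie_zero_of_disjoint hd.symm hx hy
  refine ⟨h1, e1, f1, hh1, ?_, ?_, ?_, ?_, ?_⟩
  · have h := p.ef
    rw [← hh, ← hee, ← hff, add_lie, lie_add, lie_add, z12 e1 he1 f2 hf2, z21 e2 he2 f1 hf1,
      add_zero, zero_add] at h
    exact (eq_of_disjoint hd (lie_mem_left ℂ L J e1 f1 he1) hh1 (lie_mem_left ℂ L J' e2 f2 he2)
      hh2 h).1
  · have h := p.he
    rw [← hh, ← hee, add_lie, lie_add, lie_add, z12 h1 hh1 e2 he2, z21 h2 hh2 e1 he1,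
      add_zero, zero_add, smul_add] at h
    exact (eq_of_disjoint hd (lie_mem_left ℂ L J h1 e1 hh1) (J.smul_mem _ he1)
      (lie_mem_left ℂ L J' h2 e2 hh2) (J'.smul_mem _ he2) h).1
  · have h := p.hf
    rw [← hh, ← hff, add_lie, lie_add, lie_add, z12 h1 hh1 f2 hf2, z21 h2 hh2 f1 hf1,
      add_zero, zero_add, smul_add] at h
    exact (eq_of_disjoint hd (lie_mem_left ℂ L J h1 f1 hh1) (J.smul_mem _ hf1)
      (lie_mem_left ℂ L J' h2 f2 hh2) (J'.smul_mem _ hf2) h).1
  · intro x hx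
    rw [← hh, add_sub_cancel_left]
    exact z21 h2 hh2 x hx
  · -- eigenvectors of `p.h` decompose into eigenvectors of `h1`
    have key : ∀ (m : ℤ) (y : L), ⁅p.h, y⁆ = ((2 * m : ℤ) : ℂ) • y →
        y ∈ Submodule.span ℂ {y : L | ∃ m : ℤ, ⁅h1, y⁆ = ((2 * m : ℤ) : ℂ) • y} := by
      intro m y hy
      obtain ⟨y1, hy1, y2, hy2, rfl⟩ := hsplit y
      rw [← hh, add_lie, lie_add, lie_add, z12 h1 hh1 y2 hy2, z21 h2 hh2 y1 hy1,
        add_zero, zero_add, smul_add] at hy
      have h3 := (eq_of_disjoint hd (lie_mem_left ℂ L J h1 y1 hh1) (J.smul_mem _ hy1)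
        (lie_mem_left ℂ L J' h2 y2 hh2) (J'.smul_mem _ hy2) hy).1
      refine Submodule.add_mem _ (Submodule.subset_span ⟨m, h3⟩) (Submodule.subset_span ⟨0, ?_⟩)
      rw [z12 h1 hh1 y2 hy2]; simp
    intro x
    obtain ⟨a, ha, b, hb, rfl⟩ := Submodule.mem_sup.mp (p.dec x)
    obtain ⟨a0, ha0, a1, ha1, rfl⟩ := Submodule.mem_sup.mp ha
    refine Submodule.add_mem _ (Submodule.add_mem _ ?_ ?_) ?_
    · refine key 0 a0 ?_
      rw [p.ab _ p.hZ _ ha0]; simp
    · refine Submodule.span_le.mpr ?_ ha1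
      rintro y ⟨n, hn⟩
      refine key (n + 1) y ?_
      rw [hn]; push_cast; rfl
    · refine Submodule.span_le.mpr ?_ hb
      rintro y ⟨n, hn⟩
      refine key (-(n + 1)) y ?_
      rw [hn]; push_cast; congr 1; ring

end proj

section parity

variable {L : Type*} [LieRing L] [LieAlgebra ℂ L] [FiniteDimensional ℂ L] [IsKilling ℂ L]
  {J : LieIdeal ℂ L} {h0 h e f : L} (pt : ProjTriple J h0 h e f)
  {V : Type*} [AddCommGroup V] [Module ℂ V] [LieRingModule L V] [LieModule ℂ L V]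
  [FiniteDimensional ℂ V]

include pt in
/-- all weights of an irreducible module are congruent -/
theorem exists_parity [LieModule.IsIrreducible ℂ L V] :
    ∃ n : ℤ, ⊤ ≤ Submodule.span ℂ {v : V | ∃ m : ℤ, ⁅h, v⁆ = ((n + 2 * m : ℤ) : ℂ) • v} := by
  have hV : Nontrivial V := LieModule.nontrivial_of_isIrreducible ℂ L V
  -- a primitive vector
  obtain ⟨n, v, hv0, hv⟩ : ∃ (n : ℤ) (v : V), v ≠ 0 ∧ ⁅h, v⁆ = (n : ℂ) • v := by
    by_cases hh : h = 0
    · obtain ⟨v, hv⟩ := exists_ne (0 : V)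
      exact ⟨0, v, hv, by rw [hh, zero_lie]; simp⟩
    have hfin : {μ | (toEnd ℂ L V h).HasEigenvalue μ}.Finite :=
      Module.End.finite_hasEigenvalue _
    obtain ⟨μ0, hμ0⟩ := Module.End.exists_eigenvalue (toEnd ℂ L V h)
    obtain ⟨μ, hμ, hmax⟩ := Set.exists_max_image {μ | (toEnd ℂ L V h).HasEigenvalue μ}
      (fun ν : ℂ => ν.re) hfin ⟨μ0, hμ0⟩
    obtain ⟨v, hv⟩ := Module.End.HasEigenvalue.exists_hasEigenvector hμ
    have hv1 : ⁅h, v⁆ = μ • v := by
      have := hv.apply_eq_smul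
      rwa [toEnd_apply_apply] at this
    have hev : ⁅e, v⁆ = 0 := by
      by_contra hne
      have h1 : ⁅h, ⁅e, v⁆⁆ = (μ + 2) • ⁅e, v⁆ := by
        rw [leibniz_lie, pt.he, hv1, smul_lie, lie_smul, add_smul, add_comm]
      have h2 : (toEnd ℂ L V h).HasEigenvalue (μ + 2) :=
        Module.End.hasEigenvalue_of_hasEigenvector (x := ⁅e, v⁆)
          ⟨Module.End.mem_eigenspace_iff.mpr h1, hne⟩
      have h3 := hmax _ h2
      simp only [Complex.add_re] at h3
      have h4 : (2 : ℂ).re = 2 := rfl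
      rw [h4] at h3
      linarith
    have t : IsSl2Triple h e f := ⟨hh, pt.ef, by rw [pt.he]; module, by rw [pt.hf]; module⟩
    have hp : t.HasPrimitiveVectorWith v μ := ⟨hv.2, hv1, hev⟩
    obtain ⟨n, hn⟩ := hp.exists_nat
    exact ⟨n, v, hv.2, by rw [hv1, hn]; simp⟩
  refine ⟨n, ?_⟩
  rcases irr_cases (L := L) (Submodule.span ℂ {v : V | ∃ m : ℤ,
      ⁅h, v⁆ = ((n + 2 * m : ℤ) : ℂ) • v}) (by
    intro x w hw
    have hx := pt.dec x
    induction hx using Submodule.span_induction with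
    | mem y hy =>
      obtain ⟨m', hm'⟩ := hy
      induction hw using Submodule.span_induction with
      | mem u hu =>
        obtain ⟨m, hm⟩ := hu
        refine Submodule.subset_span ⟨m + m', ?_⟩
        rw [leibniz_lie, hm', hm, smul_lie, lie_smul, ← add_smul]
        congr 1
        push_cast; ring
      | zero => rw [lie_zero]; exact Submodule.zero_mem _
      | add a b _ _ ha hb => rw [lie_add]; exact Submodule.add_mem _ ha hb
      | smul c a _ ha => rw [lie_smul]; exact Submodule.smul_mem _ _ ha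
    | zero => rw [zero_lie]; exact Submodule.zero_mem _
    | add a b _ _ ha hb => rw [add_lie]; exact Submodule.add_mem _ ha hb
    | smul c a _ ha => rw [smul_lie]; exact Submodule.smul_mem _ _ ha) with h1 | h1
  · exfalso
    have h2 : v ∈ Submodule.span ℂ {v : V | ∃ m : ℤ, ⁅h, v⁆ = ((n + 2 * m : ℤ) : ℂ) • v} :=
      Submodule.subset_span ⟨0, by rw [hv]; simp⟩
    rw [h1, Submodule.mem_bot] at h2
    exact hv0 h2
  · rw [h1]

/-- the trace of an operator with a spanning set of eigenvectors of the same parity -/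
lemma trace_parity (T : Module.End ℂ V) (n : ℤ)
    (h : ⊤ ≤ Submodule.span ℂ {v : V | ∃ m : ℤ, T v = ((n + 2 * m : ℤ) : ℂ) • v}) :
    ∃ m : ℤ, LinearMap.trace ℂ V T = ((finrank ℂ V * n + 2 * m : ℤ) : ℂ) := by
  classical
  obtain ⟨b, hb⟩ : ∃ b : Basis (Fin (finrank ℂ V)) ℂ V, ∀ j, ∃ m : ℤ,
      T (b j) = ((n + 2 * m : ℤ) : ℂ) • b j := by
    let b0 := Module.Basis.ofSpan h
    have hf : Finite ((linearIndepOn_empty ℂ id).extend (Set.empty_subset
      {v : V | ∃ m : ℤ, T v = ((n + 2 * m : ℤ) : ℂ) • v})) := Module.Finite.finite_basis b0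
    have := Fintype.ofFinite ((linearIndepOn_empty ℂ id).extend (Set.empty_subset
      {v : V | ∃ m : ℤ, T v = ((n + 2 * m : ℤ) : ℂ) • v}))
    refine ⟨b0.reindex (Fintype.equivFinOfCardEq (Module.finrank_eq_card_basis b0).symm),
      fun j => ?_⟩
    rw [Basis.reindex_apply]
    exact Module.Basis.ofSpan_subset h ⟨_, rfl⟩
  choose m hm using hb
  refine ⟨∑ j, m j, ?_⟩
  rw [LinearMap.trace_eq_matrix_trace ℂ b, Matrix.trace]
  have h1 : ∀ j, Matrix.diag (LinearMap.toMatrix b b T) j = ((n + 2 * m j : ℤ) : ℂ) := by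
    intro j
    rw [Matrix.diag_apply, LinearMap.toMatrix_apply, hm, map_smul, Finsupp.smul_apply,
      Basis.repr_self, Finsupp.single_eq_same, smul_eq_mul, mul_one]
  rw [Finset.sum_congr rfl fun j _ => h1 j, ← Int.cast_sum, Finset.sum_add_distrib,
    Finset.sum_const, Finset.card_univ, Fintype.card_fin, ← Finset.mul_sum, nsmul_eq_mul]

include pt in
/-- the weights of irreducible modules of dimension three are even -/
theorem even_of_three [LieModule.IsIrreducible ℂ L V] (hd : finrank ℂ V = 3)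
    (htr : ∀ a : L, LinearMap.trace ℂ V (toEnd ℂ L V a) = 0) :
    ⊤ ≤ Submodule.span ℂ {v : V | ∃ m : ℤ, Even m ∧ ⁅h, v⁆ = (m : ℂ) • v} := by
  obtain ⟨n, hn⟩ := exists_parity pt (V := V)
  obtain ⟨m, hm⟩ := trace_parity (toEnd ℂ L V h) n hn
  rw [htr, hd] at hm
  have h1 : (3 : ℤ) * n + 2 * m = 0 := by exact_mod_cast hm.symm
  have hev : Even n := by
    rw [Int.even_iff]; omega
  refine hn.trans (Submodule.span_mono ?_)
  rintro v ⟨m, hm⟩
  refine ⟨n + 2 * m, ?_, hm⟩
  exact hev.add (even_two_mul m)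

end parity

section plane

variable {L : Type*} [LieRing L] [LieAlgebra ℂ L]
  {V : Type*} [AddCommGroup V] [Module ℂ V] [LieRingModule L V] [LieModule ℂ L V]

/-- the matrices of the action on a plane -/
noncomputable def mt (b : Basis (Fin 2) ℂ V) : L →ₗ[ℂ] Matrix (Fin 2) (Fin 2) ℂ :=
  (LinearMap.toMatrix b b).toLinearMap ∘ₗ (toEnd ℂ L V : L →ₗ[ℂ] Module.End ℂ V)

lemma mt_apply (b : Basis (Fin 2) ℂ V) (x : L) : mt b x = LinearMap.toMatrix b b (toEnd ℂ L V x) :=
  rfl

lemma mt_br (b : Basis (Fin 2) ℂ V) (x y : L) :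
    mt b ⁅x, y⁆ = mt b x * mt b y - mt b y * mt b x := by
  rw [mt_apply, mt_apply, mt_apply, LieHom.map_lie, Ring.lie_def, map_sub,
    LinearMap.toMatrix_mul, LinearMap.toMatrix_mul]

lemma mt_toLin (b : Basis (Fin 2) ℂ V) (x : L) (v : V) :
    Matrix.toLin b b (mt b x) v = ⁅x, v⁆ := by
  rw [mt_apply, Matrix.toLin_toMatrix, toEnd_apply_apply]

lemma mt_repr (b : Basis (Fin 2) ℂ V) (x : L) (v : V) :
    (mt b x).mulVec (b.repr v) = b.repr ⁅x, v⁆ := by
  rw [mt_apply, LinearMap.toMatrix_mulVec_repr, toEnd_apply_apply]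

variable [LieModule.IsIrreducible ℂ L V]

lemma mt_surj (b : Basis (Fin 2) ℂ V) (Z : Matrix (Fin 2) (Fin 2) ℂ)
    (hZ : Z.trace = 0) : ∃ x : L, mt b x = Z := by
  have hV : Nontrivial V := LieModule.nontrivial_of_isIrreducible ℂ L V
  have hfin : FiniteDimensional ℂ V := b.finiteDimensional_of_finite
  have hfr : finrank ℂ V = 2 := by rw [Module.finrank_eq_card_basis b, Fintype.card_fin]
  have h := sl2_mem (LinearMap.range (mt (L := L) b)) ?_ ?_ ?_ Z hZ
  · obtain ⟨x, hx⟩ := h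
    exact ⟨x, hx⟩
  · rintro _ ⟨x, rfl⟩ _ ⟨y, rfl⟩
    exact ⟨⁅x, y⁆, mt_br b x y⟩
  · intro v hv
    by_contra hcon
    push Not at hcon
    obtain ⟨w, hw⟩ : ∃ w : V, ∀ j, b.repr w j = v j :=
      ⟨b.equivFun.symm v, fun j => by
        have := congrFun (b.equivFun.apply_symm_apply v) j
        rwa [Basis.equivFun_apply] at this⟩
    have hw' : ((b.repr w : Fin 2 →₀ ℂ) : Fin 2 → ℂ) = v := funext hw
    rcases irr_cases (L := L) (Submodule.span ℂ {w}) (fun x u hu => by
      obtain ⟨c, rfl⟩ := Submodule.mem_span_singleton.mp hu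
      obtain ⟨c', hc'⟩ := hcon (mt b x) ⟨x, rfl⟩
      rw [← hw', mt_repr] at hc'
      have h1 : ⁅x, w⁆ = c' • w := by
        apply b.repr.injective
        ext j
        have := congrFun hc' j
        rw [this, map_smul]; rfl
      rw [lie_smul, h1]
      exact Submodule.smul_mem _ _ (Submodule.smul_mem _ _ (Submodule.mem_span_singleton_self w)))
      with h | h
    · rw [Submodule.span_singleton_eq_bot] at h
      apply hv
      rw [← hw', h]; simp
    · have h1 := finrank_span_le_card (R := ℂ) ({w} : Set V)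
      rw [h, finrank_top, hfr] at h1
      simp at h1
  · intro t ht
    obtain ⟨c, hc⟩ := Module.End.exists_eigenvalue (Matrix.toLin b b t)
    obtain ⟨v, hv⟩ := hc.exists_hasEigenvector
    have hcomm : ∀ (x : L) (u : V), Matrix.toLin b b t ⁅x, u⁆ = ⁅x, Matrix.toLin b b t u⁆ := by
      intro x u
      have h1 := ht (mt b x) ⟨x, rfl⟩
      have h2 := congrArg (fun m => Matrix.toLin b b m u) h1
      simp only [Matrix.toLin_mul b b b, LinearMap.comp_apply, mt_toLin] at h2
      exact h2.symm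
    refine ⟨c, ?_⟩
    rcases irr_cases (L := L) (Module.End.eigenspace (Matrix.toLin b b t) c) (fun x u hu => by
      rw [Module.End.mem_eigenspace_iff] at hu ⊢
      rw [hcomm, hu, lie_smul]) with h | h
    · exact absurd h hc
    · apply (Matrix.toLin b b).injective
      apply LinearMap.ext
      intro u
      have h1 : u ∈ Module.End.eigenspace (Matrix.toLin b b t) c := by rw [h]; trivial
      rw [Module.End.mem_eigenspace_iff] at h1
      rw [h1, map_smul, Matrix.toLin_one]; rfl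

/-- the invariant pairing given by a conjugation of two planes -/
lemma not_conjRep {T : Type*} {V : T → Type*} [∀ t, AddCommGroup (V t)] [∀ t, Module ℂ (V t)]
    [∀ t, LieRingModule L (V t)] [∀ t, LieModule ℂ L (V t)] (b : ∀ t, Basis (Fin 2) ℂ (V t))
    (s t : T) {ω : V s →ₗ[ℂ] V s →ₗ[ℂ] ℂ} (hω : Symp L ω)
    (h : ∀ f : V s → V t → ℂ, ML2 f → Inv2 L f → ∀ x y, f x y = 0) :
    ¬ ConjRep (fun t => mt (L := L) (b t)) s t := by
  rintro ⟨Q, hQ, hQ2⟩
  have heq : ∀ (x : L) (y : V t), ⁅x, Matrix.toLin (b t) (b s) Q y⁆ =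
      Matrix.toLin (b t) (b s) Q ⁅x, y⁆ := by
    intro x y
    have h2 : Matrix.toLin (b t) (b s) (mt (b s) x * Q) y =
        Matrix.toLin (b t) (b s) (Q * mt (b t) x) y := by rw [hQ2 x]
    rw [Matrix.toLin_mul (b t) (b s) (b s), Matrix.toLin_mul (b t) (b t) (b s),
      LinearMap.comp_apply, LinearMap.comp_apply, mt_toLin, mt_toLin] at h2
    exact h2
  have h1 := h (fun x y => ω x (Matrix.toLin (b t) (b s) Q y))
    ⟨fun y => ⟨fun u v => by simp only [map_add, LinearMap.add_apply],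
      fun c u => by simp only [map_smul, LinearMap.smul_apply]⟩,
      fun x => ⟨fun u v => by simp only [map_add], fun c u => by simp only [map_smul]⟩⟩
    (fun a x y => by
      show ω ⁅a, x⁆ (Matrix.toLin (b t) (b s) Q y) + ω x (Matrix.toLin (b t) (b s) Q ⁅a, y⁆) = 0
      rw [← heq, hω.inv]; ring)
  apply hQ
  have h2 : Matrix.toLin (b t) (b s) Q = 0 := by
    apply LinearMap.ext
    intro y
    apply hω.nd
    intro x
    rw [hω.alt, h1, neg_zero]
  have h3 : Q = 0 := (Matrix.toLin (b t) (b s)).injective (by rw [h2, map_zero])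
  rw [h3, Matrix.det_zero]

end plane

section main

variable {L : Type*} [LieRing L] [LieAlgebra ℂ L] [FiniteDimensional ℂ L] [IsKilling ℂ L]

/-- the ideal acting trivially on some modules -/
def kerI {T : Type*} (V : T → Type*) [∀ t, AddCommGroup (V t)] [∀ t, Module ℂ (V t)]
    [∀ t, LieRingModule L (V t)] [∀ t, LieModule ℂ L (V t)] (S : Finset T) : LieIdeal ℂ L where
  carrier := {x | ∀ t ∈ S, ∀ v : V t, ⁅x, v⁆ = 0}
  add_mem' := by
    intro a b ha hb t ht v
    rw [add_lie, ha t ht, hb t ht, add_zero]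
  zero_mem' := by
    intro t ht v
    rw [zero_lie]
  smul_mem' := by
    intro c x hx t ht v
    rw [smul_lie, hx t ht, smul_zero]
  lie_mem := by
    intro x m hm t ht v
    show ⁅⁅x, m⁆, v⁆ = 0
    rw [lie_lie, hm t ht, hm t ht, lie_zero, sub_zero]

/-- an element with odd weights on one plane, even weights on irreducible modules of dimension
three and acting trivially on some other planes -/
theorem exists_parity_element {T : Type*} (V : T → Type*) [∀ t, AddCommGroup (V t)]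
    [∀ t, Module ℂ (V t)] [∀ t, LieRingModule L (V t)] [∀ t, LieModule ℂ L (V t)]
    [∀ t, LieModule.IsIrreducible ℂ L (V t)]
    (b : ∀ t, Basis (Fin 2) ℂ (V t))
    (htr : ∀ t (a : L), LinearMap.trace ℂ (V t) (toEnd ℂ L (V t) a) = 0)
    (s : T) (S : Finset T) {ω : V s →ₗ[ℂ] V s →ₗ[ℂ] ℂ} (hω : Symp L ω)
    (hS : ∀ t ∈ S, ∀ f : V s → V t → ℂ, ML2 f → Inv2 L f → ∀ x y, f x y = 0) :
    ∃ h : L, (∀ t ∈ S, ∀ v : V t, ⁅h, v⁆ = 0) ∧
      (⊤ ≤ Submodule.span ℂ {v : V s | ∃ m : ℤ, Odd m ∧ ⁅h, v⁆ = (m : ℂ) • v}) ∧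
      ∀ (W : Type) [AddCommGroup W] [Module ℂ W] [LieRingModule L W] [LieModule ℂ L W]
        [FiniteDimensional ℂ W] [LieModule.IsIrreducible ℂ L W], finrank ℂ W = 3 →
        (∀ a : L, LinearMap.trace ℂ W (toEnd ℂ L W a) = 0) →
        ⊤ ≤ Submodule.span ℂ {v : W | ∃ m : ℤ, Even m ∧ ⁅h, v⁆ = (m : ℂ) • v} := by
  obtain ⟨p⟩ := exists_principal L
  obtain ⟨h, e, f, pt⟩ := exists_projTriple p (kerI V S)
  have hfin : FiniteDimensional ℂ (V s) := (b s).finiteDimensional_of_finite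
  refine ⟨h, fun t ht v => pt.hJ t ht v, ?_, fun W _ _ _ _ _ _ hd ht => even_of_three pt hd ht⟩
  -- `p.h - h` acts trivially on the plane
  have hG := goursat_finset (fun x y : L => ⁅x, y⁆) (fun t => mt (L := L) (b t)) 0
    (fun t X Y => mt_br (b t) X Y) (fun t X => by
      rw [mt_apply, ← LinearMap.trace_eq_matrix_trace, htr, LinearMap.zero_apply])
    (fun t Z hZ => mt_surj (b t) Z hZ) s S (fun t ht => not_conjRep b s t hω (hS t ht))
  have hker : ∀ X : L, (∀ t ∈ S, mt (b t) X = 0) → X ∈ kerI V S := by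
    intro X hX t ht v
    rw [← mt_toLin (b t), hX t ht, map_zero, LinearMap.zero_apply]
  obtain ⟨XE, hE, hE'⟩ := hG mE tr_mE
  obtain ⟨XF, hF, hF'⟩ := hG mF tr_mF
  have cE := pt.comm XE (hker XE hE')
  have cF := pt.comm XF (hker XF hF')
  have dE := mt_br (b s) (p.h - h) XE
  have dF := mt_br (b s) (p.h - h) XF
  rw [cE, hE, map_zero] at dE
  rw [cF, hF, map_zero] at dF
  have tr : (mt (b s) (p.h - h)).trace = 0 := by
    rw [mt_apply, ← LinearMap.trace_eq_matrix_trace, htr]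
  obtain ⟨M, hM⟩ : ∃ M, M = mt (b s) (p.h - h) := ⟨_, rfl⟩
  rw [← hM] at dE dF tr
  have m1 : M 1 0 = 0 := by
    have := congrFun (congrFun dE 0) 0
    simp only [Matrix.sub_apply, Matrix.mul_apply, Fin.sum_univ_two, mE00, mE01, mE10,
      Matrix.zero_apply] at this
    linear_combination this
  have m2 : M 0 0 = M 1 1 := by
    have := congrFun (congrFun dE 0) 1
    simp only [Matrix.sub_apply, Matrix.mul_apply, Fin.sum_univ_two, mE00, mE01, mE11,
      Matrix.zero_apply] at this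
    linear_combination -this
  have m3 : M 0 1 = 0 := by
    have := congrFun (congrFun dF 0) 0
    simp only [Matrix.sub_apply, Matrix.mul_apply, Fin.sum_univ_two, mF00, mF10, mF01,
      Matrix.zero_apply] at this
    linear_combination -this
  rw [Matrix.trace_fin_two] at tr
  have hM0 : M = 0 := by
    ext i j
    fin_cases i <;> fin_cases j
    · show M 0 0 = 0
      linear_combination tr / 2 + m2 / 2
    · exact m3
    · exact m1
    · show M 1 1 = 0
      linear_combination tr / 2 - m2 / 2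
  have hact : ∀ v : V s, ⁅h, v⁆ = ⁅p.h, v⁆ := by
    intro v
    have h1 := mt_toLin (b s) (p.h - h) v
    rw [← hM, hM0, map_zero, LinearMap.zero_apply, sub_lie] at h1
    exact (sub_eq_zero.mp h1.symm).symm
  have h2 := p.odd_span hω
  simpa only [hact] using h2

end main

end Pool.Agent.Helper24
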