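import Pool.Agent.Helper24.PT.USlots
import Pool.Agent.Helper24.PT.LPar
import Pool.Agent.Helper24.Three
import Pool.Agent.Helper7.Conseq

/-!
The pairings of the eigenspaces of a factor, and the absence of pairings between different real
places.
-/

namespace Pool.Agent.Helper24

open Module NumberField LieAlgebra Pool.Agent.Helper7

attribute [local instance 100] LieRing.ofAssociativeRing

open Pool.Agent.GPC (Emb IsOdd IsOddModule translate)
open Pool.Agent.Helper8 (SF SF0 PS symG invF invF_symG SF.toSF0 SF.factor SF.mem_of_factor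
  Symp ML2 Inv2 exists_linear)

set_option linter.unusedSectionVars false

section family

variable {I : Type} [Fintype I] [DecidableEq I] (n : I → ℕ)
  {κ : I → Type} [∀ i, Fintype (κ i)] [∀ i, DecidableEq (κ i)] {ϖ : ℂ}
  (P : ∀ i, PData (κ i) ϖ)
  {K : I → Type} [∀ i, Field (K i)] [∀ i, NumberField (K i)] {r : I → ℕ}
  (F : ∀ i, UF (P i) (K i) (r i))
  {k : ℕ} (α : MultilinearMap ℂ (fun _ : Fin (2 * k) => HW κ n) ℂ)

/-- the pairing of two eigenspaces of a factor -/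
noncomputable def bp (i : I) (σ τ : K i →+* ℂ) :
    Vs n P F α ⟨i, σ⟩ →ₗ[ℂ] Vs n P F α ⟨i, τ⟩ →ₗ[ℂ] ℂ :=
  (P i).ψ.compl₁₂ (ofVs n P F α ⟨i, σ⟩) (ofVs n P F α ⟨i, τ⟩)

lemma bp_apply (i : I) (σ τ : K i →+* ℂ) (x : Vs n P F α ⟨i, σ⟩) (y : Vs n P F α ⟨i, τ⟩) :
    bp n P F α i σ τ x y = (P i).ψ ((x : MM κ) i) ((y : MM κ) i) := rfl

lemma psi_proj {κ : Type} [Fintype κ] [DecidableEq κ] {ϖ : ℂ} {P : PData κ ϖ} {K : Type}
    [Field K] [NumberField K] {r : ℕ} (F : UF P K r) (σ τ : K →+* ℂ) (u w : κ → ℂ)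
    (h : τ ≠ ComplexEmbedding.conjugate σ) : P.ψ (proj F.ρ σ u) (proj F.ρ τ w) = 0 := by
  rw [F.proj_eq, F.proj_eq]
  simp only [map_sum, LinearMap.sum_apply, map_smul, LinearMap.smul_apply, F.psi_e σ τ _ _ h,
    smul_zero, Finset.sum_const_zero]

lemma psi_right {κ : Type} [Fintype κ] [DecidableEq κ] {ϖ : ℂ} {P : PData κ ϖ} {K : Type}
    [Field K] [NumberField K] {r : ℕ} (F : UF P K r) (σ : K →+* ℂ) (u w : κ → ℂ) :
    P.ψ (proj F.ρ σ u) w =
      P.ψ (proj F.ρ σ u) (proj F.ρ (ComplexEmbedding.conjugate σ) w) := by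
  classical
  conv_lhs => rw [sum_proj_apply F.ρ w, map_sum]
  rw [Finset.sum_eq_single (ComplexEmbedding.conjugate σ)]
  · intro τ _ hτ
    exact psi_proj F σ τ u w hτ
  · intro h; exact absurd (Finset.mem_univ _) h

lemma bp_ndl (i : I) (σ : K i →+* ℂ) (x : Vs n P F α ⟨i, σ⟩)
    (h : ∀ y, bp n P F α i σ (ComplexEmbedding.conjugate σ) x y = 0) : x = 0 := by
  apply Vs_ext n P F α ⟨i, σ⟩
  show (x : MM κ) i = 0
  apply (P i).hψnd
  intro w
  have h1 : proj (F i).ρ σ ((x : MM κ) i) = (x : MM κ) i := Vs_proj n P F α ⟨i, σ⟩ x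
  rw [← h1, psi_right]
  have h2 := h (toVs n P F α ⟨i, ComplexEmbedding.conjugate σ⟩ w)
  rw [bp_apply] at h2
  have h3 : ((toVs n P F α ⟨i, ComplexEmbedding.conjugate σ⟩ w :
    Vs n P F α ⟨i, ComplexEmbedding.conjugate σ⟩) : MM κ) i =
      proj (F i).ρ (ComplexEmbedding.conjugate σ) w :=
    toVs_apply n P F α ⟨i, ComplexEmbedding.conjugate σ⟩ w
  rw [h3] at h2
  rw [h1]
  exact h2

lemma bp_flip (i : I) (σ τ : K i →+* ℂ) (x : Vs n P F α ⟨i, σ⟩) (y : Vs n P F α ⟨i, τ⟩) :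
    bp n P F α i σ τ x y = - bp n P F α i τ σ y x := (P i).hψalt _ _

lemma bp_ndr (i : I) (σ τ : K i →+* ℂ) (hτ : τ = ComplexEmbedding.conjugate σ)
    (y : Vs n P F α ⟨i, τ⟩) (h : ∀ x, bp n P F α i σ τ x y = 0) : y = 0 := by
  obtain rfl : σ = ComplexEmbedding.conjugate τ := by
    rw [hτ]
    exact (Pool.Agent.Helper84.cc_cc σ).symm
  apply bp_ndl n P F α i τ y
  intro x
  rw [bp_flip, h, neg_zero]

lemma bp_inv (hr : ∀ i, 0 < r i) (i : I) (σ : K i →+* ℂ) (a : LL n P F α)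
    (x : Vs n P F α ⟨i, σ⟩) (y : Vs n P F α ⟨i, ComplexEmbedding.conjugate σ⟩) :
    bp n P F α i σ (ComplexEmbedding.conjugate σ) ⁅a, x⁆ y +
      bp n P F α i σ (ComplexEmbedding.conjugate σ) x ⁅a, y⁆ = 0 := by
  obtain ⟨X, hX, rfl⟩ := exists_elL n P F α a
  rw [bp_apply, bp_apply]
  have h1 := elL_act n P F α X hX ⟨i, σ⟩ x
  have h2 := elL_act n P F α X hX ⟨i, ComplexEmbedding.conjugate σ⟩ y
  simp only at h1 h2
  rw [h1, h2, map_sub, map_sub, map_smul, map_smul, LinearMap.sub_apply, LinearMap.smul_apply,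
    smul_eq_mul, smul_eq_mul]
  have h3 := hX.pol i ((x : MM κ) i) ((y : MM κ) i)
  have h4 : ch P F ⟨i, σ⟩ X + ch P F ⟨i, ComplexEmbedding.conjugate σ⟩ X = X.2 :=
    ch_conj n P F α hr ⟨i, σ⟩ X hX
  linear_combination h3 - (P i).ψ ((x : MM κ) i) ((y : MM κ) i) * h4

/-- conjugate places are dual -/
theorem bp_pair (hr : ∀ i, 0 < r i) (i : I) (σ : K i →+* ℂ) :
    PairInv (LL n P F α) (bp n P F α i σ (ComplexEmbedding.conjugate σ)) :=
  ⟨bp_ndl n P F α i σ, fun y h => bp_ndr n P F α i σ _ rfl y h, bp_inv n P F α hr i σ⟩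

/-- real places are symplectic -/
theorem bp_symp (hr : ∀ i, 0 < r i) (i : I) (σ : K i →+* ℂ)
    (hσ : ComplexEmbedding.conjugate σ = σ) : Symp (LL n P F α) (bp n P F α i σ σ) := by
  have h := bp_pair n P F α hr i σ
  rw [hσ] at h
  exact ⟨fun x y => bp_flip n P F α i σ σ x y, h.ndl, fun a x y => by
    have := h.inv a x y
    linear_combination this⟩

lemma bf_eq_bp (i : I) (m m' : Fin (n i)) (σ : K i →+* ℂ) (u w : HW κ n) :
    bf n P F i m m' σ u w = bp n P F α i σ (ComplexEmbedding.conjugate σ)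
      (outS n P F α ⟨i, m, σ⟩ u) (outS n P F α ⟨i, m', ComplexEmbedding.conjugate σ⟩ w) := by
  rw [bf_apply, bp_apply]
  have h1 := outS_apply n P F α ⟨i, m, σ⟩ u
  have h2 := outS_apply n P F α ⟨i, m', ComplexEmbedding.conjugate σ⟩ w
  simp only at h1 h2
  rw [h1, h2]

variable (hϖ : ϖ ≠ 0)
  (hB : ∀ v : Fin (2 * k) → HW κ n, (∀ r, IsRatP n P (v r)) → ∃ q : ℚ, α v = ϖ ^ k * q)
  (hA : ∀ v : Fin (2 * k) → HW κ n, (∀ r i m j, IsAlgebraic ℚ (v r i m j)) →
      IsAlgebraic ℚ (α v))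

lemma toVs_act (X : GG κ) (hX : IsInv n P α X) (s : Emb K) (u : κ s.1 → ℂ) :
    toVs n P F α s (X.1 s.1 u) =
      ⁅elL n P F α X hX, toVs n P F α s u⁆ + ch P F s X • toVs n P F α s u := by
  apply Vs_ext n P F α s
  have h1 : ((⁅elL n P F α X hX, toVs n P F α s u⁆ + ch P F s X • toVs n P F α s u :
      Vs n P F α s) : MM κ) s.1 =
      ((⁅elL n P F α X hX, toVs n P F α s u⁆ : Vs n P F α s) : MM κ) s.1 +
        ch P F s X • ((toVs n P F α s u : Vs n P F α s) : MM κ) s.1 := rfl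
  rw [h1, elL_act, sub_add_cancel, toVs_apply, toVs_apply, commP n P F α hX]

include hϖ hB hA in
/-- different real places of simple and pairwise not isogenous factors are not paired -/
theorem no_link (hr : ∀ i, 0 < r i) (s t : Emb K) (hst : s ≠ t)
    (hs : ComplexEmbedding.conjugate s.2 = s.2) (ht : ComplexEmbedding.conjugate t.2 = t.2)
    (hsimple : ∀ f, IsDRB (P s.1) (P s.1) f → ∃ x, ∀ v, f v = (F s.1).ρ x v)
    (hiso : s.1 ≠ t.1 → ∀ f, IsDRB (P s.1) (P t.1) f → ∀ v, f v = 0)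
    (f : Vs n P F α s → Vs n P F α t → ℂ) (hf : ML2 f) (hI : Inv2 (LL n P F α) f)
    (x : Vs n P F α s) (y : Vs n P F α t) : f x y = 0 := by
  obtain ⟨β, hβ⟩ := exists_linear hf
  have chs : ∀ X, IsInv n P α X → ch P F s X + ch P F t X = X.2 := by
    intro X hX
    have h1 := ch_conj n P F α hr s X hX
    have h2 := ch_conj n P F α hr t X hX
    have h3 : conjT s = s := by
      obtain ⟨i, σ⟩ := s
      show (⟨i, ComplexEmbedding.conjugate σ⟩ : Emb K) = ⟨i, σ⟩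
      rw [hs]
    have h4 : conjT t = t := by
      obtain ⟨i, σ⟩ := t
      show (⟨i, ComplexEmbedding.conjugate σ⟩ : Emb K) = ⟨i, σ⟩
      rw [ht]
    rw [h3] at h1
    rw [h4] at h2
    linear_combination h1 / 2 + h2 / 2
  obtain ⟨m, c, g, hg, hβg⟩ := bilin_of_inv n P α hϖ hB hA s.1 t.1
    (β.compl₁₂ (toVs n P F α s) (toVs n P F α t)) (by
      intro X hX u v
      simp only [LinearMap.compl₁₂_apply]
      rw [toVs_act n P F α X hX s u, toVs_act n P F α X hX t v]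
      simp only [map_add, map_smul, LinearMap.add_apply, LinearMap.smul_apply, smul_eq_mul]
      simp only [hβ]
      have h1 := hI (elL n P F α X hX) (toVs n P F α s u) (toVs n P F α t v)
      linear_combination h1 + f (toVs n P F α s u) (toVs n P F α t v) * chs X hX)
  simp only [LinearMap.compl₁₂_apply] at hβg
  have hval : f x y = ∑ l, c l * (P t.1).ψ (g l ((x : MM κ) s.1)) ((y : MM κ) t.1) := by
    rw [← hβg]
    have h1 : toVs n P F α s ((x : MM κ) s.1) = x := toVs_ofVs n P F α s x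
    have h2 : toVs n P F α t ((y : MM κ) t.1) = y := toVs_ofVs n P F α t y
    rw [h1, h2, hβ]
  rw [hval]
  refine Finset.sum_eq_zero fun l _ => ?_
  by_cases hij : s.1 = t.1
  · obtain ⟨i, σ⟩ := s
    obtain ⟨j, τ⟩ := t
    obtain rfl : i = j := hij
    simp only at hs ht hsimple g hg ⊢
    obtain ⟨z, hz⟩ := hsimple (g l) (hg l)
    have hx : proj (F i).ρ σ ((x : MM κ) i) = (x : MM κ) i := Vs_proj n P F α ⟨i, σ⟩ x
    have hy : proj (F i).ρ τ ((y : MM κ) i) = (y : MM κ) i := Vs_proj n P F α ⟨i, τ⟩ y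
    have hne : τ ≠ ComplexEmbedding.conjugate σ := by
      rw [hs]
      rintro rfl
      exact hst rfl
    rw [hz, ← hx, ← hy, ← Module.End.mul_apply, rho_mul_proj, LinearMap.smul_apply, map_smul,
      LinearMap.smul_apply, psi_proj (F i) σ τ _ _ hne, smul_zero, mul_zero]
  · rw [hiso hij (g l) (hg l), map_zero, LinearMap.zero_apply, mul_zero]

end family

end Pool.Agent.Helper24
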