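import Pool.Agent.Helper24.PT.URel
import Pool.Agent.Helper7.L3
import Pool.Agent.Helper8.H.Family

/-!
Atoms, slot functions, and the removal of pairs of slots.
-/

namespace Pool.Agent.Helper24

open Module NumberField LieAlgebra Pool.Agent.Helper7

attribute [local instance 100] LieRing.ofAssociativeRing

open Pool.Agent.GPC (Emb IsOdd IsOddModule translate)
open Pool.Agent.Helper84 (xi)
open Pool.Agent.Helper8 (SF SF0 PS symG invF invF_symG SF.toSF0 SF.factor SF.mem_of_factor)

set_option linter.unusedSectionVars false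

section family

variable {I : Type} [Fintype I] [DecidableEq I] (n : I → ℕ)
  {κ : I → Type} [∀ i, Fintype (κ i)] [∀ i, DecidableEq (κ i)] {ϖ : ℂ}
  (P : ∀ i, PData (κ i) ϖ)
  {K : I → Type} [∀ i, Field (K i)] [∀ i, NumberField (K i)] {r : I → ℕ}
  (F : ∀ i, UF (P i) (K i) (r i))
  {k : ℕ} (α : MultilinearMap ℂ (fun _ : Fin (2 * k) => HW κ n) ℂ)

/-- inclusion of a slot -/
noncomputable def inS (t : At n K) : Vs n P F α (pl n t) →ₗ[ℂ] HW κ n :=
  (slotL n t.1 t.2.1) ∘ₗ ofVs n P F α (pl n t)

lemma inS_apply (t : At n K) (x : Vs n P F α (pl n t)) :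
    inS n P F α t x = slotL n t.1 t.2.1 ((x : MM κ) t.1) := rfl

/-- projection to a slot -/
noncomputable def outS (t : At n K) : HW κ n →ₗ[ℂ] Vs n P F α (pl n t) :=
  (toVs n P F α (pl n t)) ∘ₗ prL n t.1 t.2.1

lemma outS_apply (t : At n K) (u : HW κ n) :
    ((outS n P F α t u : Vs n P F α (pl n t)) : MM κ) t.1 =
      proj (F t.1).ρ t.2.2 (u t.1 t.2.1) := toVs_apply n P F α (pl n t) _

lemma out_in (t : At n K) (x : Vs n P F α (pl n t)) :
    outS n P F α t (inS n P F α t x) = x := by
  apply Vs_ext n P F α (pl n t)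
  have h1 : (inS n P F α t x) t.1 t.2.1 = (x : MM κ) t.1 := prL_slotL n t.1 t.2.1 _
  have h2 := outS_apply n P F α t (inS n P F α t x)
  rw [h1, Vs_proj n P F α (pl n t) x] at h2
  exact h2

/-- the projector to an atom -/
noncomputable def EE (t : At n K) : Module.End ℂ (HW κ n) :=
  (slotL n t.1 t.2.1) ∘ₗ (proj (F t.1).ρ t.2.2) ∘ₗ prL n t.1 t.2.1

lemma EE_apply (t : At n K) (u : HW κ n) :
    EE n P F t u = slotL n t.1 t.2.1 (proj (F t.1).ρ t.2.2 (u t.1 t.2.1)) := rfl

lemma EE_eq (t : At n K) (u : HW κ n) : EE n P F t u = inS n P F α t (outS n P F α t u) := by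
  rw [EE_apply, inS_apply, outS_apply]

lemma sum_EE (u : HW κ n) : ∑ t, EE n P F t u = u := by
  conv_rhs => rw [← sum_slot n u]
  rw [Fintype.sum_sigma]
  refine Finset.sum_congr rfl fun i _ => ?_
  rw [Fintype.sum_prod_type]
  refine Finset.sum_congr rfl fun m _ => ?_
  conv_rhs => rw [sum_proj_apply (F i).ρ (u i m), map_sum]
  rfl

lemma EE_EE (t : At n K) (u : HW κ n) : EE n P F t (EE n P F t u) = EE n P F t u := by
  classical
  have h1 : (slotL n t.1 t.2.1 (proj (F t.1).ρ t.2.2 (u t.1 t.2.1))) t.1 t.2.1 =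
      proj (F t.1).ρ t.2.2 (u t.1 t.2.1) := prL_slotL n t.1 t.2.1 _
  rw [EE_apply, EE_apply, h1, ← Module.End.mul_apply, proj_mul_proj, if_pos rfl]

lemma EE_lift {X : GG κ} (hX : IsInv n P α X) (t : At n K)
    (u : HW κ n) : EE n P F t (lift n X.1 u) = lift n X.1 (EE n P F t u) := by
  rw [EE_apply, EE_apply, lift_slot, lift_apply, commP n P F α hX]

lemma lift_in (X : GG κ) (hX : IsInv n P α X) (t : At n K)
    (x : Vs n P F α (pl n t)) : lift n X.1 (inS n P F α t x) =
      inS n P F α t ⁅elL n P F α X hX, x⁆ + ch P F (pl n t) X • inS n P F α t x := by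
  rw [inS_apply, inS_apply, lift_slot, elL_act n P F α X hX (pl n t), map_sub, map_smul,
    sub_add_cancel]

/-- two symmetries with the same normalised action -/
lemma lift_EE (X X0 : GG κ) (hX : IsInv n P α X) (hX0 : IsInv n P α X0)
    (h : elL n P F α X hX = elL n P F α X0 hX0) (h0 : ∀ s, ch P F s X0 = 0) (t : At n K)
    (u : HW κ n) : lift n X.1 (EE n P F t u) =
      lift n X0.1 (EE n P F t u) + ch P F (pl n t) X • EE n P F t u := by
  rw [EE_eq n P F α, lift_in n P F α X hX, lift_in n P F α X0 hX0, h, h0, zero_smul, add_zero]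

/-- the labelled components of an alternating form are slot functions -/
lemma SF_label (β : (HW κ n) [⋀^Fin (2 * k)]→ₗ[ℂ] ℂ) (a : Fin (2 * k) → At n K) :
    SF (symG n P (β : MultilinearMap ℂ (fun _ : Fin (2 * k) => HW κ n) ℂ)) (EE n P F) a
      Finset.univ (fun v => β (fun r => EE n P F (a r) (v r))) := by
  classical
  have hupd : ∀ (v : Fin (2 * k) → HW κ n) r x,
      (fun r' => EE n P F (a r') (Function.update v r x r')) =
      Function.update (fun r' => EE n P F (a r') (v r')) r (EE n P F (a r) x) := by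
    intro v r x
    funext r'
    by_cases h : r' = r
    · subst h; rw [Function.update_self, Function.update_self]
    · rw [Function.update_of_ne h, Function.update_of_ne h]
  refine ⟨?_, ?_, ?_, ?_, ?_, ?_⟩
  · intro v v' hv
    have : v = v' := funext fun r => hv r (Finset.mem_univ r)
    rw [this]
  · intro v r _ x y
    rw [hupd, hupd, hupd, map_add, AlternatingMap.map_update_add]
  · intro v r _ c x
    rw [hupd, hupd, map_smul, AlternatingMap.map_update_smul, smul_eq_mul]
  · rintro _ ⟨X, hX, rfl⟩ v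
    have h1 := congrArg (fun g => g (fun r => EE n P F (a r) (v r))) hX.form
    simp only [actForm_apply, _root_.smul_apply, smul_eq_mul] at h1
    have h2 : ∀ t, β (fun r' => EE n P F (a r') (Function.update v t (lift n X.1 (v t)) r')) =
        (β : MultilinearMap ℂ (fun _ : Fin (2 * k) => HW κ n) ℂ)
          (Function.update (fun r => EE n P F (a r) (v r)) t
            (lift n X.1 (EE n P F (a t) (v t)))) := by
      intro t
      rw [hupd, EE_lift n P F _ hX]
      rfl
    simp only [h2]
    rw [h1, Finset.card_univ, Fintype.card_fin]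
    push_cast
    show 2 * ((k : ℂ) * X.2 * β (fun r => EE n P F (a r) (v r))) = _
    ring
  · intro r _ v
    rw [hupd, EE_EE]
    congr 1
    exact Function.update_eq_self r (fun r' => EE n P F (a r') (v r'))
  · intro r _ s _ hne hq v
    have h1 := β.map_swap (fun r' => EE n P F (a r') (v r')) hne
    rw [← h1]
    congr 1
    funext t
    rw [Function.comp_apply, Function.comp_apply]
    congr 2
    by_cases ht : t = r
    · subst ht; rw [Equiv.swap_apply_left, hq]
    · by_cases ht' : t = s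
      · subst ht'; rw [Equiv.swap_apply_right, hq]
      · rw [Equiv.swap_apply_of_ne_of_ne ht ht']

lemma sum_labels (β : (HW κ n) [⋀^Fin (2 * k)]→ₗ[ℂ] ℂ) (v : Fin (2 * k) → HW κ n) :
    β v = ∑ a : Fin (2 * k) → At n K, β (fun r => EE n P F (a r) (v r)) := by
  classical
  have h1 : v = fun r => ∑ t : At n K, EE n P F t (v r) := funext fun r =>
    (sum_EE n P F (v r)).symm
  conv_lhs => rw [h1]
  exact (β : MultilinearMap ℂ (fun _ : Fin (2 * k) => HW κ n) ℂ).map_sum
    (fun r t => EE n P F t (v r))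

section slots

variable {R : Type*} [DecidableEq R] {q : R → At n K} {T : Finset R} {Φ : (R → HW κ n) → ℂ}

/-- a slot function does not change when the labels are applied to all arguments -/
lemma lab_all (h : SF0 (EE n P F) q T Φ) (v : R → HW κ n) :
    Φ (fun r => EE n P F (q r) (v r)) = Φ v := by
  have key : ∀ S : Finset R, S ⊆ T →
      Φ (S.piecewise (fun r => EE n P F (q r) (v r)) v) = Φ v := by
    intro S
    induction S using Finset.induction_on with
    | empty => intro _; rw [Finset.piecewise_empty]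
    | insert a S ha ih =>
      intro hS
      rw [Finset.insert_subset_iff] at hS
      rw [← ih hS.2, ← h.lab a hS.1 (S.piecewise (fun r => EE n P F (q r) (v r)) v)]
      congr 1
      funext r
      by_cases hr : r = a
      · subst hr
        rw [Finset.piecewise_eq_of_mem _ _ _ (Finset.mem_insert_self _ _),
          Function.update_self, Finset.piecewise_eq_of_notMem _ _ _ ha]
      · rw [Function.update_of_ne hr]
        by_cases hrS : r ∈ S
        · rw [Finset.piecewise_eq_of_mem _ _ _ hrS,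
            Finset.piecewise_eq_of_mem _ _ _ (Finset.mem_insert_of_mem hrS)]
        · rw [Finset.piecewise_eq_of_notMem _ _ _ hrS, Finset.piecewise_eq_of_notMem _ _ _
            (by rw [Finset.mem_insert, not_or]; exact ⟨hr, hrS⟩)]
  rw [← key T (Finset.Subset.refl T)]
  refine h.dep _ _ fun r hr => ?_
  rw [Finset.piecewise_eq_of_mem _ _ _ hr]

/-- the relation between the weights of the slots -/
lemma weight_sum (hk : IsKilling ℂ (LL n P F α)) (h : SF (symG n P α) (EE n P F) q T Φ)
    (v : R → HW κ n) (hv : Φ v ≠ 0) (X : GG κ) (hX : IsInv n P α X) :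
    2 * ∑ r ∈ T, ch P F (pl n (q r)) X = T.card * X.2 := by
  obtain ⟨X0, hX0, h1, h2, h3⟩ := perfect_lift n P F α hk (elL n P F α X hX)
  obtain ⟨w, hw⟩ : ∃ w, w = fun r => EE n P F (q r) (v r) := ⟨_, rfl⟩
  have hwΦ : Φ w = Φ v := by rw [hw]; exact lab_all n P F h.toSF0 v
  have e1 := h.inv _ ⟨X, hX, rfl⟩ w
  have e2 := h.inv _ ⟨X0, hX0, rfl⟩ w
  simp only [h2, mul_zero, zero_mul] at e2
  have e3 : ∀ t ∈ T, Φ (Function.update w t (lift n X.1 (w t))) =
      Φ (Function.update w t (lift n X0.1 (w t))) + ch P F (pl n (q t)) X * Φ w := by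
    intro t ht
    have e4 : lift n X.1 (w t) = lift n X0.1 (w t) + ch P F (pl n (q t)) X • w t := by
      rw [hw]
      exact lift_EE n P F α X X0 hX hX0 h1 h3 (q t) (v t)
    rw [e4, h.add _ t ht, h.smul _ t ht, Function.update_eq_self]
  simp only at e1
  rw [Finset.sum_congr rfl e3, Finset.sum_add_distrib, mul_add, e2, zero_add, ← Finset.sum_mul,
    ← mul_assoc, hwΦ] at e1
  exact mul_right_cancel₀ hv e1

lemma xi_def (s t : Emb K) [Decidable (s = t)] [Decidable (conjT s = t)] :
    xi s t = (if s = t then 1 else 0) - (if conjT s = t then 1 else 0) := by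
  unfold xi
  congr 1 <;> congr

lemma sum_xi' (s : Emb K) (g : Emb K → ℂ) :
    ∑ t, ((xi s t : ℚ) : ℂ) * g t = g s - g (conjT s) := by
  classical
  have h1 : ∀ t, ((xi s t : ℚ) : ℂ) * g t = (if s = t then g t else 0) -
      (if conjT s = t then g t else 0) := by
    intro t
    rw [xi_def]
    split_ifs <;> simp
  rw [Finset.sum_congr rfl fun t _ => h1 t, Finset.sum_sub_distrib, Finset.sum_ite_eq,
    Finset.sum_ite_eq]
  simp

/-- the relation given by a non-zero slot function -/
lemma rel_mem (hr : ∀ i, 0 < r i) (hk : IsKilling ℂ (LL n P F α))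
    (h : SF (symG n P α) (EE n P F) q T Φ)
    (v : R → HW κ n) (hv : Φ v ≠ 0) :
    (fun s => ∑ r ∈ T, xi (pl n (q r)) s) ∈ relS n P F α := by
  rw [mem_relS]
  refine ⟨fun i σ => ?_, fun X hX _ => ?_⟩
  · rw [← Finset.sum_neg_distrib]
    exact Finset.sum_congr rfl fun r _ => Pool.Agent.Helper84.xi_odd (pl n (q r)) i σ
  · have h3 : ∑ s, (((∑ r ∈ T, xi (pl n (q r)) s : ℚ)) : ℂ) * ch P F s X =
        ∑ r ∈ T, ∑ s, ((xi (pl n (q r)) s : ℚ) : ℂ) * ch P F s X := by
      rw [Finset.sum_comm]
      refine Finset.sum_congr rfl fun s _ => ?_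
      push_cast
      rw [Finset.sum_mul]
    rw [h3]
    have h4 : ∀ r, ∑ s, ((xi (pl n (q r)) s : ℚ) : ℂ) * ch P F s X =
        2 * ch P F (pl n (q r)) X - X.2 := by
      intro r
      rw [sum_xi']
      have e1 := ch_conj n P F α hr (pl n (q r)) X hX
      linear_combination -e1
    rw [Finset.sum_congr rfl fun r _ => h4 r, Finset.sum_sub_distrib, ← Finset.mul_sum,
      weight_sum n P F α hk h v hv X hX, Finset.sum_const, nsmul_eq_mul, sub_self]

open Classical in
/-- conjugate places occur equally often -/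
lemma count_eq (hr : ∀ i, 0 < r i) (hk : IsKilling ℂ (LL n P F α))
    (h : SF (symG n P α) (EE n P F) q T Φ)
    (v : R → HW κ n) (hv : Φ v ≠ 0) (t : Emb K)
    (hz : ∀ u ∈ relS n P F α, u t = 0) :
    (T.filter fun r => pl n (q r) = t).card = (T.filter fun r => pl n (q r) = conjT t).card := by
  classical
  have h1 := hz _ (rel_mem n P F α hr hk h v hv)
  have h2 : ∀ r, xi (pl n (q r)) t = (if pl n (q r) = t then 1 else 0) -
      (if pl n (q r) = conjT t then 1 else 0) := by
    intro r
    have h3 : (conjT (pl n (q r)) = t) ↔ (pl n (q r) = conjT t) :=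
      ⟨fun h => by rw [← h, conjT_conjT], fun h => by rw [h, conjT_conjT]⟩
    rw [xi_def]
    simp only [h3]
  rw [Finset.sum_congr rfl fun r _ => h2 r, Finset.sum_sub_distrib, Finset.sum_boole,
    Finset.sum_boole, sub_eq_zero] at h1
  exact_mod_cast h1

/-- the pairing of two conjugate places of a factor -/
noncomputable def bf (i : I) (m m' : Fin (n i)) (σ : K i →+* ℂ) :
    HW κ n →ₗ[ℂ] HW κ n →ₗ[ℂ] ℂ :=
  (P i).ψ.compl₁₂ (proj (F i).ρ σ ∘ₗ prL n i m)
    (proj (F i).ρ (ComplexEmbedding.conjugate σ) ∘ₗ prL n i m')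

lemma bf_apply (i : I) (m m' : Fin (n i)) (σ : K i →+* ℂ) (u w : HW κ n) :
    bf n P F i m m' σ u w = (P i).ψ (proj (F i).ρ σ (u i m))
      (proj (F i).ρ (ComplexEmbedding.conjugate σ) (w i m')) := rfl

lemma bf_mem (i : I) (m m' : Fin (n i)) (σ : K i →+* ℂ) : bf n P F i m m' σ ∈ invB n P α := by
  intro X hX u w
  rw [bf_apply, bf_apply, bf_apply, lift_apply, lift_apply, ← commP n P F α hX,
    ← commP n P F α hX]
  exact hX.pol i _ _

lemma PS_two {r0 s0 : R} (hne : r0 ≠ s0) (β : HW κ n →ₗ[ℂ] HW κ n →ₗ[ℂ] ℂ)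
    (hβ : β ∈ invB n P α) (c : ℂ) :
    (fun v : R → HW κ n => c * β (v r0) (v s0)) ∈ PS (invF (symG n P α)) {r0, s0} := by
  rw [invF_symG]
  exact Submodule.smul_mem _ c (PS_pair β hβ r0 s0 hne)

lemma piece_two {r0 s0 : R} (hne : r0 ≠ s0) (x v : R → HW κ n) :
    (({r0, s0} : Finset R).piecewise x v) =
      Function.update (Function.update v r0 (x r0)) s0 (x s0) := by
  funext t
  by_cases h1 : t = s0
  · subst h1
    rw [Finset.piecewise_eq_of_mem _ _ _ (by simp), Function.update_self]
  · rw [Function.update_of_ne h1]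
    by_cases h2 : t = r0
    · subst h2
      rw [Finset.piecewise_eq_of_mem _ _ _ (by simp), Function.update_self]
    · rw [Function.update_of_ne h2, Finset.piecewise_eq_of_notMem _ _ _ (by simp [h1, h2])]

/-- a function of two slots which factors through an invariant pairing can be removed -/
lemma peel_step (h : SF (symG n P α) (EE n P F) q T Φ) {r0 s0 : R} (hr0 : r0 ∈ T) (hs0 : s0 ∈ T)
    (hne : r0 ≠ s0) (β : HW κ n →ₗ[ℂ] HW κ n →ₗ[ℂ] ℂ) (hβ : β ∈ invB n P α)
    (x y : HW κ n) (hxy : β x y ≠ 0)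
    (hΦ : ∀ v, β x y * Φ v = β (v r0) (v s0) * Φ (Function.update (Function.update v r0 x) s0 y))
    (ih : ∀ Ψ : (R → HW κ n) → ℂ, SF (symG n P α) (EE n P F) q (T \ {r0, s0}) Ψ →
      Ψ ∈ PS (invB n P α) (T \ {r0, s0})) : Φ ∈ PS (invB n P α) T := by
  have hS : ({r0, s0} : Finset R) ⊆ T := by
    intro t ht
    rw [Finset.mem_insert, Finset.mem_singleton] at ht
    rcases ht with rfl | rfl
    · exact hr0
    · exact hs0
  let z : R → HW κ n := fun t => if t = r0 then x else y
  have hz1 : z r0 = x := if_pos rfl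
  have hz2 : z s0 = y := if_neg (Ne.symm hne)
  have hg := PS_two n P α hne β hβ (β x y)⁻¹
  have hp : ∀ v : R → HW κ n, (({r0, s0} : Finset R).piecewise z v) =
      Function.update (Function.update v r0 x) s0 y := by
    intro v
    rw [piece_two n hne, hz1, hz2]
  have hΦ' : ∀ v, Φ v = ((β x y)⁻¹ * β (v r0) (v s0)) * Φ (({r0, s0} : Finset R).piecewise z v) := by
    intro v
    rw [hp, mul_assoc, ← hΦ v, ← mul_assoc, inv_mul_cancel₀ hxy, one_mul]
  have h1 := h.factor {r0, s0} hS z _ hg (fun v => by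
    rw [hp, Function.update_of_ne hne, Function.update_self, Function.update_self,
      inv_mul_cancel₀ hxy]) hΦ'
  have h2 := ih _ h1
  rw [← invF_symG] at h2 ⊢
  exact SF.mem_of_factor {r0, s0} hS z _ hg hΦ' h2

end slots

end family

end Pool.Agent.Helper24
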