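import Pool.Agent.Helper24.PT.PMain
import Pool.Agent.Helper8.TPrime

/-!
The Grothendieck period conjecture, in all degrees, for products of an abelian threefold whose
endomorphism algebra is an imaginary quadratic field, pairwise not isogenous abelian varieties whose
endomorphism algebras are totally real fields of degree equal to the dimension, and abelian
varieties with complex multiplication.
-/

namespace Pool.Agent.Results.MP_bf54cf_ag.PicardThreefolds

open Pool.Agent.GPC

theorem result {I : Type} [Fintype I] (A : I → AbVar) (n : I → ℕ) (K : I → Type)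
    [∀ i, Field (K i)] [∀ i, NumberField (K i)] (p : I) (S T : Finset I)
    (hI : ∀ i, i = p ∨ i ∈ S ∨ i ∈ T) (hp : IsPicardType (A p) (K p)) (hnp : n p = 1)
    (hS : ∀ i ∈ S, IsFullRMType (A i) (K i)) (hnS : ∀ i ∈ S, n i = 1) (hSS : HomZero A S)
    (hT : ∀ i ∈ T, IsCMType (A i) (K i)) (hCM : OddMultiplicityFree K) (k : ℕ)
    (α : Form A n (2 * k)) : IsGrothendieck A n k α ↔ IsDivisorial A n k α :=
  Pool.Agent.Helper24.main_P A n K
    (fun i l hl hl0 => (A i).periods_not_proportional l hl hl0) p S T hI hp hnp hS hnS hSS hT hCM
    k α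

end Pool.Agent.Results.MP_bf54cf_ag.PicardThreefolds
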