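import Pool.Agent.Helper24.PT.UPeel

/-!
Slot functions at the two places of a factor of dimension three over an imaginary quadratic field.
-/

namespace Pool.Agent.Helper24

open Module NumberField LieAlgebra Pool.Agent.Helper7

attribute [local instance 100] LieRing.ofAssociativeRing

open Pool.Agent.GPC (Emb IsOdd IsOddModule translate)
open Pool.Agent.Helper8 (SF SF0 PS PS.mul symG invF invF_symG SF.toSF0 SF.factor SF.mem_of_factor
  Symp ML2 Inv2 ML4 Inv4 exists_linear SF0.sum SF0.eq_zero_of_eq wsq)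

set_option linter.unusedSectionVars false

section family

variable {I : Type} [Fintype I] [DecidableEq I] (n : I → ℕ)
  {κ : I → Type} [∀ i, Fintype (κ i)] [∀ i, DecidableEq (κ i)] {ϖ : ℂ}
  (P : ∀ i, PData (κ i) ϖ)
  {K : I → Type} [∀ i, Field (K i)] [∀ i, NumberField (K i)] {r : I → ℕ}
  (F : ∀ i, UF (P i) (K i) (r i))
  {k : ℕ} (α : MultilinearMap ℂ (fun _ : Fin (2 * k) => HW κ n) ℂ)
  {R : Type*} [DecidableEq R] {q : R → At n K} {T : Finset R} {Φ : (R → HW κ n) → ℂ}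

/-- more equal slots than the dimension -/
theorem alt_many (h : SF0 (EE n P F) q T Φ) {i : I} {m : Fin (n i)} {σ : K i →+* ℂ}
    (S : Finset R) (hS : S ⊆ T) (hq : ∀ t ∈ S, q t = ⟨i, m, σ⟩) (hc : r i < S.card)
    (v : R → HW κ n) : Φ v = 0 := by
  have key : ∀ S' : Finset R, S' ⊆ S → ∀ v : R → HW κ n,
      (∀ t ∈ S, t ∉ S' → ∃ j, v t = slotL n i m ((F i).e σ j)) → Φ v = 0 := by
    intro S'
    induction S' using Finset.induction_on with
    | empty =>
      intro _ v hv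
      have h0 : 0 < r i := by
        by_contra h0
        have h0' : r i = 0 := by omega
        obtain ⟨t, ht⟩ : S.Nonempty := Finset.card_pos.mp (by omega)
        obtain ⟨j, -⟩ := hv t ht (Finset.notMem_empty t)
        exact absurd j.2 (by omega)
      have hv' : ∀ t, ∃ j : Fin (r i), t ∈ S → v t = slotL n i m ((F i).e σ j) := by
        intro t
        by_cases ht : t ∈ S
        · obtain ⟨j, hj⟩ := hv t ht (Finset.notMem_empty t)
          exact ⟨j, fun _ => hj⟩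
        · exact ⟨⟨0, h0⟩, fun h => absurd h ht⟩
      choose j hj using hv'
      obtain ⟨x, hx, y, hy, hxy, hjj⟩ := Finset.exists_ne_map_eq_of_card_lt_of_maps_to
        (s := S) (t := (Finset.univ : Finset (Fin (r i)))) (by simpa using hc) (f := j)
        (fun a _ => Finset.mem_coe.mpr (Finset.mem_univ _))
      exact h.eq_zero_of_eq v x y (hS hx) (hS hy) hxy ((hq x hx).trans (hq y hy).symm)
        (by rw [hj x hx, hj y hy, hjj])
    | insert b S' hb ih =>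
      intro hS' v hv
      rw [Finset.insert_subset_iff] at hS'
      rw [slot_expand n P F h (hS hS'.1) (hq b hS'.1) v]
      refine Finset.sum_eq_zero fun j _ => ?_
      rw [ih hS'.2 _ (fun t ht htS => ?_), mul_zero]
      by_cases htb : t = b
      · subst htb
        exact ⟨j, Function.update_self _ _ _⟩
      · rw [Function.update_of_ne htb]
        exact hv t ht (by rw [Finset.mem_insert, not_or]; exact ⟨htb, htS⟩)
  exact key S (Finset.Subset.refl S) v fun t ht ht' => absurd ht ht'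

/-- invariance on vectors in the slots -/
lemma inv_slot (hk : IsKilling ℂ (LL n P F α)) (h : SF (symG n P α) (EE n P F) q T Φ)
    (a : LL n P F α) (w u : R → HW κ n)
    (hu : ∀ t ∈ T, ∃ x : Vs n P F α (pl n (q t)), w t = inS n P F α (q t) x ∧
      u t = inS n P F α (q t) ⁅a, x⁆) :
    ∑ t ∈ T, Φ (Function.update w t (u t)) = 0 := by
  obtain ⟨X, hX, haX, h2, h3⟩ := perfect_lift n P F α hk a
  have e := h.inv _ ⟨X, hX, rfl⟩ w
  simp only [h2, mul_zero, zero_mul] at e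
  have e1 := (mul_eq_zero.mp e).resolve_left two_ne_zero
  rw [← e1]
  refine Finset.sum_congr rfl fun t ht => ?_
  obtain ⟨x, hx1, hx2⟩ := hu t ht
  rw [hx2, hx1, lift_in n P F α X hX, h3, zero_smul, add_zero, haX]

/-- a slot in terms of its component -/
lemma lab_eq (h : SF0 (EE n P F) q T Φ) (v w : R → HW κ n)
    (hw : ∀ t ∈ T, w t = inS n P F α (q t) (outS n P F α (q t) (v t))) : Φ v = Φ w := by
  rw [← lab_all n P F h v]
  refine h.dep _ _ fun t ht => ?_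
  rw [hw t ht, EE_eq n P F α]

/-- interchange of two slots -/
lemma swap_slot (h : SF0 (EE n P F) q T Φ) {t1 t2 : R} (ht1 : t1 ∈ T) (ht2 : t2 ∈ T)
    (hne : t1 ≠ t2) (hq : q t1 = q t2) (w w' : R → HW κ n) (h1 : w' t1 = w t2)
    (h2 : w' t2 = w t1) (h3 : ∀ t, t ≠ t1 → t ≠ t2 → w' t = w t) : Φ w' = - Φ w := by
  rw [← h.alt t1 ht1 t2 ht2 hne hq w]
  congr 1
  funext t
  rw [Function.comp_apply]
  by_cases ht : t = t1
  · subst ht; rw [Equiv.swap_apply_left, h1]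
  · by_cases ht' : t = t2
    · subst ht'; rw [Equiv.swap_apply_right, h2]
    · rw [Equiv.swap_apply_of_ne_of_ne ht ht', h3 t ht ht']

lemma upd_eq {R W : Type*} [DecidableEq R] (w w' : R → W) (t0 : R) (u : W) (h0 : w' t0 = u)
    (h : ∀ t, t ≠ t0 → w' t = w t) : Function.update w t0 u = w' := by
  funext t
  by_cases ht : t = t0
  · subst ht; rw [Function.update_self, h0]
  · rw [Function.update_of_ne ht, h t ht]

section two

variable (b1 b2 : At n K) (t1 t2 : R)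

/-- vectors in two slots -/
noncomputable def W2 (x1 : Vs n P F α (pl n b1)) (x2 : Vs n P F α (pl n b2)) (t : R) : HW κ n :=
  if t = t1 then inS n P F α b1 x1 else if t = t2 then inS n P F α b2 x2 else 0

variable {b1 b2 t1 t2} (h12 : t1 ≠ t2)

lemma W2_1 (x1 : Vs n P F α (pl n b1)) (x2 : Vs n P F α (pl n b2)) :
    W2 n P F α b1 b2 t1 t2 x1 x2 t1 = inS n P F α b1 x1 := if_pos rfl

include h12 in
lemma W2_2 (x1 : Vs n P F α (pl n b1)) (x2 : Vs n P F α (pl n b2)) :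
    W2 n P F α b1 b2 t1 t2 x1 x2 t2 = inS n P F α b2 x2 := by
  rw [W2, if_neg h12.symm, if_pos rfl]

lemma W2_o (x1 : Vs n P F α (pl n b1)) (x2 : Vs n P F α (pl n b2)) {t : R} (h1 : t ≠ t1)
    (h2 : t ≠ t2) : W2 n P F α b1 b2 t1 t2 x1 x2 t = 0 := by
  rw [W2, if_neg h1, if_neg h2]

include h12 in
lemma G2_ml (h : SF (symG n P α) (EE n P F) q {t1, t2} Φ) :
    ML2 (fun x1 x2 => Φ (W2 n P F α b1 b2 t1 t2 x1 x2)) := by
  refine ⟨fun x2 => ?_, fun x1 => ?_⟩
  · exact lin_of_slot h.toSF0 (r := t1) (by simp) _ (W2 n P F α b1 b2 t1 t2 0 x2)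
      (inS n P F α b1) (fun x t ht => by simp only [W2, if_neg ht])
      (fun x => W2_1 n P F α x x2)
  · exact lin_of_slot h.toSF0 (r := t2) (by simp) _ (W2 n P F α b1 b2 t1 t2 x1 0)
      (inS n P F α b2) (fun x t ht => by simp only [W2, if_neg ht])
      (fun x => W2_2 n P F α h12 x1 x)

include h12 in
lemma G2_inv (hk : IsKilling ℂ (LL n P F α)) (h : SF (symG n P α) (EE n P F) q {t1, t2} Φ)
    (q1 : q t1 = b1) (q2 : q t2 = b2) :
    Inv2 (LL n P F α) (fun x1 x2 => Φ (W2 n P F α b1 b2 t1 t2 x1 x2)) := by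
  subst q1 q2
  intro a x1 x2
  have e := inv_slot n P F α hk h a (W2 n P F α (q t1) (q t2) t1 t2 x1 x2)
    (W2 n P F α (q t1) (q t2) t1 t2 ⁅a, x1⁆ ⁅a, x2⁆) (by
      intro t ht
      rw [Finset.mem_insert, Finset.mem_singleton] at ht
      rcases ht with rfl | rfl
      · exact ⟨x1, W2_1 n P F α _ _, W2_1 n P F α _ _⟩
      · exact ⟨x2, W2_2 n P F α h12 _ _, W2_2 n P F α h12 _ _⟩)
  rw [Finset.sum_insert (by simpa using h12), Finset.sum_singleton] at e
  rw [← e]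
  refine congrArg₂ (· + ·) (congrArg Φ ?_) (congrArg Φ ?_)
  · exact (upd_eq _ _ _ _ (by rw [W2_1, W2_1]) fun t ht => by simp only [W2, if_neg ht]).symm
  · exact (upd_eq _ _ _ _ (by rw [W2_2 n P F α h12, W2_2 n P F α h12]) fun t ht => by
      simp only [W2, if_neg ht]).symm

include h12 in
lemma G2_eq (h : SF0 (EE n P F) q {t1, t2} Φ) (q1 : q t1 = b1) (q2 : q t2 = b2)
    (v : R → HW κ n) : Φ v = Φ (W2 n P F α b1 b2 t1 t2 (outS n P F α b1 (v t1))
      (outS n P F α b2 (v t2))) := by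
  subst q1 q2
  refine lab_eq n P F α h v _ fun t ht => ?_
  rw [Finset.mem_insert, Finset.mem_singleton] at ht
  rcases ht with rfl | rfl
  · exact W2_1 n P F α _ _
  · exact W2_2 n P F α h12 _ _

end two

section core2

variable {i : I} {m m' : Fin (n i)} {σ τ : K i →+* ℂ}

/-- one slot at each of the two places -/
theorem core11 (hr : ∀ i, 0 < r i) (hk : IsKilling ℂ (LL n P F α))
    (hirr : LieModule.IsIrreducible ℂ (LL n P F α) (Vs n P F α ⟨i, σ⟩))
    (hτ : τ = ComplexEmbedding.conjugate σ)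
    {r1 s1 : R} (h11 : r1 ≠ s1)
    (h : SF (symG n P α) (EE n P F) q {r1, s1} Φ)
    (qr1 : q r1 = ⟨i, m, σ⟩) (qs1 : q s1 = ⟨i, m', τ⟩) : Φ ∈ PS (invB n P α) {r1, s1} := by
  subst hτ
  obtain ⟨c, hc⟩ := (bp_pair n P F α hr i σ).schur (G2_ml n P F α h11 h)
    (G2_inv n P F α h11 hk h qr1 qs1)
  have h1 : Φ = c • (fun v : R → HW κ n => bf n P F i m m' σ (v r1) (v s1)) := by
    funext v
    rw [G2_eq n P F α h11 h.toSF0 qr1 qs1 v, Pi.smul_apply, smul_eq_mul, bf_eq_bp n P F α]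
    exact hc _ _
  rw [h1]
  exact Submodule.smul_mem _ c (PS_pair _ (bf_mem n P F α i m m' σ) r1 s1 h11)

/-- two slots at the same place -/
theorem core20 (hk : IsKilling ℂ (LL n P F α))
    (hirr : LieModule.IsIrreducible ℂ (LL n P F α) (Vs n P F α ⟨i, σ⟩)) (hri : r i = 3)
    {r1 r2 : R} (h12 : r1 ≠ r2)
    (h : SF (symG n P α) (EE n P F) q {r1, r2} Φ)
    (qr1 : q r1 = ⟨i, m, σ⟩) (qr2 : q r2 = ⟨i, m, σ⟩) (v : R → HW κ n) : Φ v = 0 := by
  rw [G2_eq n P F α h12 h.toSF0 qr1 qr2 v]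
  refine inv20 (L := LL n P F α) ((finrank_Vs n P F α ⟨i, σ⟩).trans hri)
    (G2_ml n P F α h12 h) (G2_inv n P F α h12 hk h qr1 qr2) (fun x y => ?_) _ _
  exact swap_slot n P F h.toSF0 (by simp) (by simp) h12 (qr1.trans qr2.symm) _ _
    (by rw [W2_1, W2_2 n P F α h12]) (by rw [W2_1, W2_2 n P F α h12])
    (fun t e1 e2 => by rw [W2_o n P F α _ _ e1 e2, W2_o n P F α _ _ e1 e2])

end core2

section four

variable (b1 b2 b3 b4 : At n K) (t1 t2 t3 t4 : R)

/-- vectors in four slots -/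
noncomputable def W4 (x1 : Vs n P F α (pl n b1)) (x2 : Vs n P F α (pl n b2))
    (x3 : Vs n P F α (pl n b3)) (x4 : Vs n P F α (pl n b4)) (t : R) : HW κ n :=
  if t = t1 then inS n P F α b1 x1 else if t = t2 then inS n P F α b2 x2 else
  if t = t3 then inS n P F α b3 x3 else if t = t4 then inS n P F α b4 x4 else 0

variable {b1 b2 b3 b4 t1 t2 t3 t4} (h12 : t1 ≠ t2) (h13 : t1 ≠ t3) (h14 : t1 ≠ t4)
  (h23 : t2 ≠ t3) (h24 : t2 ≠ t4) (h34 : t3 ≠ t4) (x1 : Vs n P F α (pl n b1))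
  (x2 : Vs n P F α (pl n b2)) (x3 : Vs n P F α (pl n b3)) (x4 : Vs n P F α (pl n b4))

lemma W4_1 : W4 n P F α b1 b2 b3 b4 t1 t2 t3 t4 x1 x2 x3 x4 t1 = inS n P F α b1 x1 := if_pos rfl

include h12 in
lemma W4_2 : W4 n P F α b1 b2 b3 b4 t1 t2 t3 t4 x1 x2 x3 x4 t2 = inS n P F α b2 x2 := by
  rw [W4, if_neg h12.symm, if_pos rfl]

include h13 h23 in
lemma W4_3 : W4 n P F α b1 b2 b3 b4 t1 t2 t3 t4 x1 x2 x3 x4 t3 = inS n P F α b3 x3 := by
  rw [W4, if_neg h13.symm, if_neg h23.symm, if_pos rfl]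

include h14 h24 h34 in
lemma W4_4 : W4 n P F α b1 b2 b3 b4 t1 t2 t3 t4 x1 x2 x3 x4 t4 = inS n P F α b4 x4 := by
  rw [W4, if_neg h14.symm, if_neg h24.symm, if_neg h34.symm, if_pos rfl]

include h12 h13 h14 h23 h24 h34

lemma G4_ml (h : SF (symG n P α) (EE n P F) q {t1, t2, t3, t4} Φ) :
    ML4 (fun x1 x2 x3 x4 => Φ (W4 n P F α b1 b2 b3 b4 t1 t2 t3 t4 x1 x2 x3 x4)) := by
  refine ⟨fun x2 x3 x4 => ?_, fun x1 x3 x4 => ?_, fun x1 x2 x4 => ?_, fun x1 x2 x3 => ?_⟩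
  · exact lin_of_slot h.toSF0 (r := t1) (by simp) _
      (W4 n P F α b1 b2 b3 b4 t1 t2 t3 t4 0 x2 x3 x4)
      (inS n P F α b1) (fun x t ht => by simp only [W4, if_neg ht])
      (fun x => W4_1 n P F α x x2 x3 x4)
  · exact lin_of_slot h.toSF0 (r := t2) (by simp) _
      (W4 n P F α b1 b2 b3 b4 t1 t2 t3 t4 x1 0 x3 x4)
      (inS n P F α b2) (fun x t ht => by simp only [W4, if_neg ht])
      (fun x => W4_2 n P F α h12 x1 x x3 x4)
  · exact lin_of_slot h.toSF0 (r := t3) (by simp) _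
      (W4 n P F α b1 b2 b3 b4 t1 t2 t3 t4 x1 x2 0 x4)
      (inS n P F α b3) (fun x t ht => by simp only [W4, if_neg ht])
      (fun x => W4_3 n P F α h13 h23 x1 x2 x x4)
  · exact lin_of_slot h.toSF0 (r := t4) (by simp) _
      (W4 n P F α b1 b2 b3 b4 t1 t2 t3 t4 x1 x2 x3 0)
      (inS n P F α b4) (fun x t ht => by simp only [W4, if_neg ht])
      (fun x => W4_4 n P F α h14 h24 h34 x1 x2 x3 x)

lemma G4_inv (hk : IsKilling ℂ (LL n P F α))
    (h : SF (symG n P α) (EE n P F) q {t1, t2, t3, t4} Φ)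
    (q1 : q t1 = b1) (q2 : q t2 = b2) (q3 : q t3 = b3) (q4 : q t4 = b4) :
    Inv4 (LL n P F α)
      (fun x1 x2 x3 x4 => Φ (W4 n P F α b1 b2 b3 b4 t1 t2 t3 t4 x1 x2 x3 x4)) := by
  subst q1 q2 q3 q4
  intro a x1 x2 x3 x4
  have e := inv_slot n P F α hk h a
    (W4 n P F α (q t1) (q t2) (q t3) (q t4) t1 t2 t3 t4 x1 x2 x3 x4)
    (W4 n P F α (q t1) (q t2) (q t3) (q t4) t1 t2 t3 t4 ⁅a, x1⁆ ⁅a, x2⁆ ⁅a, x3⁆ ⁅a, x4⁆) (by
      intro t ht
      rw [Finset.mem_insert, Finset.mem_insert, Finset.mem_insert, Finset.mem_singleton] at ht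
      rcases ht with rfl | rfl | rfl | rfl
      · exact ⟨x1, W4_1 n P F α _ _ _ _, W4_1 n P F α _ _ _ _⟩
      · exact ⟨x2, W4_2 n P F α h12 _ _ _ _, W4_2 n P F α h12 _ _ _ _⟩
      · exact ⟨x3, W4_3 n P F α h13 h23 _ _ _ _, W4_3 n P F α h13 h23 _ _ _ _⟩
      · exact ⟨x4, W4_4 n P F α h14 h24 h34 _ _ _ _, W4_4 n P F α h14 h24 h34 _ _ _ _⟩)
  rw [Finset.sum_insert (by simp [h12, h13, h14]), Finset.sum_insert (by simp [h23, h24]),
    Finset.sum_insert (by simpa using h34), Finset.sum_singleton, ← add_assoc, ← add_assoc] at e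
  rw [← e]
  refine congrArg₂ (· + ·) (congrArg₂ (· + ·) (congrArg₂ (· + ·) (congrArg Φ ?_)
    (congrArg Φ ?_)) (congrArg Φ ?_)) (congrArg Φ ?_)
  · exact (upd_eq _ _ _ _ (by rw [W4_1, W4_1]) fun t ht => by simp only [W4, if_neg ht]).symm
  · exact (upd_eq _ _ _ _ (by rw [W4_2 n P F α h12, W4_2 n P F α h12]) fun t ht => by
      simp only [W4, if_neg ht]).symm
  · exact (upd_eq _ _ _ _ (by rw [W4_3 n P F α h13 h23, W4_3 n P F α h13 h23]) fun t ht => by
      simp only [W4, if_neg ht]).symm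
  · exact (upd_eq _ _ _ _ (by rw [W4_4 n P F α h14 h24 h34, W4_4 n P F α h14 h24 h34])
      fun t ht => by simp only [W4, if_neg ht]).symm

lemma G4_eq (h : SF0 (EE n P F) q {t1, t2, t3, t4} Φ)
    (q1 : q t1 = b1) (q2 : q t2 = b2) (q3 : q t3 = b3) (q4 : q t4 = b4)
    (v : R → HW κ n) : Φ v = Φ (W4 n P F α b1 b2 b3 b4 t1 t2 t3 t4 (outS n P F α b1 (v t1))
      (outS n P F α b2 (v t2)) (outS n P F α b3 (v t3)) (outS n P F α b4 (v t4))) := by
  subst q1 q2 q3 q4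
  refine lab_eq n P F α h v _ fun t ht => ?_
  rw [Finset.mem_insert, Finset.mem_insert, Finset.mem_insert, Finset.mem_singleton] at ht
  rcases ht with rfl | rfl | rfl | rfl
  · exact W4_1 n P F α _ _ _ _
  · exact W4_2 n P F α h12 _ _ _ _
  · exact W4_3 n P F α h13 h23 _ _ _ _
  · exact W4_4 n P F α h14 h24 h34 _ _ _ _

end four

section core4

variable {i : I} {m m' : Fin (n i)} {σ τ : K i →+* ℂ} {t1 t2 t3 t4 : R}
  (h12 : t1 ≠ t2) (h13 : t1 ≠ t3) (h14 : t1 ≠ t4) (h23 : t2 ≠ t3) (h24 : t2 ≠ t4) (h34 : t3 ≠ t4)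

include h12 h13 h14 h23 h24 h34

lemma PS_four (β β' : HW κ n →ₗ[ℂ] HW κ n →ₗ[ℂ] ℂ) (hβ : β ∈ invB n P α)
    (hβ' : β' ∈ invB n P α) :
    (fun v : R → HW κ n => β (v t1) (v t2) * β' (v t3) (v t4)) ∈
      PS (invB n P α) {t1, t2, t3, t4} :=
  PS_cons (PS_pair β' hβ' t3 t4 h34) t1 t2 β hβ (by simp [h13, h14]) (by simp [h23, h24]) h12

/-- two slots at each of the two places -/
theorem core22 (hr : ∀ i, 0 < r i) (hk : IsKilling ℂ (LL n P F α))
    (hirr : LieModule.IsIrreducible ℂ (LL n P F α) (Vs n P F α ⟨i, σ⟩)) (hri : r i = 3)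
    (hτ : τ = ComplexEmbedding.conjugate σ)
    (h : SF (symG n P α) (EE n P F) q {t1, t2, t3, t4} Φ)
    (q1 : q t1 = ⟨i, m, σ⟩) (q2 : q t2 = ⟨i, m, σ⟩) (q3 : q t3 = ⟨i, m', τ⟩)
    (q4 : q t4 = ⟨i, m', τ⟩) : Φ ∈ PS (invB n P α) {t1, t2, t3, t4} := by
  subst hτ
  obtain ⟨c, hc⟩ := (bp_pair n P F α hr i σ).inv22 ((finrank_Vs n P F α ⟨i, σ⟩).trans hri)
    (G4_ml n P F α h12 h13 h14 h23 h24 h34 h)
    (G4_inv n P F α h12 h13 h14 h23 h24 h34 hk h q1 q2 q3 q4)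
    (fun x y z w => swap_slot n P F h.toSF0 (by simp) (by simp) h12 (q1.trans q2.symm) _ _
      (by rw [W4_1, W4_2 n P F α h12]) (by rw [W4_1, W4_2 n P F α h12])
      (fun t e1 e2 => by simp only [W4, if_neg e1, if_neg e2]))
    (fun x y z w => swap_slot n P F h.toSF0 (by simp) (by simp) h34 (q3.trans q4.symm) _ _
      (by rw [W4_3 n P F α h13 h23, W4_4 n P F α h14 h24 h34])
      (by rw [W4_3 n P F α h13 h23, W4_4 n P F α h14 h24 h34])
      (fun t e1 e2 => by simp only [W4, if_neg e1, if_neg e2]))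
  have h1 : Φ = c • ((fun v : R → HW κ n => bf n P F i m m' σ (v t1) (v t3) *
      bf n P F i m m' σ (v t2) (v t4)) - (fun v : R → HW κ n => bf n P F i m m' σ (v t1) (v t4) *
      bf n P F i m m' σ (v t2) (v t3))) := by
    funext v
    rw [G4_eq n P F α h12 h13 h14 h23 h24 h34 h.toSF0 q1 q2 q3 q4 v, Pi.smul_apply,
      Pi.sub_apply, smul_eq_mul, bf_eq_bp n P F α, bf_eq_bp n P F α, bf_eq_bp n P F α,
      bf_eq_bp n P F α]
    exact hc _ _ _ _
  rw [h1]
  have s1 : ({t1, t3, t2, t4} : Finset R) = {t1, t2, t3, t4} := by ext t; simp; tauto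
  have s2 : ({t1, t4, t2, t3} : Finset R) = {t1, t2, t3, t4} := by ext t; simp; tauto
  refine Submodule.smul_mem _ c (Submodule.sub_mem _ ?_ ?_)
  · rw [← s1]
    exact PS_four n P α h13 h12 h14 h23.symm h34 h24 _ _ (bf_mem n P F α i m m' σ)
      (bf_mem n P F α i m m' σ)
  · rw [← s2]
    exact PS_four n P α h14 h12 h13 h24.symm h34.symm h23 _ _ (bf_mem n P F α i m m' σ)
      (bf_mem n P F α i m m' σ)

/-- three slots at one place and one at the conjugate place -/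
theorem core31 (hr : ∀ i, 0 < r i) (hk : IsKilling ℂ (LL n P F α))
    (hirr : LieModule.IsIrreducible ℂ (LL n P F α) (Vs n P F α ⟨i, σ⟩)) (hri : r i = 3)
    (hτ : τ = ComplexEmbedding.conjugate σ)
    (h : SF (symG n P α) (EE n P F) q {t1, t2, t3, t4} Φ)
    (q1 : q t1 = ⟨i, m, σ⟩) (q2 : q t2 = ⟨i, m, σ⟩) (q3 : q t3 = ⟨i, m, σ⟩)
    (q4 : q t4 = ⟨i, m', τ⟩) (v : R → HW κ n) : Φ v = 0 := by
  subst hτ
  rw [G4_eq n P F α h12 h13 h14 h23 h24 h34 h.toSF0 q1 q2 q3 q4 v]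
  exact (bp_pair n P F α hr i σ).inv31 ((finrank_Vs n P F α ⟨i, σ⟩).trans hri)
    (fun a => trace_Vs n P F α ⟨i, σ⟩ (hr i) a)
    (G4_ml n P F α h12 h13 h14 h23 h24 h34 h)
    (G4_inv n P F α h12 h13 h14 h23 h24 h34 hk h q1 q2 q3 q4)
    (fun w => ⟨fun x y z => swap_slot n P F h.toSF0 (by simp) (by simp) h12 (q1.trans q2.symm) _ _
      (by rw [W4_1, W4_2 n P F α h12]) (by rw [W4_1, W4_2 n P F α h12])
      (fun t e1 e2 => by simp only [W4, if_neg e1, if_neg e2]),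
      fun x y z => swap_slot n P F h.toSF0 (by simp) (by simp) h23 (q2.trans q3.symm) _ _
      (by rw [W4_2 n P F α h12, W4_3 n P F α h13 h23])
      (by rw [W4_2 n P F α h12, W4_3 n P F α h13 h23])
      (fun t e1 e2 => by simp only [W4, if_neg e1, if_neg e2])⟩) _ _ _ _

end core4

end family

end Pool.Agent.Helper24
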