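import Pool.Agent.Helper24.PT.UCore

/-!
Three slots at each of the two conjugate places.
-/

namespace Pool.Agent.Helper24

open Module NumberField LieAlgebra Pool.Agent.Helper7

attribute [local instance 100] LieRing.ofAssociativeRing

open Pool.Agent.GPC (Emb IsOdd IsOddModule translate)
open Pool.Agent.Helper8 (SF SF0 PS PS.mul symG invF invF_symG SF.toSF0 SF.factor SF.mem_of_factor
  Symp ML2 Inv2 ML4 Inv4 exists_linear SF0.sum SF0.eq_zero_of_eq wsq)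

set_option linter.unusedSectionVars false

section family

variable {I : Type} [Fintype I] [DecidableEq I] (n : I → ℕ)
  {κ : I → Type} [∀ i, Fintype (κ i)] [∀ i, DecidableEq (κ i)] {ϖ : ℂ}
  (P : ∀ i, PData (κ i) ϖ)
  {K : I → Type} [∀ i, Field (K i)] [∀ i, NumberField (K i)] {r : I → ℕ}
  (F : ∀ i, UF (P i) (K i) (r i))
  {k : ℕ} (α : MultilinearMap ℂ (fun _ : Fin (2 * k) => HW κ n) ℂ)
  {R : Type*} [DecidableEq R] {q : R → At n K} {T : Finset R} {Φ : (R → HW κ n) → ℂ}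

section six

variable (a a' : At n K) (t1 t2 t3 s1 s2 s3 : R)

/-- vectors in six slots -/
noncomputable def W6 (x1 x2 x3 : Vs n P F α (pl n a)) (y1 y2 y3 : Vs n P F α (pl n a'))
    (t : R) : HW κ n :=
  if t = t1 then inS n P F α a x1 else if t = t2 then inS n P F α a x2 else
  if t = t3 then inS n P F α a x3 else if t = s1 then inS n P F α a' y1 else
  if t = s2 then inS n P F α a' y2 else if t = s3 then inS n P F α a' y3 else 0

variable {a a' t1 t2 t3 s1 s2 s3} (h12 : t1 ≠ t2) (h13 : t1 ≠ t3) (h23 : t2 ≠ t3)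
  (g11 : t1 ≠ s1) (g12 : t1 ≠ s2) (g13 : t1 ≠ s3)
  (g21 : t2 ≠ s1) (g22 : t2 ≠ s2) (g23 : t2 ≠ s3)
  (g31 : t3 ≠ s1) (g32 : t3 ≠ s2) (g33 : t3 ≠ s3)
  (k12 : s1 ≠ s2) (k13 : s1 ≠ s3) (k23 : s2 ≠ s3)
  (x1 x2 x3 : Vs n P F α (pl n a)) (y1 y2 y3 : Vs n P F α (pl n a'))

lemma W6_1 : W6 n P F α a a' t1 t2 t3 s1 s2 s3 x1 x2 x3 y1 y2 y3 t1 = inS n P F α a x1 :=
  if_pos rfl

include h12 in
lemma W6_2 : W6 n P F α a a' t1 t2 t3 s1 s2 s3 x1 x2 x3 y1 y2 y3 t2 = inS n P F α a x2 := by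
  rw [W6, if_neg h12.symm, if_pos rfl]

include h13 h23 in
lemma W6_3 : W6 n P F α a a' t1 t2 t3 s1 s2 s3 x1 x2 x3 y1 y2 y3 t3 = inS n P F α a x3 := by
  rw [W6, if_neg h13.symm, if_neg h23.symm, if_pos rfl]

include g11 g21 g31 in
lemma W6_4 : W6 n P F α a a' t1 t2 t3 s1 s2 s3 x1 x2 x3 y1 y2 y3 s1 = inS n P F α a' y1 := by
  rw [W6, if_neg g11.symm, if_neg g21.symm, if_neg g31.symm, if_pos rfl]

include g12 g22 g32 k12 in
lemma W6_5 : W6 n P F α a a' t1 t2 t3 s1 s2 s3 x1 x2 x3 y1 y2 y3 s2 = inS n P F α a' y2 := by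
  rw [W6, if_neg g12.symm, if_neg g22.symm, if_neg g32.symm, if_neg k12.symm, if_pos rfl]

include g13 g23 g33 k13 k23 in
lemma W6_6 : W6 n P F α a a' t1 t2 t3 s1 s2 s3 x1 x2 x3 y1 y2 y3 s3 = inS n P F α a' y3 := by
  rw [W6, if_neg g13.symm, if_neg g23.symm, if_neg g33.symm, if_neg k13.symm, if_neg k23.symm,
    if_pos rfl]

include h12 h13 h23 g11 g12 g13 g21 g22 g23 g31 g32 g33 k12 k13 k23

lemma G6_ml (h : SF0 (EE n P F) q {t1, t2, t3, s1, s2, s3} Φ) :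
    ML6 (fun x1 x2 x3 y1 y2 y3 =>
      Φ (W6 n P F α a a' t1 t2 t3 s1 s2 s3 x1 x2 x3 y1 y2 y3)) := by
  refine ⟨fun x2 x3 y1 y2 y3 => ?_, fun x1 x3 y1 y2 y3 => ?_, fun x1 x2 y1 y2 y3 => ?_,
    fun x1 x2 x3 y2 y3 => ?_, fun x1 x2 x3 y1 y3 => ?_, fun x1 x2 x3 y1 y2 => ?_⟩
  · exact lin_of_slot h (r := t1) (by simp) _
      (W6 n P F α a a' t1 t2 t3 s1 s2 s3 0 x2 x3 y1 y2 y3)
      (inS n P F α a) (fun x t ht => by simp only [W6, if_neg ht])
      (fun x => W6_1 n P F α _ _ _ _ _ _)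
  · exact lin_of_slot h (r := t2) (by simp) _
      (W6 n P F α a a' t1 t2 t3 s1 s2 s3 x1 0 x3 y1 y2 y3)
      (inS n P F α a) (fun x t ht => by simp only [W6, if_neg ht])
      (fun x => W6_2 n P F α h12 _ _ _ _ _ _)
  · exact lin_of_slot h (r := t3) (by simp) _
      (W6 n P F α a a' t1 t2 t3 s1 s2 s3 x1 x2 0 y1 y2 y3)
      (inS n P F α a) (fun x t ht => by simp only [W6, if_neg ht])
      (fun x => W6_3 n P F α h13 h23 _ _ _ _ _ _)
  · exact lin_of_slot h (r := s1) (by simp) _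
      (W6 n P F α a a' t1 t2 t3 s1 s2 s3 x1 x2 x3 0 y2 y3)
      (inS n P F α a') (fun x t ht => by simp only [W6, if_neg ht])
      (fun x => W6_4 n P F α g11 g21 g31 _ _ _ _ _ _)
  · exact lin_of_slot h (r := s2) (by simp) _
      (W6 n P F α a a' t1 t2 t3 s1 s2 s3 x1 x2 x3 y1 0 y3)
      (inS n P F α a') (fun x t ht => by simp only [W6, if_neg ht])
      (fun x => W6_5 n P F α g12 g22 g32 k12 _ _ _ _ _ _)
  · exact lin_of_slot h (r := s3) (by simp) _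
      (W6 n P F α a a' t1 t2 t3 s1 s2 s3 x1 x2 x3 y1 y2 0)
      (inS n P F α a') (fun x t ht => by simp only [W6, if_neg ht])
      (fun x => W6_6 n P F α g13 g23 g33 k13 k23 _ _ _ _ _ _)

lemma G6_eq (h : SF0 (EE n P F) q {t1, t2, t3, s1, s2, s3} Φ)
    (q1 : q t1 = a) (q2 : q t2 = a) (q3 : q t3 = a) (q4 : q s1 = a') (q5 : q s2 = a')
    (q6 : q s3 = a') (v : R → HW κ n) : Φ v = Φ (W6 n P F α a a' t1 t2 t3 s1 s2 s3
      (outS n P F α a (v t1)) (outS n P F α a (v t2)) (outS n P F α a (v t3))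
      (outS n P F α a' (v s1)) (outS n P F α a' (v s2)) (outS n P F α a' (v s3))) := by
  refine lab_eq n P F α h v _ fun t ht => ?_
  simp only [Finset.mem_insert, Finset.mem_singleton] at ht
  rcases ht with rfl | rfl | rfl | rfl | rfl | rfl
  · rw [q1]; exact W6_1 n P F α _ _ _ _ _ _
  · rw [q2]; exact W6_2 n P F α h12 _ _ _ _ _ _
  · rw [q3]; exact W6_3 n P F α h13 h23 _ _ _ _ _ _
  · rw [q4]; exact W6_4 n P F α g11 g21 g31 _ _ _ _ _ _
  · rw [q5]; exact W6_5 n P F α g12 g22 g32 k12 _ _ _ _ _ _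
  · rw [q6]; exact W6_6 n P F α g13 g23 g33 k13 k23 _ _ _ _ _ _

lemma PS_six (β : HW κ n →ₗ[ℂ] HW κ n →ₗ[ℂ] ℂ) (hβ : β ∈ invB n P α) :
    (fun v : R → HW κ n => β (v t1) (v s1) * (β (v t2) (v s2) * β (v t3) (v s3))) ∈
      PS (invB n P α) {t1, t2, t3, s1, s2, s3} := by
  have h1 := PS_cons (PS_cons (PS_pair β hβ t3 s3 g33) t2 s2 β hβ (by simp [h23, g23])
    (by simp [g32.symm, k23]) g22) t1 s1 β hβ (by simp [h12, g12, h13, g13])
    (by simp [g21.symm, k12, g31.symm, k13]) g11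
  have e : insert t1 (insert s1 (insert t2 (insert s2 ({t3, s3} : Finset R)))) =
      {t1, t2, t3, s1, s2, s3} := by ext t; simp; tauto
  rw [e] at h1
  exact h1

end six

section core6

variable {i : I} {m m' : Fin (n i)} {σ τ : K i →+* ℂ} {t1 t2 t3 s1 s2 s3 : R}
  (h12 : t1 ≠ t2) (h13 : t1 ≠ t3) (h23 : t2 ≠ t3)
  (g11 : t1 ≠ s1) (g12 : t1 ≠ s2) (g13 : t1 ≠ s3)
  (g21 : t2 ≠ s1) (g22 : t2 ≠ s2) (g23 : t2 ≠ s3)
  (g31 : t3 ≠ s1) (g32 : t3 ≠ s2) (g33 : t3 ≠ s3)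
  (k12 : s1 ≠ s2) (k13 : s1 ≠ s3) (k23 : s2 ≠ s3)

include h12 h13 h23 g11 g12 g13 g21 g22 g23 g31 g32 g33 k12 k13 k23

/-- three slots at each of the two places -/
theorem core33 (hr : ∀ i, 0 < r i) (hri : r i = 3)
    (hτ : τ = ComplexEmbedding.conjugate σ)
    (h : SF0 (EE n P F) q {t1, t2, t3, s1, s2, s3} Φ)
    (q1 : q t1 = ⟨i, m, σ⟩) (q2 : q t2 = ⟨i, m, σ⟩) (q3 : q t3 = ⟨i, m, σ⟩)
    (q4 : q s1 = ⟨i, m', τ⟩) (q5 : q s2 = ⟨i, m', τ⟩) (q6 : q s3 = ⟨i, m', τ⟩) :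
    Φ ∈ PS (invB n P α) {t1, t2, t3, s1, s2, s3} := by
  subst hτ
  have hml := G6_ml n P F α (a := ⟨i, m, σ⟩) (a' := ⟨i, m', ComplexEmbedding.conjugate σ⟩)
    h12 h13 h23 g11 g12 g13 g21 g22 g23 g31 g32 g33 k12 k13 k23 h
  obtain ⟨c, hc⟩ := (bp_pair n P F α hr i σ).inv33 ((finrank_Vs n P F α ⟨i, σ⟩).trans hri)
    hml
    (fun y1 y2 y3 => ⟨fun x y z => swap_slot n P F h (by simp) (by simp) h12
      (q1.trans q2.symm) _ _ (by rw [W6_1, W6_2 n P F α h12]) (by rw [W6_1, W6_2 n P F α h12])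
      (fun t e1 e2 => by simp only [W6, if_neg e1, if_neg e2]),
      fun x y z => swap_slot n P F h (by simp) (by simp) h23 (q2.trans q3.symm) _ _
      (by rw [W6_2 n P F α h12, W6_3 n P F α h13 h23])
      (by rw [W6_2 n P F α h12, W6_3 n P F α h13 h23])
      (fun t e1 e2 => by simp only [W6, if_neg e1, if_neg e2])⟩)
    (fun x1 x2 x3 => ⟨fun x y z => swap_slot n P F h (by simp) (by simp) k12
      (q4.trans q5.symm) _ _
      (by rw [W6_4 n P F α g11 g21 g31, W6_5 n P F α g12 g22 g32 k12])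
      (by rw [W6_4 n P F α g11 g21 g31, W6_5 n P F α g12 g22 g32 k12])
      (fun t e1 e2 => by simp only [W6, if_neg e1, if_neg e2]),
      fun x y z => swap_slot n P F h (by simp) (by simp) k23 (q5.trans q6.symm) _ _
      (by rw [W6_5 n P F α g12 g22 g32 k12, W6_6 n P F α g13 g23 g33 k13 k23])
      (by rw [W6_5 n P F α g12 g22 g32 k12, W6_6 n P F α g13 g23 g33 k13 k23])
      (fun t e1 e2 => by simp only [W6, if_neg e1, if_neg e2])⟩)
  obtain ⟨β, hβ⟩ : ∃ β, β = bf n P F i m m' σ := ⟨_, rfl⟩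
  have hβm : β ∈ invB n P α := by rw [hβ]; exact bf_mem n P F α i m m' σ
  have h1 : Φ = c • (((fun v : R → HW κ n => β (v t1) (v s1) * (β (v t2) (v s2) * β (v t3) (v s3)))
      - (fun v : R → HW κ n => β (v t1) (v s1) * (β (v t2) (v s3) * β (v t3) (v s2)))
      - (fun v : R → HW κ n => β (v t1) (v s2) * (β (v t2) (v s1) * β (v t3) (v s3)))
      + (fun v : R → HW κ n => β (v t1) (v s2) * (β (v t2) (v s3) * β (v t3) (v s1)))
      + (fun v : R → HW κ n => β (v t1) (v s3) * (β (v t2) (v s1) * β (v t3) (v s2)))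
      - (fun v : R → HW κ n => β (v t1) (v s3) * (β (v t2) (v s2) * β (v t3) (v s1))))) := by
    funext v
    rw [G6_eq n P F α h12 h13 h23 g11 g12 g13 g21 g22 g23 g31 g32 g33 k12 k13 k23 h q1 q2 q3 q4
      q5 q6 v, Pi.smul_apply, smul_eq_mul]
    simp only [Pi.sub_apply, Pi.add_apply, hβ, bf_eq_bp n P F α]
    rw [hc, det3]
    ring
  rw [h1]
  have e1 : ({t1, t2, t3, s1, s3, s2} : Finset R) = {t1, t2, t3, s1, s2, s3} := by
    ext t; simp; tauto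
  have e2 : ({t1, t2, t3, s2, s1, s3} : Finset R) = {t1, t2, t3, s1, s2, s3} := by
    ext t; simp; tauto
  have e3 : ({t1, t2, t3, s2, s3, s1} : Finset R) = {t1, t2, t3, s1, s2, s3} := by
    ext t; simp; tauto
  have e4 : ({t1, t2, t3, s3, s1, s2} : Finset R) = {t1, t2, t3, s1, s2, s3} := by
    ext t; simp; tauto
  have e5 : ({t1, t2, t3, s3, s2, s1} : Finset R) = {t1, t2, t3, s1, s2, s3} := by
    ext t; simp; tauto
  refine Submodule.smul_mem _ c (Submodule.sub_mem _ (Submodule.add_mem _ (Submodule.add_mem _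
    (Submodule.sub_mem _ (Submodule.sub_mem _ ?_ ?_) ?_) ?_) ?_) ?_)
  · exact PS_six n P α h12 h13 h23 g11 g12 g13 g21 g22 g23 g31 g32 g33 k12 k13 k23 β hβm
  · rw [← e1]
    exact PS_six n P α h12 h13 h23 g11 g13 g12 g21 g23 g22 g31 g33 g32 k13 k12 k23.symm β hβm
  · rw [← e2]
    exact PS_six n P α h12 h13 h23 g12 g11 g13 g22 g21 g23 g32 g31 g33 k12.symm k23 k13 β hβm
  · rw [← e3]
    exact PS_six n P α h12 h13 h23 g12 g13 g11 g22 g23 g21 g32 g33 g31 k23 k12.symm k13.symm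
      β hβm
  · rw [← e4]
    exact PS_six n P α h12 h13 h23 g13 g11 g12 g23 g21 g22 g33 g31 g32 k13.symm k23.symm k12
      β hβm
  · rw [← e5]
    exact PS_six n P α h12 h13 h23 g13 g12 g11 g23 g22 g21 g33 g32 g31 k23.symm k13.symm
      k12.symm β hβm

end core6

end family

end Pool.Agent.Helper24
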