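import Pool.Agent.Helper24.PT.UTr
import Pool.Agent.Helper7.J1
import Pool.Agent.Helper7.U.UIrred
import Pool.Agent.Helper8.Lie.Semisimple

/-!
The semisimple Lie algebra attached to a family of factors with fields of endomorphisms.
-/

namespace Pool.Agent.Helper24

open Module NumberField LieAlgebra Pool.Agent.Helper7

attribute [local instance 100] LieRing.ofAssociativeRing

open Pool.Agent.Helper8 (trivialRadical_of_family perfect_of_killing)

set_option linter.unusedSectionVars false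

section family

variable {I : Type} [Fintype I] [DecidableEq I] (n : I → ℕ)
  {κ : I → Type} [∀ i, Fintype (κ i)] [∀ i, DecidableEq (κ i)] {ϖ : ℂ}
  (P : ∀ i, PData (κ i) ϖ)
  {K : I → Type} [∀ i, Field (K i)] [∀ i, NumberField (K i)] {r : I → ℕ}
  (F : ∀ i, UF (P i) (K i) (r i))
  {k : ℕ} (α : MultilinearMap ℂ (fun _ : Fin (2 * k) => HW κ n) ℂ)

lemma commK {X : GG κ} (hX : IsInv n P α X) (i : I) : (F i).Comm (X.1 i) :=
  fun x v => hX.comm i i _ ((F i).hρ x) v

lemma commP {X : GG κ} (hX : IsInv n P α X) (i : I) (σ : K i →+* ℂ) (v : κ i → ℂ) :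
    X.1 i (proj (F i).ρ σ v) = proj (F i).ρ σ (X.1 i v) :=
  comm_proj _ _ (fun x v => commK n P F α hX i x v) σ v

/-- the weights of the family -/
noncomputable def ch (s : Σ i, (K i →+* ℂ)) (X : GG κ) : ℂ := tw (F s.1) s.2 (X.1 s.1)

lemma ch_bracket {X Y : GG κ} (hX : IsInv n P α X) (hY : IsInv n P α Y)
    (s : Σ i, (K i →+* ℂ)) : ch P F s (X * Y - Y * X) = 0 :=
  tw_mul_comm (F s.1) s.2 (X.1 s.1) (Y.1 s.1) (commK n P F α hX s.1) (commK n P F α hY s.1)

lemma ch_add (X Y : GG κ) (s : Σ i, (K i →+* ℂ)) :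
    ch P F s (X + Y) = ch P F s X + ch P F s Y := map_add (tw (F s.1) s.2) _ _

lemma ch_smul (c : ℂ) (X : GG κ) (s : Σ i, (K i →+* ℂ)) :
    ch P F s (c • X) = c * ch P F s X := map_smul (tw (F s.1) s.2) _ _

/-- the scalar part of an endomorphism -/
noncomputable def dd (X : GG κ) (i : I) : Module.End ℂ (κ i → ℂ) :=
  ∑ σ, tw (F i) σ (X.1 i) • proj (F i).ρ σ

lemma dd_apply (X : GG κ) (i : I) (v : κ i → ℂ) :
    dd P F X i v = ∑ σ, ch P F ⟨i, σ⟩ X • proj (F i).ρ σ v := by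
  rw [dd, LinearMap.sum_apply]; rfl

lemma dd_add (X Y : GG κ) (i : I) : dd P F (X + Y) i = dd P F X i + dd P F Y i := by
  rw [dd, dd, dd, ← Finset.sum_add_distrib]
  refine Finset.sum_congr rfl fun σ _ => ?_
  rw [← add_smul, ← map_add]; rfl

lemma dd_smul (c : ℂ) (X : GG κ) (i : I) : dd P F (c • X) i = c • dd P F X i := by
  rw [dd, dd, Finset.smul_sum]
  refine Finset.sum_congr rfl fun σ _ => ?_
  rw [smul_smul, ← smul_eq_mul, ← map_smul]; rfl

lemma dd_proj (X : GG κ) (i : I) (σ : K i →+* ℂ) (v : κ i → ℂ) :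
    dd P F X i (proj (F i).ρ σ v) = ch P F ⟨i, σ⟩ X • proj (F i).ρ σ v := by
  classical
  rw [dd_apply, Finset.sum_eq_single σ]
  · rw [← Module.End.mul_apply, proj_mul_proj, if_pos rfl]
  · intro τ _ hτ
    rw [← Module.End.mul_apply, proj_mul_proj, if_neg hτ, LinearMap.zero_apply, smul_zero]
  · intro h; exact absurd (Finset.mem_univ _) h

lemma sum_proj_apply {κ : Type} {K : Type} [Field K] [NumberField K]
    (ρ : K →+* Module.End ℂ (κ → ℂ)) (v : κ → ℂ) : v = ∑ σ, proj ρ σ v := by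
  rw [← LinearMap.sum_apply, sum_proj]; rfl

lemma dd_comm {X Y : GG κ} (hY : IsInv n P α Y) (i : I) (v : κ i → ℂ) :
    Y.1 i (dd P F X i v) = dd P F X i (Y.1 i v) := by
  rw [dd_apply, dd_apply, map_sum]
  refine Finset.sum_congr rfl fun σ _ => ?_
  rw [map_smul, commP n P F α hY]

lemma dd_dd (X Y : GG κ) (i : I) (v : κ i → ℂ) :
    dd P F Y i (dd P F X i v) = dd P F X i (dd P F Y i v) := by
  rw [dd_apply P F X, dd_apply P F Y i v, map_sum, map_sum]
  refine Finset.sum_congr rfl fun σ _ => ?_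
  rw [map_smul, map_smul, dd_proj, dd_proj, smul_comm]

/-- the normalised action -/
noncomputable def phi : GG κ →ₗ[ℂ] Module.End ℂ (MM κ) where
  toFun X := LinearMap.pi fun i => (X.1 i - dd P F X i) ∘ₗ LinearMap.proj i
  map_add' X Y := by
    apply LinearMap.ext; intro v
    funext i
    simp only [LinearMap.pi_apply, LinearMap.comp_apply, LinearMap.add_apply, LinearMap.sub_apply,
      Prod.fst_add, Pi.add_apply, LinearMap.proj_apply, dd_add]
    abel
  map_smul' c X := by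
    apply LinearMap.ext; intro v
    funext i
    simp only [LinearMap.pi_apply, LinearMap.comp_apply, LinearMap.smul_apply,
      LinearMap.sub_apply, Prod.smul_fst, Pi.smul_apply, LinearMap.proj_apply, dd_smul,
      RingHom.id_apply, smul_sub]

lemma phi_apply (X : GG κ) (v : MM κ) (i : I) :
    phi P F X v i = X.1 i (v i) - dd P F X i (v i) := rfl

lemma phi_bracket {X Y : GG κ} (hX : IsInv n P α X) (hY : IsInv n P α Y) :
    phi P F (X * Y - Y * X) = phi P F X * phi P F Y - phi P F Y * phi P F X := by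
  apply LinearMap.ext; intro v
  funext i
  rw [LinearMap.sub_apply, Pi.sub_apply, Module.End.mul_apply, Module.End.mul_apply,
    phi_apply, phi_apply, phi_apply, phi_apply, phi_apply]
  have h1 : (X * Y - Y * X).1 i (v i) = X.1 i (Y.1 i (v i)) - Y.1 i (X.1 i (v i)) := rfl
  have h2 : dd P F (X * Y - Y * X) i (v i) = 0 := by
    rw [dd_apply]
    exact Finset.sum_eq_zero fun σ _ => by rw [ch_bracket n P F α hX hY, zero_smul]
  rw [h1, h2, map_sub, map_sub, map_sub, map_sub, dd_comm n P F α hX, dd_comm n P F α hY,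
    dd_dd P F X Y]
  abel

/-- the Lie algebra -/
noncomputable def LL : LieSubalgebra ℂ (Module.End ℂ (MM κ)) where
  toSubmodule := (gSub n P α).map (phi P F)
  lie_mem' := by
    rintro _ _ ⟨X, hX, rfl⟩ ⟨Y, hY, rfl⟩
    exact ⟨X * Y - Y * X, IsInv.bracket n P α hX hY, phi_bracket n P F α hX hY⟩

lemma mem_LL (a : Module.End ℂ (MM κ)) : a ∈ LL n P F α ↔ ∃ X, IsInv n P α X ∧ phi P F X = a :=
  Iff.rfl

lemma phi_single {X : GG κ} (hX : IsInv n P α X) (s : Σ i, (K i →+* ℂ)) (w : κ s.1 → ℂ) :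
    phi P F X (Pi.single s.1 (proj (F s.1).ρ s.2 w) : MM κ) =
      Pi.single s.1 (proj (F s.1).ρ s.2 (X.1 s.1 w - ch P F s X • w)) := by
  funext i
  rw [phi_apply]
  by_cases hi : i = s.1
  · subst hi
    rw [Pi.single_eq_same, Pi.single_eq_same, map_sub, map_smul, commP n P F α hX, dd_proj]
  · rw [Pi.single_eq_of_ne hi, Pi.single_eq_of_ne hi, map_zero, map_zero, sub_zero]

/-- the eigenspaces -/
noncomputable def Vs (s : Σ i, (K i →+* ℂ)) : LieSubmodule ℂ (LL n P F α) (MM κ) where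
  toSubmodule := LinearMap.range ((LinearMap.single ℂ (fun i => (κ i → ℂ)) s.1) ∘ₗ
    proj (F s.1).ρ s.2)
  lie_mem := by
    rintro ⟨_, X, hX, rfl⟩ _ ⟨w, rfl⟩
    show phi P F X ((Pi.single s.1 (proj (F s.1).ρ s.2 w) : MM κ)) ∈ _
    rw [phi_single n P F α hX]
    exact ⟨_, rfl⟩

lemma mem_Vs (s : Σ i, (K i →+* ℂ)) (v : MM κ) : v ∈ Vs n P F α s ↔
    ∃ w, (Pi.single s.1 (proj (F s.1).ρ s.2 w) : MM κ) = v := Iff.rfl

/-- the element of the Lie algebra given by a symmetry -/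
noncomputable def elL (X : GG κ) (hX : IsInv n P α X) : LL n P F α := ⟨phi P F X, X, hX, rfl⟩

lemma exists_elL (a : LL n P F α) : ∃ X hX, a = elL n P F α X hX := by
  obtain ⟨_, X, hX, rfl⟩ := a
  exact ⟨X, hX, rfl⟩

lemma elL_lie (X : GG κ) (hX : IsInv n P α X) (s : Σ i, (K i →+* ℂ)) (x : Vs n P F α s) :
    ((⁅elL n P F α X hX, x⁆ : Vs n P F α s) : MM κ) = phi P F X x := rfl

lemma elL_bracket (X Y : GG κ) (hX : IsInv n P α X) (hY : IsInv n P α Y) :
    ⁅elL n P F α X hX, elL n P F α Y hY⁆ = elL n P F α (X * Y - Y * X) (hX.bracket n P α hY) := by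
  apply Subtype.ext
  show phi P F X * phi P F Y - phi P F Y * phi P F X = phi P F (X * Y - Y * X)
  rw [phi_bracket n P F α hX hY]

lemma Vs_single (s : Σ i, (K i →+* ℂ)) (x : Vs n P F α s) :
    (x : MM κ) = Pi.single s.1 ((x : MM κ) s.1) := by
  obtain ⟨_, w, rfl⟩ := x
  show (Pi.single s.1 (proj (F s.1).ρ s.2 w) : MM κ) =
    Pi.single s.1 ((Pi.single s.1 (proj (F s.1).ρ s.2 w) : MM κ) s.1)
  rw [Pi.single_eq_same]

lemma Vs_proj (s : Σ i, (K i →+* ℂ)) (x : Vs n P F α s) :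
    proj (F s.1).ρ s.2 ((x : MM κ) s.1) = (x : MM κ) s.1 := by
  classical
  obtain ⟨_, w, rfl⟩ := x
  show proj (F s.1).ρ s.2 ((Pi.single s.1 (proj (F s.1).ρ s.2 w) : MM κ) s.1) =
    ((Pi.single s.1 (proj (F s.1).ρ s.2 w) : MM κ) s.1)
  rw [Pi.single_eq_same, ← Module.End.mul_apply, proj_mul_proj, if_pos rfl]

lemma Vs_ext (s : Σ i, (K i →+* ℂ)) (x y : Vs n P F α s) (h : (x : MM κ) s.1 = (y : MM κ) s.1) :
    x = y := by
  apply Subtype.ext
  rw [Vs_single n P F α s x, Vs_single n P F α s y, h]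

/-- the action of a symmetry on a vector of an eigenspace -/
lemma elL_act (X : GG κ) (hX : IsInv n P α X) (s : Σ i, (K i →+* ℂ))
    (x : Vs n P F α s) : ((⁅elL n P F α X hX, x⁆ : Vs n P F α s) : MM κ) s.1 =
      X.1 s.1 ((x : MM κ) s.1) - ch P F s X • (x : MM κ) s.1 := by
  rw [elL_lie, phi_apply]
  conv_lhs => rw [← Vs_proj n P F α s x]
  rw [dd_proj, Vs_proj]

/-- projection of a factor to an eigenspace -/
noncomputable def toVs (s : Σ i, (K i →+* ℂ)) : (κ s.1 → ℂ) →ₗ[ℂ] Vs n P F α s where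
  toFun w := ⟨Pi.single s.1 (proj (F s.1).ρ s.2 w), w, rfl⟩
  map_add' a b := by
    apply Vs_ext n P F α s
    show (Pi.single s.1 (proj (F s.1).ρ s.2 (a + b)) : MM κ) s.1 =
      (Pi.single s.1 (proj (F s.1).ρ s.2 a) : MM κ) s.1 +
      (Pi.single s.1 (proj (F s.1).ρ s.2 b) : MM κ) s.1
    simp only [Pi.single_eq_same, map_add]
  map_smul' c a := by
    apply Vs_ext n P F α s
    show (Pi.single s.1 (proj (F s.1).ρ s.2 (c • a)) : MM κ) s.1 =
      c • (Pi.single s.1 (proj (F s.1).ρ s.2 a) : MM κ) s.1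
    simp only [Pi.single_eq_same, map_smul]

lemma toVs_apply (s : Σ i, (K i →+* ℂ)) (w : κ s.1 → ℂ) :
    ((toVs n P F α s w : Vs n P F α s) : MM κ) s.1 = proj (F s.1).ρ s.2 w := by
  show (Pi.single s.1 (proj (F s.1).ρ s.2 w) : MM κ) s.1 = _
  rw [Pi.single_eq_same]

/-- the component of a vector of an eigenspace in its factor -/
noncomputable def ofVs (s : Σ i, (K i →+* ℂ)) : Vs n P F α s →ₗ[ℂ] (κ s.1 → ℂ) :=
  (LinearMap.proj s.1 : MM κ →ₗ[ℂ] (κ s.1 → ℂ)) ∘ₗ (Vs n P F α s).toSubmodule.subtype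

lemma ofVs_apply (s : Σ i, (K i →+* ℂ)) (x : Vs n P F α s) :
    ofVs n P F α s x = (x : MM κ) s.1 := rfl

lemma toVs_ofVs (s : Σ i, (K i →+* ℂ)) (x : Vs n P F α s) :
    toVs n P F α s (ofVs n P F α s x) = x := by
  apply Vs_ext n P F α s
  rw [toVs_apply, ofVs_apply, Vs_proj]

lemma ofVs_toVs (s : Σ i, (K i →+* ℂ)) (w : κ s.1 → ℂ) :
    ofVs n P F α s (toVs n P F α s w) = proj (F s.1).ρ s.2 w := toVs_apply n P F α s w

/-- the coordinates of an eigenspace -/
noncomputable def eqV (s : Σ i, (K i →+* ℂ)) : Vs n P F α s ≃ₗ[ℂ] (Fin (r s.1) → ℂ) where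
  toFun x := fun j => (F s.1).co s.2 j ((x : MM κ) s.1)
  map_add' x y := by
    funext j
    have h : ((x + y : Vs n P F α s) : MM κ) s.1 = (x : MM κ) s.1 + (y : MM κ) s.1 := rfl
    rw [h, map_add]; rfl
  map_smul' c x := by
    funext j
    have h : ((c • x : Vs n P F α s) : MM κ) s.1 = c • (x : MM κ) s.1 := rfl
    rw [h, map_smul]; rfl
  invFun c := toVs n P F α s (∑ j, c j • (F s.1).e s.2 j)
  left_inv x := by
    apply Vs_ext n P F α s
    rw [toVs_apply, ← (F s.1).proj_eq, Vs_proj, Vs_proj]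
  right_inv c := by
    funext j
    show (F s.1).co s.2 j (((toVs n P F α s (∑ j, c j • (F s.1).e s.2 j) : Vs n P F α s) :
      MM κ) s.1) = c j
    have h1 : proj (F s.1).ρ s.2 (∑ j, c j • (F s.1).e s.2 j) = ∑ j, c j • (F s.1).e s.2 j := by
      rw [map_sum]
      refine Finset.sum_congr rfl fun j _ => ?_
      rw [map_smul, (F s.1).proj_e, if_pos rfl]
    rw [toVs_apply, h1, map_sum, Finset.sum_eq_single j]
    · rw [map_smul, co_e_same, if_pos rfl, smul_eq_mul, mul_one]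
    · intro b _ hb
      rw [map_smul, co_e_same, if_neg (Ne.symm hb), smul_zero]
    · intro h; exact absurd (Finset.mem_univ _) h

/-- the basis of an eigenspace -/
noncomputable def bV (s : Σ i, (K i →+* ℂ)) : Basis (Fin (r s.1)) ℂ (Vs n P F α s) :=
  Basis.ofEquivFun (eqV n P F α s)

lemma bV_coe (s : Σ i, (K i →+* ℂ)) (j : Fin (r s.1)) :
    ((bV n P F α s j : Vs n P F α s) : MM κ) s.1 = (F s.1).e s.2 j := by
  rw [bV, Basis.coe_ofEquivFun]
  show ((toVs n P F α s (∑ a, (Pi.single j (1 : ℂ) : Fin (r s.1) → ℂ) a • (F s.1).e s.2 a) :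
    Vs n P F α s) : MM κ) s.1 = _
  rw [toVs_apply, Finset.sum_eq_single j]
  · rw [Pi.single_eq_same, one_smul, (F s.1).proj_e, if_pos rfl]
  · intro b _ hb
    rw [Pi.single_eq_of_ne hb, zero_smul]
  · intro h; exact absurd (Finset.mem_univ _) h

lemma bV_repr (s : Σ i, (K i →+* ℂ)) (x : Vs n P F α s) (j : Fin (r s.1)) :
    (bV n P F α s).repr x j = (F s.1).co s.2 j ((x : MM κ) s.1) := by
  rw [bV, Basis.ofEquivFun_repr_apply]; rfl

lemma finrank_Vs (s : Σ i, (K i →+* ℂ)) : finrank ℂ (Vs n P F α s) = r s.1 := by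
  rw [Module.finrank_eq_card_basis (bV n P F α s), Fintype.card_fin]

/-- the elements of the Lie algebra have trace zero on the eigenspaces -/
lemma trace_Vs (s : Σ i, (K i →+* ℂ)) (hr : 0 < r s.1) (a : LL n P F α) :
    LinearMap.trace ℂ _ (LieModule.toEnd ℂ (LL n P F α) (Vs n P F α s) a) = 0 := by
  obtain ⟨X, hX, rfl⟩ := exists_elL n P F α a
  rw [LinearMap.trace_eq_matrix_trace ℂ (bV n P F α s), Matrix.trace]
  have h1 : ∀ j, Matrix.diag (LinearMap.toMatrix (bV n P F α s) (bV n P F α s)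
      (LieModule.toEnd ℂ (LL n P F α) (Vs n P F α s) (elL n P F α X hX))) j =
      (F s.1).co s.2 j (X.1 s.1 ((F s.1).e s.2 j)) - ch P F s X := by
    intro j
    rw [Matrix.diag_apply, LinearMap.toMatrix_apply, LieModule.toEnd_apply_apply, bV_repr,
      elL_act, bV_coe, map_sub, map_smul, co_e_same, if_pos rfl, smul_eq_mul, mul_one]
  rw [Finset.sum_congr rfl fun j _ => h1 j, Finset.sum_sub_distrib, Finset.sum_const,
    Finset.card_univ, Fintype.card_fin, nsmul_eq_mul]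
  have hr' : (r s.1 : ℂ) ≠ 0 := by exact_mod_cast hr.ne'
  rw [ch, tw_apply, mul_div_cancel₀ _ hr', sub_self]

variable (hϖ : ϖ ≠ 0)
  (hB : ∀ v : Fin (2 * k) → HW κ n, (∀ r, IsRatP n P (v r)) → ∃ q : ℚ, α v = ϖ ^ k * q)
  (hA : ∀ v : Fin (2 * k) → HW κ n, (∀ r i m j, IsAlgebraic ℚ (v r i m j)) →
      IsAlgebraic ℚ (α v))

include hϖ hB hA in
theorem Vs_irr (s : Σ i, (K i →+* ℂ)) (hr : 0 < r s.1) :
    LieModule.IsIrreducible ℂ (LL n P F α) (Vs n P F α s) := by
  classical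
  have hn : Nontrivial (Vs n P F α s) := by
    apply Module.nontrivial_of_finrank_pos (R := ℂ)
    rw [finrank_Vs]; exact hr
  refine LieModule.IsIrreducible.mk fun N hN => ?_
  have hW := (F s.1).irred_place n P α s.1 hϖ hB hA s.2 (N.toSubmodule.map (ofVs n P F α s)) (by
      rintro _ ⟨x, -, rfl⟩
      rw [span_e_place, ofVs_apply, ← Vs_proj n P F α s x]
      exact ⟨_, rfl⟩) (by
      rintro X hX _ ⟨x, hx, rfl⟩
      have h1 : ⁅elL n P F α X hX, x⁆ ∈ N := N.lie_mem hx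
      have h2 : X.1 s.1 (ofVs n P F α s x) =
          ofVs n P F α s (⁅elL n P F α X hX, x⁆ + ch P F s X • x) := by
        rw [map_add, map_smul, ofVs_apply, ofVs_apply, elL_act, sub_add_cancel]
      rw [h2]
      exact ⟨_, N.toSubmodule.add_mem h1 (N.toSubmodule.smul_mem _ hx), rfl⟩)
  rcases hW with hW | hW
  · exfalso
    apply hN
    rw [LieSubmodule.eq_bot_iff]
    intro x hx
    apply Vs_ext n P F α s
    have h1 : ofVs n P F α s x ∈ N.toSubmodule.map (ofVs n P F α s) := ⟨x, hx, rfl⟩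
    rw [hW, Submodule.mem_bot, ofVs_apply] at h1
    rw [h1]; rfl
  · rw [eq_top_iff]
    intro y _
    have h1 : ofVs n P F α s y ∈ N.toSubmodule.map (ofVs n P F α s) := by
      rw [hW, span_e_place, ofVs_apply, ← Vs_proj n P F α s y]
      exact ⟨_, rfl⟩
    obtain ⟨x, hx, hxy⟩ := h1
    have h2 : x = y := Vs_ext n P F α s x y hxy
    rw [← h2]
    exact hx

include hϖ hB hA in
theorem LL_trivialRadical (hr : ∀ i, 0 < r i) : HasTrivialRadical ℂ (LL n P F α) := by
  have h1 : ∀ s : Σ i, (K i →+* ℂ), LieModule.IsIrreducible ℂ (LL n P F α) (Vs n P F α s) :=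
    fun s => Vs_irr n P F α hϖ hB hA s (hr s.1)
  refine trivialRadical_of_family (fun s : Σ i, (K i →+* ℂ) => Vs n P F α s)
    (fun s x => trace_Vs n P F α s (hr s.1) x) ?_
  intro a ha
  obtain ⟨X, hX, rfl⟩ := exists_elL n P F α a
  apply Subtype.ext
  show phi P F X = 0
  apply LinearMap.ext
  intro v
  funext i
  have h2 : ∀ σ : K i →+* ℂ, X.1 i (proj (F i).ρ σ (v i)) -
      dd P F X i (proj (F i).ρ σ (v i)) = 0 := by
    intro σ
    have h3 := congrArg (fun x : Vs n P F α ⟨i, σ⟩ => (x : MM κ) i)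
      (ha ⟨i, σ⟩ (toVs n P F α ⟨i, σ⟩ (v i)))
    have h4 : ((⁅elL n P F α X hX, toVs n P F α ⟨i, σ⟩ (v i)⁆ : Vs n P F α ⟨i, σ⟩) : MM κ) i =
        0 := h3
    rw [elL_act n P F α X hX ⟨i, σ⟩, toVs_apply n P F α ⟨i, σ⟩] at h4
    rw [dd_proj]
    exact h4
  rw [phi_apply]
  have h3 := sum_proj_apply (F i).ρ (v i)
  rw [h3, map_sum, map_sum, ← Finset.sum_sub_distrib]
  exact Finset.sum_eq_zero fun σ _ => h2 σ

/-- every element of the Lie algebra comes from a symmetry without multiplier and weights -/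
lemma perfect_lift (hk : IsKilling ℂ (LL n P F α)) (a : LL n P F α) :
    ∃ X hX, a = elL n P F α X hX ∧ X.2 = 0 ∧ ∀ s, ch P F s X = 0 := by
  have h1 := perfect_of_killing a
  refine Submodule.span_induction (p := fun a _ => ∃ X hX, a = elL n P F α X hX ∧ X.2 = 0 ∧
    ∀ s, ch P F s X = 0) ?_ ?_ ?_ ?_ h1
  · rintro _ ⟨b, c, rfl⟩
    obtain ⟨X, hX, rfl⟩ := exists_elL n P F α b
    obtain ⟨Y, hY, rfl⟩ := exists_elL n P F α c
    refine ⟨X * Y - Y * X, hX.bracket n P α hY, elL_bracket n P F α X Y hX hY, ?_,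
      fun s => ch_bracket n P F α hX hY s⟩
    show X.2 * Y.2 - Y.2 * X.2 = 0
    ring
  · refine ⟨0, IsInv.zero n P α, ?_, rfl, fun s => map_zero (tw (F s.1) s.2)⟩
    apply Subtype.ext
    show (0 : Module.End ℂ (MM κ)) = phi P F 0
    rw [map_zero]
  · rintro a b _ _ ⟨X, hX, rfl, h2, h3⟩ ⟨Y, hY, rfl, h4, h5⟩
    refine ⟨X + Y, hX.add n P α hY, ?_, ?_, fun s => by rw [ch_add, h3, h5, add_zero]⟩
    · apply Subtype.ext
      show phi P F X + phi P F Y = phi P F (X + Y)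
      rw [map_add]
    · show X.2 + Y.2 = 0
      rw [h2, h4, add_zero]
  · rintro c a _ ⟨X, hX, rfl, h2, h3⟩
    refine ⟨c • X, hX.smul n P α c, ?_, ?_, fun s => by rw [ch_smul, h3, mul_zero]⟩
    · apply Subtype.ext
      show c • phi P F X = phi P F (c • X)
      rw [map_smul]
    · show c * X.2 = 0
      rw [h2, mul_zero]

end family

end Pool.Agent.Helper24
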