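import Pool.Agent.Helper24.PT.UPeel
import Pool.Agent.Helper8.H.Labels

/-!
The recursion for a family with one special factor: after the removal of pairs of slots of rank one
and of pairs of equal slots of real type there remain slots at the special factor and slots at
different real planes.
-/

namespace Pool.Agent.Helper24

open Module NumberField LieAlgebra Pool.Agent.Helper7

attribute [local instance 100] LieRing.ofAssociativeRing

open Pool.Agent.GPC (Emb IsOdd IsOddModule translate)
open Pool.Agent.Helper8 (SF SF0 PS PS.mul symG invF invF_symG SF.toSF0 SF.factor SF.mem_of_factor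
  mem_of_PS Symp ML2 Inv2 ML4 Inv4 exists_linear SF0.sum SF0.eq_zero_of_eq wsq)

set_option linter.unusedSectionVars false

section family

variable {I : Type} [Fintype I] [DecidableEq I] (n : I → ℕ)
  {κ : I → Type} [∀ i, Fintype (κ i)] [∀ i, DecidableEq (κ i)] {ϖ : ℂ}
  (P : ∀ i, PData (κ i) ϖ)
  {K : I → Type} [∀ i, Field (K i)] [∀ i, NumberField (K i)] {r : I → ℕ}
  (F : ∀ i, UF (P i) (K i) (r i))
  {k : ℕ} (α : MultilinearMap ℂ (fun _ : Fin (2 * k) => HW κ n) ℂ)

/-- a family with one special factor `p`: the other factors are of rank one, with weights without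
relations, or of rank two with totally real fields, and different real places of rank two are not
linked -/
structure SpecFam (p : I) : Prop where
  rp : 3 ≤ r p
  typ : ∀ i, i ≠ p → (r i = 1 ∧ (∀ σ : K i →+* ℂ, ComplexEmbedding.conjugate σ ≠ σ) ∧
    ∀ u ∈ relS n P F α, ∀ σ, u ⟨i, σ⟩ = 0) ∨
    (r i = 2 ∧ n i = 1 ∧ ∀ σ : K i →+* ℂ, ComplexEmbedding.conjugate σ = σ)
  link : ∀ s t : Emb K, r s.1 = 2 → r t.1 = 2 → s ≠ t →
    ∀ f : Vs n P F α s → Vs n P F α t → ℂ, ML2 f → Inv2 (LL n P F α) f → ∀ x y, f x y = 0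

variable {n P F α}

lemma SpecFam.pos {p : I} (H : SpecFam n P F α p) (i : I) : 0 < r i := by
  by_cases h : i = p
  · subst h; have := H.rp; omega
  · rcases H.typ i h with h | h
    · rw [h.1]; norm_num
    · rw [h.1]; norm_num

lemma SpecFam.cases {p : I} (H : SpecFam n P F α p) (i : I) : r i = 1 ∨ r i = 2 ∨ i = p := by
  by_cases h : i = p
  · exact Or.inr (Or.inr h)
  · rcases H.typ i h with h | h
    · exact Or.inl h.1
    · exact Or.inr (Or.inl h.1)

lemma SpecFam.real {p : I} (H : SpecFam n P F α p) (t : Emb K) (ht : r t.1 = 2) :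
    ComplexEmbedding.conjugate t.2 = t.2 := by
  by_cases hp : t.1 = p
  · have := H.rp
    rw [← hp] at this
    omega
  · rcases H.typ t.1 hp with h' | h'
    · rw [h'.1] at ht; exact absurd ht (by norm_num)
    · exact h'.2.2 t.2

variable (n P F α)
variable {R : Type*} [DecidableEq R] {q : R → At n K} {T : Finset R} {Φ : (R → HW κ n) → ℂ}

lemma PS_of_zero (h : ∀ v, Φ v = 0) : Φ ∈ PS (invB n P α) T := by
  have : Φ = 0 := funext h
  rw [this]
  exact Submodule.zero_mem _

lemma PS_empty (h : SF0 (EE n P F) q ∅ Φ) : Φ ∈ PS (invB n P α) ∅ := by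
  have h1 : Φ = Φ 0 • (fun _ : R → HW κ n => (1 : ℂ)) := by
    funext v
    rw [Pi.smul_apply, smul_eq_mul, mul_one]
    exact h.dep v 0 (fun t ht => absurd ht (Finset.notMem_empty t))
  rw [h1]
  exact Submodule.smul_mem _ _ (Submodule.subset_span PP.nil)

/-- the slots which remain: slots at the special factor, and slots at different real planes -/
structure Remain (n : I → ℕ) {K : I → Type} [∀ i, Field (K i)] (r : I → ℕ) (p : I)
    {R : Type*} (q : R → At n K) (T : Finset R) : Prop where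
  spec : ∀ t ∈ T, (q t).1 = p ∨ r (q t).1 = 2
  uniq : ∀ t ∈ T, ∀ t' ∈ T, r (q t).1 = 2 → t' ≠ t → pl n (q t') ≠ pl n (q t)

theorem peelG {p : I} (H : SpecFam n P F α p) (hk : IsKilling ℂ (LL n P F α))
    (core : ∀ (T : Finset R) (Φ : (R → HW κ n) → ℂ), Even T.card →
      SF (symG n P α) (EE n P F) q T Φ → Remain n r p q T → Φ ∈ PS (invB n P α) T) (N : ℕ) :
    ∀ (T : Finset R), T.card = 2 * N → ∀ Φ : (R → HW κ n) → ℂ,
      SF (symG n P α) (EE n P F) q T Φ → Φ ∈ PS (invB n P α) T := by
  classical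
  have hr := H.pos
  have hrp := H.rp
  induction N with
  | zero =>
    intro T hT Φ h
    have h0 : T = ∅ := Finset.card_eq_zero.mp (by omega)
    subst h0
    exact PS_empty n P F α h.toSF0
  | succ N ih =>
    intro T hT Φ h
    have hsub : ∀ r0 ∈ T, ∀ s0 ∈ T, r0 ≠ s0 → ∀ Ψ : (R → HW κ n) → ℂ,
        SF (symG n P α) (EE n P F) q (T \ {r0, s0}) Ψ → Ψ ∈ PS (invB n P α) (T \ {r0, s0}) := by
      intro r0 hr0 s0 hs0 hne Ψ hΨ
      refine ih _ ?_ Ψ hΨ
      rw [Finset.card_sdiff_of_subset (by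
        intro t ht
        rw [Finset.mem_insert, Finset.mem_singleton] at ht
        rcases ht with rfl | rfl
        · exact hr0
        · exact hs0), Finset.card_pair hne, hT]
      omega
    by_cases hA : ∃ r0 ∈ T, r (q r0).1 = 1
    · -- a slot of rank one
      obtain ⟨r0, hr0, h1⟩ := hA
      by_cases hz : ∀ v, Φ v = 0
      · exact PS_of_zero n P α hz
      push Not at hz
      obtain ⟨v, hv⟩ := hz
      have hp : (q r0).1 ≠ p := by
        intro e; rw [e] at h1; omega
      obtain ⟨-, hcj, hz0⟩ := (H.typ _ hp).resolve_right (fun h' => by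
        rw [h'.1] at h1; exact absurd h1 (by norm_num))
      have hcount := count_eq n P F α hr hk h v hv (pl n (q r0)) (fun u hu => hz0 u hu _)
      have hpos : 0 < (T.filter fun t => pl n (q t) = pl n (q r0)).card :=
        Finset.card_pos.mpr ⟨r0, Finset.mem_filter.mpr ⟨hr0, rfl⟩⟩
      rw [hcount] at hpos
      obtain ⟨s0, hs0⟩ := Finset.card_pos.mp hpos
      obtain ⟨hs0, hs1⟩ := Finset.mem_filter.mp hs0
      rcases hq : q r0 with ⟨i, m, σ⟩
      rcases hq' : q s0 with ⟨j, m', τ⟩
      rw [hq] at hs1 h1 hcj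
      rw [hq'] at hs1
      have hji : j = i := congrArg Sigma.fst hs1
      subst hji
      have hτ : τ = ComplexEmbedding.conjugate σ :=
        sigma_mk_injective (β := fun i => (K i →+* ℂ)) hs1
      subst hτ
      have hne : r0 ≠ s0 := by
        rintro rfl
        rw [hq] at hq'
        have h5 := sigma_mk_injective (β := fun i => Fin (n i) × (K i →+* ℂ)) hq'
        exact hcj σ (congrArg Prod.snd h5).symm
      exact cm_step n P F α h hr0 hs0 hne h1 hq hq' (hsub r0 hr0 s0 hs0 hne)
    · push Not at hA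
      by_cases hB : ∃ r0 ∈ T, ∃ s0 ∈ T, r (q r0).1 = 2 ∧ s0 ≠ r0 ∧ pl n (q s0) = pl n (q r0)
      · obtain ⟨r0, hr0, s0, hs0, h2, hne, hpl⟩ := hB
        have hp : (q r0).1 ≠ p := by
          intro e; rw [e] at h2; omega
        obtain ⟨-, hn1, hcj⟩ := (H.typ _ hp).resolve_left (fun h' => by
          rw [h'.1] at h2; exact absurd h2 (by norm_num))
        rcases hq : q r0 with ⟨i, m, σ⟩
        rcases hq' : q s0 with ⟨j, m', τ⟩
        rw [hq] at hpl h2 hcj hn1
        rw [hq'] at hpl
        have hji : j = i := congrArg Sigma.fst hpl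
        subst hji
        have hτ : τ = σ := sigma_mk_injective (β := fun i => (K i →+* ℂ)) hpl
        subst hτ
        have hm : m' = m := by
          have h5 := m.2
          have h6 := m'.2
          simp only at hn1
          exact Fin.ext (by omega)
        subst hm
        exact real_step n P F α h hr0 hs0 hne.symm h2 (hcj τ) hq hq'
          (hsub r0 hr0 s0 hs0 hne.symm)
      · push Not at hB
        refine core T Φ (by rw [hT]; exact even_two_mul _) h
          ⟨fun t ht => ?_, fun t ht t' ht' h2 hne => hB t ht t' ht' h2 hne⟩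
        rcases H.cases (q t).1 with h' | h' | h'
        · exact absurd h' (hA t ht)
        · exact Or.inr h'
        · exact Or.inl h'

/-- the form is in the span of products of invariant pairings -/
theorem family_S {p : I} (β : (HW κ n) [⋀^Fin (2 * k)]→ₗ[ℂ] ℂ)
    (H : SpecFam n P F (β : MultilinearMap ℂ (fun _ : Fin (2 * k) => HW κ n) ℂ) p)
    (hϖ : ϖ ≠ 0)
    (hB : ∀ v : Fin (2 * k) → HW κ n, (∀ r, IsRatP n P (v r)) → ∃ q : ℚ, β v = ϖ ^ k * q)
    (hA : ∀ v : Fin (2 * k) → HW κ n, (∀ r i m j, IsAlgebraic ℚ (v r i m j)) →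
      IsAlgebraic ℚ (β v))
    (core : ∀ (q : Fin (2 * k) → At n K),
      IsKilling ℂ (LL n P F (β : MultilinearMap ℂ (fun _ : Fin (2 * k) => HW κ n) ℂ)) →
      (∀ s, LieModule.IsIrreducible ℂ
        (LL n P F (β : MultilinearMap ℂ (fun _ : Fin (2 * k) => HW κ n) ℂ))
        (Vs n P F (β : MultilinearMap ℂ (fun _ : Fin (2 * k) => HW κ n) ℂ) s)) →
      ∀ (T : Finset (Fin (2 * k))) (Φ : (Fin (2 * k) → HW κ n) → ℂ), Even T.card →
      SF (symG n P (β : MultilinearMap ℂ (fun _ : Fin (2 * k) => HW κ n) ℂ)) (EE n P F) q T Φ →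
      Remain n r p q T →
      Φ ∈ PS (invB n P (β : MultilinearMap ℂ (fun _ : Fin (2 * k) => HW κ n) ℂ)) T) :
    (β : MultilinearMap ℂ (fun _ : Fin (2 * k) => HW κ n) ℂ) ∈ Submodule.span ℂ
      {M | ∃ (π : Equiv.Perm (Fin (2 * k))) (γ : Fin k → (HW κ n →ₗ[ℂ] HW κ n →ₗ[ℂ] ℂ)),
      (∀ a, γ a ∈ invB n P (β : MultilinearMap ℂ (fun _ : Fin (2 * k) => HW κ n) ℂ)) ∧
        M = (prodBilin γ).domDomCongr π} := by
  classical
  have hr := H.pos
  have hirr : ∀ s, LieModule.IsIrreducible ℂ
      (LL n P F (β : MultilinearMap ℂ (fun _ : Fin (2 * k) => HW κ n) ℂ))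
      (Vs n P F (β : MultilinearMap ℂ (fun _ : Fin (2 * k) => HW κ n) ℂ) s) :=
    fun s => Vs_irr n P F _ hϖ hB hA s (hr s.1)
  have htr := LL_trivialRadical n P F _ hϖ hB hA hr
  have hk : IsKilling ℂ (LL n P F (β : MultilinearMap ℂ (fun _ : Fin (2 * k) => HW κ n) ℂ)) :=
    inferInstance
  refine mem_of_PS _ ?_
  have h1 : (fun v => (β : MultilinearMap ℂ (fun _ : Fin (2 * k) => HW κ n) ℂ) v) =
      ∑ a : Fin (2 * k) → At n K, (fun v : Fin (2 * k) → HW κ n =>
        β (fun r => EE n P F (a r) (v r))) := by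
    funext v
    rw [Finset.sum_apply]
    exact sum_labels n P F β v
  rw [h1]
  refine Submodule.sum_mem _ fun a _ => ?_
  exact peelG n P F _ H hk (core a hk hirr) k Finset.univ
    (by rw [Finset.card_univ, Fintype.card_fin]) _ (SF_label n P F β a)

end family

end Pool.Agent.Helper24
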