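import Pool.Agent.Helper24.PT.UPair

/-!
Removal of slots of rank one, of pairs of equal slots of real type, and the vanishing of slot
functions of odd weight.
-/

namespace Pool.Agent.Helper24

open Module NumberField LieAlgebra Pool.Agent.Helper7

attribute [local instance 100] LieRing.ofAssociativeRing

open Pool.Agent.GPC (Emb IsOdd IsOddModule translate)
open Pool.Agent.Helper8 (SF SF0 PS symG invF invF_symG SF.toSF0 SF.factor SF.mem_of_factor
  Symp ML2 Inv2 exists_linear SF0.sum SF0.eq_zero_of_eq)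

set_option linter.unusedSectionVars false

/-- linear dependence on one slot -/
lemma lin_of_slot {R W A : Type*} [DecidableEq R] [AddCommGroup W] [Module ℂ W]
    {E : A → Module.End ℂ W} {q : R → A} {T : Finset R} {Φ : (R → W) → ℂ} (h : SF0 E q T Φ)
    {V : Type*} [AddCommGroup V] [Module ℂ V] {r : R} (hr : r ∈ T) (w : V → R → W) (w0 : R → W)
    (L : V →ₗ[ℂ] W) (hw : ∀ x t, t ≠ r → w x t = w0 t) (hwr : ∀ x, w x r = L x) :
    IsLinearMap ℂ (fun x => Φ (w x)) := by
  have h1 : ∀ x, w x = Function.update w0 r (L x) := by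
    intro x
    funext t
    by_cases ht : t = r
    · subst ht; rw [Function.update_self, hwr]
    · rw [Function.update_of_ne ht, hw x t ht]
  simp only [h1]
  exact ⟨fun x y => by rw [map_add, h.add _ r hr], fun c x => by
    rw [map_smul, h.smul _ r hr, smul_eq_mul]⟩

lemma sum_one' {d : ℕ} (h : d = 1) (f : Fin d → ℂ) : ∑ j, f j = f ⟨0, by omega⟩ := by
  subst h; exact Fin.sum_univ_one f

lemma sum_two' {d : ℕ} (h : d = 2) (f : Fin d → ℂ) :
    ∑ j, f j = f ⟨0, by omega⟩ + f ⟨1, by omega⟩ := by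
  subst h; exact Fin.sum_univ_two f

section family

variable {I : Type} [Fintype I] [DecidableEq I] (n : I → ℕ)
  {κ : I → Type} [∀ i, Fintype (κ i)] [∀ i, DecidableEq (κ i)] {ϖ : ℂ}
  (P : ∀ i, PData (κ i) ϖ)
  {K : I → Type} [∀ i, Field (K i)] [∀ i, NumberField (K i)] {r : I → ℕ}
  (F : ∀ i, UF (P i) (K i) (r i))
  {k : ℕ} (α : MultilinearMap ℂ (fun _ : Fin (2 * k) => HW κ n) ℂ)
  {R : Type*} [DecidableEq R] {q : R → At n K} {T : Finset R} {Φ : (R → HW κ n) → ℂ}

/-- a slot function whose weights have an odd sum vanishes -/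
theorem par_zero (hk : IsKilling ℂ (LL n P F α)) (h : SF (symG n P α) (EE n P F) q T Φ)
    (a : LL n P F α) (par : R → ℤ)
    (hspan : ∀ r ∈ T, ⊤ ≤ Submodule.span ℂ {x : Vs n P F α (pl n (q r)) |
      ∃ m : ℤ, Even (m - par r) ∧ ⁅a, x⁆ = (m : ℂ) • x})
    (hodd : Odd (∑ r ∈ T, par r)) (v : R → HW κ n) : Φ v = 0 := by
  obtain ⟨X, hX, haX, h2, h3⟩ := perfect_lift n P F α hk a
  have key : ∀ S : Finset R, S ⊆ T → ∀ v : R → HW κ n,
      (∀ r ∈ T, r ∉ S → ∃ m : ℤ, Even (m - par r) ∧ lift n X.1 (v r) = (m : ℂ) • v r) →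
      Φ v = 0 := by
    intro S
    induction S using Finset.induction_on with
    | empty =>
      intro _ v hv
      have hv' : ∀ r, ∃ m : ℤ, r ∈ T → Even (m - par r) ∧ lift n X.1 (v r) = (m : ℂ) • v r := by
        intro r
        by_cases hr : r ∈ T
        · obtain ⟨m, hm⟩ := hv r hr (Finset.notMem_empty r)
          exact ⟨m, fun _ => hm⟩
        · exact ⟨0, fun h => absurd h hr⟩
      choose m hm using hv'
      have e := h.inv _ ⟨X, hX, rfl⟩ v
      simp only [h2, mul_zero, zero_mul] at e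
      have e1 : ∀ t ∈ T, Φ (Function.update v t (lift n X.1 (v t))) = (m t : ℂ) * Φ v := by
        intro t ht
        rw [(hm t ht).2, h.smul _ t ht, Function.update_eq_self]
      rw [Finset.sum_congr rfl e1, ← Finset.sum_mul, ← Int.cast_sum] at e
      have hm2 : Odd (∑ t ∈ T, m t) := by
        have h4 : Even (∑ t ∈ T, (m t - par t)) := Finset.even_sum _ fun t ht => (hm t ht).1
        rw [Finset.sum_sub_distrib] at h4
        have h5 := h4.add_odd hodd
        rwa [sub_add_cancel] at h5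
      have hne : (((∑ t ∈ T, m t : ℤ)) : ℂ) ≠ 0 := by
        intro h0
        have h6 : (∑ t ∈ T, m t : ℤ) = 0 := by exact_mod_cast h0
        rw [h6] at hm2
        exact absurd hm2 (by decide)
      have h7 := (mul_eq_zero.mp e).resolve_left two_ne_zero
      exact (mul_eq_zero.mp h7).resolve_left hne
    | insert b S hb ih =>
      intro hS v hv
      rw [Finset.insert_subset_iff] at hS
      have e1 := h.lab b hS.1 v
      rw [EE_eq n P F α] at e1
      rw [← e1]
      have hlin : IsLinearMap ℂ (fun x : Vs n P F α (pl n (q b)) =>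
          Φ (Function.update v b (inS n P F α (q b) x))) :=
        lin_of_slot h.toSF0 hS.1 _ v (inS n P F α (q b))
          (fun x t ht => Function.update_of_ne ht _ _) (fun x => Function.update_self _ _ _)
      have hx : outS n P F α (q b) (v b) ∈ Submodule.span ℂ {x : Vs n P F α (pl n (q b)) |
          ∃ m : ℤ, Even (m - par b) ∧ ⁅a, x⁆ = (m : ℂ) • x} := hspan b hS.1 Submodule.mem_top
      generalize outS n P F α (q b) (v b) = x at hx
      induction hx using Submodule.span_induction with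
      | mem x hx =>
        obtain ⟨m, hm1, hm2⟩ := hx
        refine ih hS.2 _ fun r hr hrS => ?_
        by_cases hrb : r = b
        · subst hrb
          refine ⟨m, hm1, ?_⟩
          rw [Function.update_self, lift_in n P F α X hX, h3, zero_smul, add_zero, ← haX, hm2,
            map_smul]
        · rw [Function.update_of_ne hrb]
          exact hv r hr (by rw [Finset.mem_insert, not_or]; exact ⟨hrb, hrS⟩)
      | zero => exact hlin.map_zero
      | add x y _ _ hx hy =>
        rw [hlin.map_add x y, hx, hy, add_zero]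
      | smul c x _ hx =>
        rw [hlin.map_smul c x, hx, smul_zero]
  exact key T (Finset.Subset.refl T) v fun r hr hr' => absurd hr hr'

/-- expansion of a slot in the basis -/
lemma slot_expand (h : SF0 (EE n P F) q T Φ) {r0 : R} (hr0 : r0 ∈ T) {i : I} {m : Fin (n i)}
    {σ : K i →+* ℂ} (hq : q r0 = ⟨i, m, σ⟩) (v : R → HW κ n) :
    Φ v = ∑ j, (F i).co σ j (v r0 i m) *
      Φ (Function.update v r0 (slotL n i m ((F i).e σ j))) := by
  rw [← h.lab r0 hr0 v, hq, EE_apply]
  have h1 : slotL n i m (proj (F i).ρ σ (v r0 i m)) =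
      ∑ j, (F i).co σ j (v r0 i m) • slotL n i m ((F i).e σ j) := by
    rw [(F i).proj_eq, map_sum]
    exact Finset.sum_congr rfl fun j _ => by rw [map_smul]
  show Φ (Function.update v r0 (slotL n i m (proj (F i).ρ σ (v r0 i m)))) = _
  rw [h1]
  exact h.sum v r0 hr0 Finset.univ _ _

lemma psi_e_ne_one {κ : Type} [Fintype κ] [DecidableEq κ] {ϖ : ℂ} {P : PData κ ϖ} {K : Type}
    [Field K] [NumberField K] {r : ℕ} (F : UF P K r) (hr : r = 1) (σ : K →+* ℂ) :
    P.ψ (F.e σ ⟨0, by omega⟩) (F.e (ComplexEmbedding.conjugate σ) ⟨0, by omega⟩) ≠ 0 := by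
  intro h0
  apply e_ne F σ ⟨0, by omega⟩
  apply P.hψnd
  intro w
  have h1 : proj F.ρ σ (F.e σ ⟨0, by omega⟩) = F.e σ ⟨0, by omega⟩ := by
    rw [F.proj_e, if_pos rfl]
  rw [← h1, psi_right, h1, F.proj_eq, map_sum, sum_one' hr, map_smul, h0, smul_zero]

lemma psi_e_self {κ : Type} [Fintype κ] [DecidableEq κ] {ϖ : ℂ} (P : PData κ ϖ) (u : κ → ℂ) :
    P.ψ u u = 0 := by
  have h1 := P.hψalt u u
  have h2 : (2 : ℂ) * P.ψ u u = 0 := by linear_combination h1
  simpa using h2

lemma psi_e_ne_two {κ : Type} [Fintype κ] [DecidableEq κ] {ϖ : ℂ} {P : PData κ ϖ} {K : Type}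
    [Field K] [NumberField K] {r : ℕ} (F : UF P K r) (hr : r = 2) (σ : K →+* ℂ)
    (hσ : ComplexEmbedding.conjugate σ = σ) :
    P.ψ (F.e σ ⟨0, by omega⟩) (F.e σ ⟨1, by omega⟩) ≠ 0 := by
  intro h0
  apply e_ne F σ ⟨0, by omega⟩
  apply P.hψnd
  intro w
  have h1 : proj F.ρ σ (F.e σ ⟨0, by omega⟩) = F.e σ ⟨0, by omega⟩ := by
    rw [F.proj_e, if_pos rfl]
  rw [← h1, psi_right, h1, hσ, F.proj_eq, map_sum, sum_two' hr, map_smul, map_smul, h0, smul_zero,
    add_zero, psi_e_self, smul_zero]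

/-- removal of a pair of slots of rank one at conjugate places -/
lemma cm_step (h : SF (symG n P α) (EE n P F) q T Φ) {r0 s0 : R} (hr0 : r0 ∈ T) (hs0 : s0 ∈ T)
    (hne : r0 ≠ s0) {i : I} (hi : r i = 1) {m m' : Fin (n i)} {σ : K i →+* ℂ}
    (hq : q r0 = ⟨i, m, σ⟩) (hq' : q s0 = ⟨i, m', ComplexEmbedding.conjugate σ⟩)
    (ih : ∀ Ψ : (R → HW κ n) → ℂ, SF (symG n P α) (EE n P F) q (T \ {r0, s0}) Ψ →
      Ψ ∈ PS (invB n P α) (T \ {r0, s0})) : Φ ∈ PS (invB n P α) T := by
  have h0 : 0 < r i := by omega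
  have hx : (F i).co σ ⟨0, h0⟩ ((F i).e σ ⟨0, h0⟩) = 1 := by rw [co_e_same, if_pos rfl]
  have hβ : ∀ u w : HW κ n, bf n P F i m m' σ u w =
      (F i).co σ ⟨0, h0⟩ (u i m) * ((F i).co (ComplexEmbedding.conjugate σ) ⟨0, h0⟩ (w i m') *
        (P i).ψ ((F i).e σ ⟨0, h0⟩) ((F i).e (ComplexEmbedding.conjugate σ) ⟨0, h0⟩)) := by
    intro u w
    have e1 : ∀ (τ : K i →+* ℂ) (x : κ i → ℂ), proj (F i).ρ τ x =
        (F i).co τ ⟨0, h0⟩ x • (F i).e τ ⟨0, h0⟩ := by
      intro τ x
      rw [(F i).proj_eq, Finset.sum_eq_single ⟨0, h0⟩]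
      · intro b _ hb
        exact absurd (Fin.ext (by have := b.2; simp only; omega)) hb
      · intro h; exact absurd (Finset.mem_univ _) h
    rw [bf_apply, e1, e1, map_smul, map_smul, LinearMap.smul_apply, smul_eq_mul, smul_eq_mul]
    ring
  have hslot : ∀ (m : Fin (n i)) (x : κ i → ℂ), (slotL n i m x) i m = x := fun m x =>
    prL_slotL n i m x
  refine peel_step n P F α h hr0 hs0 hne (bf n P F i m m' σ) (bf_mem n P F α i m m' σ)
    (slotL n i m ((F i).e σ ⟨0, h0⟩))
    (slotL n i m' ((F i).e (ComplexEmbedding.conjugate σ) ⟨0, h0⟩)) ?_ ?_ ih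
  · rw [hβ, hslot, hslot, hx, co_e_same, if_pos rfl, one_mul, one_mul]
    exact psi_e_ne_one (F i) hi σ
  · intro v
    rw [hβ, hβ, hslot, hslot, hx, co_e_same, if_pos rfl, one_mul, one_mul,
      slot_expand n P F h.toSF0 hr0 hq v, sum_one' hi,
      slot_expand n P F h.toSF0 hs0 hq' (Function.update v r0 (slotL n i m ((F i).e σ ⟨0, h0⟩))),
      sum_one' hi, Function.update_of_ne (Ne.symm hne)]
    ring

/-- removal of two equal slots of real type -/
lemma real_step (h : SF (symG n P α) (EE n P F) q T Φ) {r0 s0 : R} (hr0 : r0 ∈ T) (hs0 : s0 ∈ T)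
    (hne : r0 ≠ s0) {i : I} (hi : r i = 2) {m : Fin (n i)} {σ : K i →+* ℂ}
    (hσ : ComplexEmbedding.conjugate σ = σ)
    (hq : q r0 = ⟨i, m, σ⟩) (hq' : q s0 = ⟨i, m, σ⟩)
    (ih : ∀ Ψ : (R → HW κ n) → ℂ, SF (symG n P α) (EE n P F) q (T \ {r0, s0}) Ψ →
      Ψ ∈ PS (invB n P α) (T \ {r0, s0})) : Φ ∈ PS (invB n P α) T := by
  have h0 : 0 < r i := by omega
  have h1 : 1 < r i := by omega
  have hqq : q r0 = q s0 := hq.trans hq'.symm
  have hβ : ∀ u w : HW κ n, bf n P F i m m σ u w =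
      ((F i).co σ ⟨0, h0⟩ (u i m) * (F i).co σ ⟨1, h1⟩ (w i m) -
        (F i).co σ ⟨1, h1⟩ (u i m) * (F i).co σ ⟨0, h0⟩ (w i m)) *
        (P i).ψ ((F i).e σ ⟨0, h0⟩) ((F i).e σ ⟨1, h1⟩) := by
    intro u w
    have e1 : ∀ (x : κ i → ℂ), proj (F i).ρ σ x =
        (F i).co σ ⟨0, h0⟩ x • (F i).e σ ⟨0, h0⟩ + (F i).co σ ⟨1, h1⟩ x • (F i).e σ ⟨1, h1⟩ := by
      intro x
      rw [(F i).proj_eq]
      have : ∀ {d : ℕ} (hd : d = 2) (f : Fin d → (κ i → ℂ)),
          ∑ j, f j = f ⟨0, by omega⟩ + f ⟨1, by omega⟩ := by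
        intro d hd f
        subst hd; exact Fin.sum_univ_two f
      exact this hi _
    rw [bf_apply, hσ, e1, e1]
    simp only [map_add, map_smul, LinearMap.add_apply, LinearMap.smul_apply, smul_eq_mul,
      psi_e_self]
    rw [(P i).hψalt ((F i).e σ ⟨1, h1⟩) ((F i).e σ ⟨0, h0⟩)]
    ring
  have hslot : ∀ (x : κ i → ℂ), (slotL n i m x) i m = x := fun x => prL_slotL n i m x
  have c00 : (F i).co σ ⟨0, h0⟩ ((F i).e σ ⟨0, h0⟩) = 1 := by rw [co_e_same, if_pos rfl]
  have c11 : (F i).co σ ⟨1, h1⟩ ((F i).e σ ⟨1, h1⟩) = 1 := by rw [co_e_same, if_pos rfl]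
  have c01 : (F i).co σ ⟨0, h0⟩ ((F i).e σ ⟨1, h1⟩) = 0 := by
    rw [co_e_same, if_neg (by simp)]
  have c10 : (F i).co σ ⟨1, h1⟩ ((F i).e σ ⟨0, h0⟩) = 0 := by
    rw [co_e_same, if_neg (by simp)]
  refine peel_step n P F α h hr0 hs0 hne (bf n P F i m m σ) (bf_mem n P F α i m m σ)
    (slotL n i m ((F i).e σ ⟨0, h0⟩)) (slotL n i m ((F i).e σ ⟨1, h1⟩)) ?_ ?_ ih
  · rw [hβ, hslot, hslot, c00, c11, c10, c01, mul_zero, sub_zero, one_mul, one_mul]
    exact psi_e_ne_two (F i) hi σ hσ
  · intro v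
    -- the values on basis vectors
    have aa : ∀ x : HW κ n, Φ (Function.update (Function.update v r0 x) s0 x) = 0 := fun x =>
      h.toSF0.eq_zero_of_eq _ r0 s0 hr0 hs0 hne hqq (by
        rw [Function.update_of_ne hne, Function.update_self, Function.update_self])
    have ab : ∀ x y : HW κ n, Φ (Function.update (Function.update v r0 y) s0 x) =
        - Φ (Function.update (Function.update v r0 x) s0 y) := by
      intro x y
      rw [← h.alt r0 hr0 s0 hs0 hne hqq]
      congr 1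
      funext t
      rw [Function.comp_apply]
      by_cases ht : t = r0
      · subst ht
        rw [Equiv.swap_apply_left, Function.update_of_ne hne, Function.update_self,
          Function.update_self]
      · by_cases ht' : t = s0
        · subst ht'
          rw [Equiv.swap_apply_right, Function.update_self, Function.update_of_ne hne,
            Function.update_self]
        · rw [Equiv.swap_apply_of_ne_of_ne ht ht', Function.update_of_ne ht',
            Function.update_of_ne ht, Function.update_of_ne ht', Function.update_of_ne ht]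
    have ex : ∀ x : HW κ n, Φ (Function.update v r0 x) =
        (F i).co σ ⟨0, h0⟩ (v s0 i m) *
          Φ (Function.update (Function.update v r0 x) s0 (slotL n i m ((F i).e σ ⟨0, h0⟩))) +
        (F i).co σ ⟨1, h1⟩ (v s0 i m) *
          Φ (Function.update (Function.update v r0 x) s0 (slotL n i m ((F i).e σ ⟨1, h1⟩))) := by
      intro x
      rw [slot_expand n P F h.toSF0 hs0 hq' (Function.update v r0 x), sum_two' hi,
        Function.update_of_ne (Ne.symm hne)]
    rw [hβ, hβ, hslot, hslot, c00, c11, c10, c01, mul_zero, sub_zero, one_mul, one_mul,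
      slot_expand n P F h.toSF0 hr0 hq v, sum_two' hi, ex, ex, aa, aa,
      ab (slotL n i m ((F i).e σ ⟨0, h0⟩)) (slotL n i m ((F i).e σ ⟨1, h1⟩))]
    ring

end family

end Pool.Agent.Helper24
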