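import Pool.Agent.Helper24.PT.UCore6
import Pool.Agent.Helper24.PT.UGen

/-!
The recursion: slot functions of the family are spanned by products of invariant pairings.
-/

namespace Pool.Agent.Helper24

open Module NumberField LieAlgebra Pool.Agent.Helper7

attribute [local instance 100] LieRing.ofAssociativeRing

open Pool.Agent.GPC (Emb IsOdd IsOddModule translate)
open Pool.Agent.Helper8 (SF SF0 PS PS.mul symG invF invF_symG SF.toSF0 SF.factor SF.mem_of_factor
  mem_of_PS Symp ML2 Inv2 ML4 Inv4 exists_linear SF0.sum SF0.eq_zero_of_eq wsq)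

set_option linter.unusedSectionVars false

section family

variable {I : Type} [Fintype I] [DecidableEq I] (n : I → ℕ)
  {κ : I → Type} [∀ i, Fintype (κ i)] [∀ i, DecidableEq (κ i)] {ϖ : ℂ}
  (P : ∀ i, PData (κ i) ϖ)
  {K : I → Type} [∀ i, Field (K i)] [∀ i, NumberField (K i)] {r : I → ℕ}
  (F : ∀ i, UF (P i) (K i) (r i))
  {k : ℕ} (α : MultilinearMap ℂ (fun _ : Fin (2 * k) => HW κ n) ℂ)

variable {R : Type*} [DecidableEq R] {q : R → At n K} {T : Finset R} {Φ : (R → HW κ n) → ℂ}

/-- all slots at two conjugate places of the factor of rank three -/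
theorem core_all (hr : ∀ i, 0 < r i) (hk : IsKilling ℂ (LL n P F α))
    (hirr : ∀ s, LieModule.IsIrreducible ℂ (LL n P F α) (Vs n P F α s))
    {i : I} (hri : r i = 3) {m : Fin (n i)} {σ τ : K i →+* ℂ}
    (hτ : τ = ComplexEmbedding.conjugate σ) (A B : Finset R) (hd : Disjoint A B)
    (hA : ∀ t ∈ A, q t = ⟨i, m, σ⟩) (hB : ∀ t ∈ B, q t = ⟨i, m, τ⟩)
    (h : SF (symG n P α) (EE n P F) q (A ∪ B) Φ) (hc : B.card ≤ A.card)
    (hev : Even (A.card + B.card)) : Φ ∈ PS (invB n P α) (A ∪ B) := by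
  by_cases h3 : 3 < A.card
  · exact PS_of_zero n P α (alt_many n P F h.toSF0 A Finset.subset_union_left hA
      (by rw [hri]; exact h3))
  have hcases : (A.card = 0 ∧ B.card = 0) ∨ (A.card = 1 ∧ B.card = 1) ∨
      (A.card = 2 ∧ B.card = 0) ∨ (A.card = 2 ∧ B.card = 2) ∨ (A.card = 3 ∧ B.card = 1) ∨
      (A.card = 3 ∧ B.card = 3) := by
    rw [Nat.even_iff] at hev
    omega
  rcases hcases with ⟨ha, hb⟩ | ⟨ha, hb⟩ | ⟨ha, hb⟩ | ⟨ha, hb⟩ | ⟨ha, hb⟩ | ⟨ha, hb⟩
  · rw [Finset.card_eq_zero] at ha hb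
    subst ha hb
    rw [Finset.union_empty] at h ⊢
    exact PS_empty n P F α h.toSF0
  · obtain ⟨t1, rfl⟩ := Finset.card_eq_one.mp ha
    obtain ⟨s1, rfl⟩ := Finset.card_eq_one.mp hb
    have e : ({t1} ∪ {s1} : Finset R) = {t1, s1} := rfl
    rw [e] at h ⊢
    have h11 : t1 ≠ s1 := by simpa using hd
    exact core11 n P F α hr hk (hirr _) hτ h11 h (hA t1 (by simp)) (hB s1 (by simp))
  · obtain ⟨t1, t2, h12, rfl⟩ := Finset.card_eq_two.mp ha
    rw [Finset.card_eq_zero] at hb
    subst hb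
    rw [Finset.union_empty] at h ⊢
    exact PS_of_zero n P α (core20 n P F α hk (hirr _) hri h12 h (hA t1 (by simp))
      (hA t2 (by simp)))
  · obtain ⟨t1, t2, h12, rfl⟩ := Finset.card_eq_two.mp ha
    obtain ⟨s1, s2, k12, rfl⟩ := Finset.card_eq_two.mp hb
    have e : ({t1, t2} ∪ {s1, s2} : Finset R) = {t1, t2, s1, s2} := by
      ext t; simp only [Finset.mem_union, Finset.mem_insert, Finset.mem_singleton]; tauto
    rw [e] at h ⊢
    simp only [Finset.disjoint_insert_left, Finset.disjoint_singleton_left, Finset.mem_insert,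
      Finset.mem_singleton, not_or] at hd
    exact core22 n P F α h12 hd.1.1 hd.1.2 hd.2.1 hd.2.2 k12 hr hk (hirr _) hri hτ h
      (hA t1 (by simp)) (hA t2 (by simp)) (hB s1 (by simp)) (hB s2 (by simp))
  · obtain ⟨t1, t2, t3, h12, h13, h23, rfl⟩ := Finset.card_eq_three.mp ha
    obtain ⟨s1, rfl⟩ := Finset.card_eq_one.mp hb
    have e : ({t1, t2, t3} ∪ {s1} : Finset R) = {t1, t2, t3, s1} := by
      ext t; simp only [Finset.mem_union, Finset.mem_insert, Finset.mem_singleton]; tauto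
    rw [e] at h ⊢
    simp only [Finset.disjoint_insert_left, Finset.disjoint_singleton_left,
      Finset.mem_singleton] at hd
    exact PS_of_zero n P α (core31 n P F α h12 h13 hd.1 h23 hd.2.1 hd.2.2 hr hk (hirr _) hri hτ h
      (hA t1 (by simp)) (hA t2 (by simp)) (hA t3 (by simp)) (hB s1 (by simp)))
  · obtain ⟨t1, t2, t3, h12, h13, h23, rfl⟩ := Finset.card_eq_three.mp ha
    obtain ⟨s1, s2, s3, k12, k13, k23, rfl⟩ := Finset.card_eq_three.mp hb
    have e : ({t1, t2, t3} ∪ {s1, s2, s3} : Finset R) = {t1, t2, t3, s1, s2, s3} := by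
      ext t; simp only [Finset.mem_union, Finset.mem_insert, Finset.mem_singleton]; tauto
    rw [e] at h ⊢
    simp only [Finset.disjoint_insert_left, Finset.disjoint_singleton_left, Finset.mem_insert,
      Finset.mem_singleton, not_or] at hd
    exact core33 n P F α h12 h13 h23 hd.1.1 hd.1.2.1 hd.1.2.2 hd.2.1.1 hd.2.1.2.1 hd.2.1.2.2
      hd.2.2.1 hd.2.2.2.1 hd.2.2.2.2 k12 k13 k23 hr hri hτ h.toSF0
      (hA t1 (by simp)) (hA t2 (by simp)) (hA t3 (by simp)) (hB s1 (by simp)) (hB s2 (by simp))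
      (hB s3 (by simp))

/-- slot functions with a real slot whose place occurs only once vanish -/
theorem real_zero {p : I} (H : SpecFam n P F α p) (hrp : r p = 3)
    (hk : IsKilling ℂ (LL n P F α))
    (hirr : ∀ s, LieModule.IsIrreducible ℂ (LL n P F α) (Vs n P F α s))
    (h : SF (symG n P α) (EE n P F) q T Φ) {r0 : R} (hr0 : r0 ∈ T) (h2 : r (q r0).1 = 2)
    (hR : Remain n r p q T) (v : R → HW κ n) : Φ v = 0 := by
  classical
  have hfin := hirr
  have hr := H.pos
  obtain ⟨a, ha1, ha2, ha3⟩ := exists_parity_element (L := LL n P F α)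
    (T := {t : Emb K // r t.1 = 2})
    (fun t => Vs n P F α t.1)
    (fun t => (bV n P F α t.1).reindex (finCongr t.2))
    (fun t a => trace_Vs n P F α t.1 (hr _) a)
    ⟨pl n (q r0), h2⟩ (Finset.univ.filter fun t => t ≠ ⟨pl n (q r0), h2⟩)
    (bp_symp n P F α hr (q r0).1 (q r0).2.2 (H.real (pl n (q r0)) h2))
    (fun t ht f hf hI x y => H.link _ _ h2 t.2 (fun e => (Finset.mem_filter.mp ht).2
      (Subtype.ext e.symm)) f hf hI x y)
  refine par_zero n P F α hk h a (fun t => if t = r0 then 1 else 0) (fun t ht => ?_) ?_ v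
  · by_cases e : t = r0
    · subst e
      refine ha2.trans (Submodule.span_mono ?_)
      rintro x ⟨m, hm, hx⟩
      refine ⟨m, ?_, hx⟩
      rw [if_pos rfl]
      exact hm.sub_odd odd_one
    · simp only [if_neg e, sub_zero]
      rcases hR.spec t ht with h' | h'
      · have h3 : finrank ℂ (Vs n P F α (pl n (q t))) = 3 := by
          rw [finrank_Vs]
          show r (q t).1 = 3
          rw [h', hrp]
        have hfd : FiniteDimensional ℂ (Vs n P F α (pl n (q t))) :=
          (bV n P F α (pl n (q t))).finiteDimensional_of_finite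
        exact ha3 (Vs n P F α (pl n (q t))) h3 (fun a => trace_Vs n P F α _ (hr _) a)
      · intro x _
        refine Submodule.subset_span ⟨0, Even.zero, ?_⟩
        have := ha1 ⟨pl n (q t), h'⟩ (Finset.mem_filter.mpr ⟨Finset.mem_univ _, fun e' =>
          hR.uniq r0 hr0 t ht h2 e (congrArg Subtype.val e')⟩) x
        rw [this]; simp
  · rw [Finset.sum_ite_eq' T r0 (fun _ => (1 : ℤ)), if_pos hr0]
    exact odd_one

/-- the remaining slot functions for a special factor of rank three over an imaginary quadratic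
field -/
theorem core_P {p : I} (H : SpecFam n P F α p) (hrp : r p = 3) (hnp : n p = 1)
    (hKp : ∀ σ τ : K p →+* ℂ, τ = σ ∨ τ = ComplexEmbedding.conjugate σ)
    (hKp' : ∀ σ : K p →+* ℂ, ComplexEmbedding.conjugate σ ≠ σ)
    (hk : IsKilling ℂ (LL n P F α))
    (hirr : ∀ s, LieModule.IsIrreducible ℂ (LL n P F α) (Vs n P F α s))
    (hev : Even T.card) (h : SF (symG n P α) (EE n P F) q T Φ) (hR : Remain n r p q T) :
    Φ ∈ PS (invB n P α) T := by
  classical
  have hr := H.pos
  by_cases hB : ∃ r0 ∈ T, r (q r0).1 = 2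
  · obtain ⟨r0, hr0, h2⟩ := hB
    exact PS_of_zero n P α (real_zero n P F α H hrp hk hirr h hr0 h2 hR)
  push Not at hB
  have hp : ∀ t ∈ T, (q t).1 = p := fun t ht => (hR.spec t ht).resolve_right (hB t ht)
  have hm0 : 0 < n p := by rw [hnp]; norm_num
  obtain ⟨σ⟩ : Nonempty (K p →+* ℂ) := inferInstance
  obtain ⟨a, ha⟩ : ∃ a : At n K, a = ⟨p, ⟨0, hm0⟩, σ⟩ := ⟨_, rfl⟩
  obtain ⟨a', ha'⟩ : ∃ a' : At n K, a' = ⟨p, ⟨0, hm0⟩, ComplexEmbedding.conjugate σ⟩ :=
    ⟨_, rfl⟩
  have hlab : ∀ t ∈ T, q t = a ∨ q t = a' := by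
    intro t ht
    have h1 := hp t ht
    rcases hq : q t with ⟨j, m, τ⟩
    rw [hq] at h1
    obtain rfl : j = p := h1
    have hm : m = ⟨0, hm0⟩ := by
      have h5 := m.2
      exact Fin.ext (by simp only; omega)
    rcases hKp σ τ with h3 | h3
    · left; rw [ha, hm, h3]
    · right; rw [ha', hm, h3]
  have hne : a ≠ a' := by
    rw [ha, ha']
    intro e
    exact hKp' σ (congrArg Prod.snd
      (sigma_mk_injective (β := fun i => Fin (n i) × (K i →+* ℂ)) e)).symm
  obtain ⟨A, hAd⟩ : ∃ A, A = T.filter (fun t => q t = a) := ⟨_, rfl⟩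
  obtain ⟨B, hBd⟩ : ∃ B, B = T.filter (fun t => q t = a') := ⟨_, rfl⟩
  have hTAB : T = A ∪ B := by
    ext t
    rw [hAd, hBd, Finset.mem_union, Finset.mem_filter, Finset.mem_filter]
    constructor
    · intro ht
      rcases hlab t ht with h' | h'
      · exact Or.inl ⟨ht, h'⟩
      · exact Or.inr ⟨ht, h'⟩
    · rintro (h' | h') <;> exact h'.1
  have hdis : Disjoint A B := by
    rw [Finset.disjoint_left, hAd, hBd]
    intro t ht ht'
    exact hne ((Finset.mem_filter.mp ht).2.symm.trans (Finset.mem_filter.mp ht').2)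
  have hev' : Even (A.card + B.card) := by
    rw [← Finset.card_union_of_disjoint hdis, ← hTAB]
    exact hev
  have hAq : ∀ t ∈ A, q t = ⟨p, ⟨0, hm0⟩, σ⟩ := fun t ht => by
    rw [hAd] at ht
    rw [(Finset.mem_filter.mp ht).2, ha]
  have hBq : ∀ t ∈ B, q t = ⟨p, ⟨0, hm0⟩, ComplexEmbedding.conjugate σ⟩ := fun t ht => by
    rw [hBd] at ht
    rw [(Finset.mem_filter.mp ht).2, ha']
  rcases le_total B.card A.card with hle | hle
  · rw [hTAB] at h ⊢
    exact core_all n P F α hr hk hirr hrp rfl A B hdis hAq hBq h hle hev'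
  · rw [hTAB, Finset.union_comm] at h ⊢
    exact core_all n P F α hr hk hirr hrp
      (Pool.Agent.Helper84.cc_cc σ).symm B A hdis.symm hBq hAq h hle
      (by rw [add_comm]; exact hev')

end family

end Pool.Agent.Helper24
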