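import Pool.Agent.Helper24.PT.UFam
import Pool.Agent.Helper7.Cohomology
import Pool.Agent.Helper84.Pieces

/-!
Weights of the family and their relations.
-/

namespace Pool.Agent.Helper24

open Module NumberField LieAlgebra Pool.Agent.Helper7

attribute [local instance 100] LieRing.ofAssociativeRing

open Pool.Agent.GPC (Emb IsOdd IsOddModule translate)
open Pool.Agent.Helper84 (xi)

set_option linter.unusedSectionVars false

section family

variable {I : Type} [Fintype I] [DecidableEq I] (n : I → ℕ)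
  {κ : I → Type} [∀ i, Fintype (κ i)] [∀ i, DecidableEq (κ i)] {ϖ : ℂ}
  (P : ∀ i, PData (κ i) ϖ)
  {K : I → Type} [∀ i, Field (K i)] [∀ i, NumberField (K i)] {r : I → ℕ}
  (F : ∀ i, UF (P i) (K i) (r i))
  {k : ℕ} (α : MultilinearMap ℂ (fun _ : Fin (2 * k) => HW κ n) ℂ)

lemma ch_conj (hr : ∀ i, 0 < r i) (s : Emb K) (X : GG κ) (hX : IsInv n P α X) :
    ch P F s X + ch P F (conjT s) X = X.2 :=
  tw_conj (F s.1) (hr s.1) (X.1 s.1) (commK n P F α hX s.1) X.2 (hX.pol s.1) s.2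

lemma ch_rat (i : I) (X : GG κ) (hX : IsInv n P α X) (hr : IsRatl P X) :
    ∃ x : K i, ∀ σ : K i →+* ℂ, ch P F ⟨i, σ⟩ X = σ x :=
  tw_rat (F i) (X.1 i) (commK n P F α hX i) (hr.1 i)

/-- relations between the weights -/
def relS : Submodule ℚ (Emb K → ℚ) where
  carrier := {u | IsOdd K u ∧
    ∀ X, IsInv n P α X → IsRatl P X → ∑ t, (u t : ℂ) * ch P F t X = 0}
  zero_mem' := ⟨fun i σ => by simp, fun X _ _ => by simp⟩
  add_mem' := by
    rintro u v ⟨hu1, hu2⟩ ⟨hv1, hv2⟩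
    refine ⟨fun i σ => by rw [Pi.add_apply, Pi.add_apply, hu1, hv1]; ring, fun X hX hr => ?_⟩
    simp only [Pi.add_apply, Rat.cast_add, add_mul, Finset.sum_add_distrib]
    rw [hu2 X hX hr, hv2 X hX hr, add_zero]
  smul_mem' := by
    rintro c u ⟨hu1, hu2⟩
    refine ⟨fun i σ => by rw [Pi.smul_apply, Pi.smul_apply, hu1]; simp, fun X hX hr => ?_⟩
    simp only [Pi.smul_apply, smul_eq_mul, Rat.cast_mul, mul_assoc, ← Finset.mul_sum]
    rw [hu2 X hX hr, mul_zero]

lemma mem_relS (u : Emb K → ℚ) : u ∈ relS n P F α ↔ IsOdd K u ∧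
    ∀ X, IsInv n P α X → IsRatl P X → ∑ t, (u t : ℂ) * ch P F t X = 0 := Iff.rfl

lemma relS_odd : IsOddModule K (relS n P F α) := by
  intro u hu
  refine ⟨hu.1, fun τ => ?_⟩
  rw [mem_relS] at hu ⊢
  refine ⟨fun i σ => ?_, fun X hX hr => ?_⟩
  · show u ⟨i, (τ : ℂ →+* ℂ).comp (ComplexEmbedding.conjugate σ)⟩ =
      - u ⟨i, (τ : ℂ →+* ℂ).comp σ⟩
    have h : (τ : ℂ →+* ℂ).comp (ComplexEmbedding.conjugate σ) =
        ComplexEmbedding.conjugate ((τ : ℂ →+* ℂ).comp σ) := by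
      refine RingHom.ext fun x => ?_
      have h1 := (F i).hcc σ x
      have h2 := (F i).hcc ((τ : ℂ →+* ℂ).comp σ) x
      rw [ComplexEmbedding.conjugate_coe_eq, ← h2, RingHom.comp_apply, RingHom.comp_apply, h1,
        ComplexEmbedding.conjugate_coe_eq]
    rw [h]
    exact hu.1 i _
  · have h1 : ∀ t : Emb K, τ (ch P F t X) = ch P F (actT τ t) X := by
      rintro ⟨i, σ⟩
      obtain ⟨x, hx⟩ := ch_rat n P F α i X hX hr
      show τ (ch P F ⟨i, σ⟩ X) = ch P F ⟨i, (τ : ℂ →+* ℂ).comp σ⟩ X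
      rw [hx, hx]
      rfl
    have h2 := hu.2 X hX hr
    rw [← Fintype.sum_equiv (actT τ) (fun t => (u (actT τ t) : ℂ) * ch P F (actT τ t) X) _
      (fun _ => rfl)] at h2
    simp only [← h1] at h2
    have h3 : τ (∑ t, (u (actT τ t) : ℂ) * ch P F t X) = 0 := by
      rw [map_sum, ← h2]
      refine Finset.sum_congr rfl fun t _ => ?_
      rw [map_mul, map_ratCast]
    exact (map_eq_zero τ).mp h3

lemma e_ne {κ : Type} [Fintype κ] [DecidableEq κ] {ϖ : ℂ} {P : PData κ ϖ} {K : Type} [Field K]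
    [NumberField K] {r : ℕ} (F : UF P K r) (σ : K →+* ℂ) (j : Fin r) : F.e σ j ≠ 0 := by
  intro h
  have h1 := co_e_same F σ j j
  rw [h, map_zero, if_pos rfl] at h1
  exact zero_ne_one h1

lemma lam_ne {κ : Type} [Fintype κ] [DecidableEq κ] {ϖ : ℂ} {P : PData κ ϖ} {K : Type} [Field K]
    [NumberField K] {r : ℕ} (F : UF P K r) (j : Fin r) : F.lam j ≠ 0 := by
  intro h
  have σ : K →+* ℂ := Classical.choice (inferInstance : Nonempty (K →+* ℂ))
  apply e_ne F σ j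
  rw [F.e_eq, h, map_zero]

variable (hϖ : ϖ ≠ 0)
  (hB : ∀ v : Fin (2 * k) → HW κ n, (∀ r, IsRatP n P (v r)) → ∃ q : ℚ, α v = ϖ ^ k * q)
  (hA : ∀ v : Fin (2 * k) → HW κ n, (∀ r i m j, IsAlgebraic ℚ (v r i m j)) →
      IsAlgebraic ℚ (α v))

include hϖ hB hA in
/-- the relations do not contain all odd functions at a factor of rank one -/
lemma relS_ne (hr : ∀ i, 0 < r i) (i : I) (hi : r i = 1)
    (hT : ∀ v ∈ (P i).Q, v ≠ 0 →
      ¬ ∃ (w : ℂ) (u : κ i → ℂ), (∀ j, IsAlgebraic ℚ (u j)) ∧ v = w • u) :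
    ∃ w : Emb K → ℚ, IsOdd K w ∧
    (∀ j σ, j ≠ i → w ⟨j, σ⟩ = 0) ∧ w ∉ relS n P F α := by
  classical
  by_contra hcon
  push Not at hcon
  -- all weights at `i` are equal
  have hwt : ∀ σ : K i →+* ℂ, ∀ X, IsInv n P α X → IsRatl P X → ch P F ⟨i, σ⟩ X = X.2 / 2 := by
    intro σ X hX hrr
    let w : Emb K → ℚ := fun t =>
      (if t = ⟨i, σ⟩ then 1 else 0) - (if conjT t = ⟨i, σ⟩ then 1 else 0)
    have hw := hcon w (fun j σ' => by
      have h5 : conjT (⟨j, ComplexEmbedding.conjugate σ'⟩ : Emb K) = ⟨j, σ'⟩ :=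
        conjT_conjT (⟨j, σ'⟩ : Emb K)
      have h6 : (⟨j, ComplexEmbedding.conjugate σ'⟩ : Emb K) = conjT (⟨j, σ'⟩ : Emb K) := rfl
      simp only [w]
      rw [h5, h6]; ring) (fun j σ' htne => by
      have h1 : (⟨j, σ'⟩ : Emb K) ≠ ⟨i, σ⟩ := fun h => htne (congrArg Sigma.fst h)
      have h2 : conjT (⟨j, σ'⟩ : Emb K) ≠ ⟨i, σ⟩ := fun h => htne (by
        have h3 : (conjT (⟨j, σ'⟩ : Emb K)).1 = i := by rw [h]
        exact h3)
      simp only [w, if_neg h1, if_neg h2, sub_zero])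
    have h1 := hw.2 X hX hrr
    have h2 : ∑ t, ((w t : ℚ) : ℂ) * ch P F t X =
        ch P F ⟨i, σ⟩ X - ch P F (conjT ⟨i, σ⟩) X := by
      have h3 : ∀ t, ((w t : ℚ) : ℂ) * ch P F t X = (if t = ⟨i, σ⟩ then ch P F t X else 0) -
          (if t = conjT ⟨i, σ⟩ then ch P F t X else 0) := by
        intro t
        have h4 : (conjT t = ⟨i, σ⟩) ↔ (t = conjT ⟨i, σ⟩) :=
          ⟨fun h => by rw [← h, conjT_conjT], fun h => by rw [h, conjT_conjT]⟩
        simp only [w, h4]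
        split_ifs <;> simp
      simp only [h3]
      rw [Finset.sum_sub_distrib, Finset.sum_ite_eq' Finset.univ, Finset.sum_ite_eq' Finset.univ]
      simp
    rw [h2] at h1
    have h3 := ch_conj n P F α hr ⟨i, σ⟩ X hX
    linear_combination h1 / 2 + h3 / 2
  -- hence all rational symmetries are scalar at `i`
  have hj : ∀ j : Fin (r i), ∀ j' : Fin (r i), j = j' := fun j j' => Fin.ext (by omega)
  have hscal : ∀ X, IsInv n P α X → IsRatl P X → ∀ v, X.1 i v = (X.2 / 2) • v := by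
    intro X hX hrr v
    have hcomm : (F i).Comm (X.1 i) := commK n P F α hX i
    have h1 := (F i).ext_e (X.1 i) ((X.2 / 2) • (LinearMap.id : Module.End ℂ (κ i → ℂ)))
      (fun σ j => ?_) v
    · rw [h1]; rfl
    · have h2 := hwt σ X hX hrr
      have h3 : ch P F ⟨i, σ⟩ X = (F i).co σ j (X.1 i ((F i).e σ j)) := by
        show tw (F i) σ (X.1 i) = _
        rw [tw_apply, Finset.sum_eq_single j]
        · have h4 : ((r i : ℕ) : ℂ) = 1 := by exact_mod_cast hi
          rw [h4, div_one]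
        · intro b _ hb; exact absurd (hj b j) hb
        · intro h; exact absurd (Finset.mem_univ _) h
      rw [comm_e (F i) (X.1 i) hcomm σ j, Finset.sum_eq_single j, ← h3, h2]
      · rfl
      · intro b _ hb; exact absurd (hj b j) hb
      · intro h; exact absurd (Finset.mem_univ _) h
  -- a rational line is spanned by an algebraic vector
  have j0 : Fin (r i) := ⟨0, hr i⟩
  have h1 := algebraic_of_stable n P α hϖ hB hA i {(F i).lam j0}
    (fun v hv => by rw [Set.mem_singleton_iff.mp hv]; exact (F i).lam_rat j0)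
    (fun Y hY hYr v hv => by
      rw [hscal Y hY hYr]
      exact Submodule.smul_mem _ _ (Submodule.subset_span hv))
  have h2 : (F i).lam j0 ∈ Submodule.span ℂ
      {v | (∀ j, IsAlgebraic ℚ (v j)) ∧ v ∈ Submodule.span ℂ {(F i).lam j0}} :=
    h1 (Submodule.subset_span rfl)
  obtain ⟨v, ⟨hv1, hv2⟩, hv0⟩ : ∃ v ∈ {v | (∀ j, IsAlgebraic ℚ (v j)) ∧
      v ∈ Submodule.span ℂ {(F i).lam j0}}, v ≠ 0 := by
    by_contra hcon
    push Not at hcon
    have h3 : Submodule.span ℂ {v | (∀ j, IsAlgebraic ℚ (v j)) ∧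
        v ∈ Submodule.span ℂ {(F i).lam j0}} ≤ ⊥ := by
      rw [Submodule.span_le]
      intro v hv
      rw [SetLike.mem_coe, Submodule.mem_bot]
      exact hcon v hv
    exact lam_ne (F i) j0 ((Submodule.mem_bot ℂ).mp (h3 h2))
  obtain ⟨c, hc⟩ := Submodule.mem_span_singleton.mp hv2
  have hc0 : c ≠ 0 := by
    rintro rfl
    rw [zero_smul] at hc
    exact hv0 hc.symm
  refine hT _ ((F i).lam_rat j0) (lam_ne (F i) j0) ⟨c⁻¹, v, hv1, ?_⟩
  rw [← hc, smul_smul, inv_mul_cancel₀ hc0, one_smul]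

end family

end Pool.Agent.Helper24
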