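import Pool.Agent.Helper7.U.UF

/-!
The mean weight of a symmetry at a place of a field of endomorphisms.
-/

namespace Pool.Agent.Helper24

open Module NumberField Pool.Agent.Helper7

set_option linter.unusedSectionVars false

section single

variable {κ : Type} [Fintype κ] [DecidableEq κ] {ϖ : ℂ} {P : PData κ ϖ} {K : Type} [Field K]
    [NumberField K] {r : ℕ} (F : UF P K r)

/-- the mean of the weights at a place -/
noncomputable def tw (σ : K →+* ℂ) : Module.End ℂ (κ → ℂ) →ₗ[ℂ] ℂ where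
  toFun X := (∑ j, F.co σ j (X (F.e σ j))) / r
  map_add' X Y := by
    simp only [LinearMap.add_apply, map_add, Finset.sum_add_distrib, add_div]
  map_smul' c X := by
    simp only [LinearMap.smul_apply, map_smul, smul_eq_mul, ← Finset.mul_sum, RingHom.id_apply,
      mul_div_assoc]

lemma tw_apply (σ : K →+* ℂ) (X : Module.End ℂ (κ → ℂ)) :
    tw F σ X = (∑ j, F.co σ j (X (F.e σ j))) / r := rfl

lemma co_e_same (σ : K →+* ℂ) (j j' : Fin r) :
    F.co σ j (F.e σ j') = if j = j' then 1 else 0 := by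
  rw [F.co_e]
  by_cases h : j = j'
  · rw [if_pos ⟨rfl, h⟩, if_pos h]
  · rw [if_neg (fun h' => h h'.2), if_neg h]

lemma comm_e (X : Module.End ℂ (κ → ℂ)) (hX : F.Comm X) (σ : K →+* ℂ) (j : Fin r) :
    X (F.e σ j) = ∑ a, F.co σ a (X (F.e σ j)) • F.e σ a := hX.act σ j

lemma tw_mul_comm (σ : K →+* ℂ) (X Y : Module.End ℂ (κ → ℂ)) (hX : F.Comm X) (hY : F.Comm Y) :
    tw F σ (X * Y - Y * X) = 0 := by
  have h : ∀ X Y : Module.End ℂ (κ → ℂ), F.Comm X → F.Comm Y →
      ∑ j, F.co σ j ((X * Y) (F.e σ j)) =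
      ∑ j, ∑ a, F.co σ a (Y (F.e σ j)) * F.co σ j (X (F.e σ a)) := by
    intro X Y hX hY
    refine Finset.sum_congr rfl fun j _ => ?_
    rw [Module.End.mul_apply, comm_e F Y hY σ j, map_sum, map_sum]
    refine Finset.sum_congr rfl fun a _ => ?_
    rw [map_smul, map_smul, smul_eq_mul]
    congr 1
    rw [← comm_e F Y hY σ j]
  rw [map_sub, tw_apply, tw_apply, h X Y hX hY, h Y X hY hX, Finset.sum_comm, ← sub_div]
  have h2 : ∑ a, ∑ j, F.co σ a (Y (F.e σ j)) * F.co σ j (X (F.e σ a)) -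
      ∑ j, ∑ a, F.co σ a (X (F.e σ j)) * F.co σ j (Y (F.e σ a)) = 0 := by
    rw [sub_eq_zero]
    refine Finset.sum_congr rfl fun a _ => Finset.sum_congr rfl fun j _ => ?_
    rw [mul_comm]
  rw [h2, zero_div]

lemma conj_conj (σ : K →+* ℂ) :
    ComplexEmbedding.conjugate (ComplexEmbedding.conjugate σ) = σ :=
  RingHom.ext fun x => by
    rw [ComplexEmbedding.conjugate_coe_eq, ComplexEmbedding.conjugate_coe_eq, Complex.conj_conj]

lemma span_e_place (σ : K →+* ℂ) :
    Submodule.span ℂ (Set.range (F.e σ)) = LinearMap.range (proj F.ρ σ) := by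
  apply le_antisymm
  · rw [Submodule.span_le]
    rintro _ ⟨j, rfl⟩
    exact ⟨F.e σ j, by rw [F.proj_e, if_pos rfl]⟩
  · rintro _ ⟨v, rfl⟩
    rw [F.proj_eq]
    exact Submodule.sum_mem _ fun j _ => Submodule.smul_mem _ _ (Submodule.subset_span ⟨j, rfl⟩)

/-- the matrix of the pairing of two conjugate places -/
noncomputable def pm (σ : K →+* ℂ) : Matrix (Fin r) (Fin r) ℂ :=
  Matrix.of fun a b => P.ψ (F.e σ a) (F.e (ComplexEmbedding.conjugate σ) b)

lemma pm_det (σ : K →+* ℂ) : (pm F σ).det ≠ 0 := by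
  intro h0
  obtain ⟨v, hv0, hv⟩ := Matrix.exists_mulVec_eq_zero_iff.mpr h0
  apply hv0
  have h1 : ∑ b, v b • F.e (ComplexEmbedding.conjugate σ) b = 0 := by
    apply P.hψnd
    intro u
    rw [P.hψalt, neg_eq_zero]
    refine F.ext_e (P.ψ.flip (∑ b, v b • F.e (ComplexEmbedding.conjugate σ) b)) 0
      (fun τ a => ?_) u
    rw [LinearMap.flip_apply, map_sum, LinearMap.zero_apply]
    by_cases hτ : τ = σ
    · subst hτ
      have h2 := congrFun hv a
      rw [Matrix.mulVec, dotProduct, Pi.zero_apply] at h2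
      rw [← h2]
      refine Finset.sum_congr rfl fun b _ => ?_
      rw [map_smul, smul_eq_mul, mul_comm]; rfl
    · refine Finset.sum_eq_zero fun b _ => ?_
      rw [map_smul, F.psi_e τ (ComplexEmbedding.conjugate σ) a b, smul_zero]
      intro h
      apply hτ
      rw [← conj_conj τ, ← h, conj_conj]
  funext b
  have h2 := congrArg (F.co (ComplexEmbedding.conjugate σ) b) h1
  rw [map_sum, map_zero, Finset.sum_eq_single b] at h2
  · rwa [map_smul, co_e_same, if_pos rfl, smul_eq_mul, mul_one] at h2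
  · intro b' _ hb
    rw [map_smul, co_e_same, if_neg (Ne.symm hb), smul_zero]
  · intro h; exact absurd (Finset.mem_univ _) h

/-- the weights at conjugate places -/
lemma tw_conj (hr : 0 < r) (X : Module.End ℂ (κ → ℂ)) (hX : F.Comm X) (c : ℂ)
    (hpol : ∀ u v, P.ψ (X u) v + P.ψ u (X v) = c * P.ψ u v) (σ : K →+* ℂ) :
    tw F σ X + tw F (ComplexEmbedding.conjugate σ) X = c := by
  let A : Matrix (Fin r) (Fin r) ℂ := Matrix.of fun a b => F.co σ a (X (F.e σ b))
  let B : Matrix (Fin r) (Fin r) ℂ := Matrix.of fun a b =>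
    F.co (ComplexEmbedding.conjugate σ) a (X (F.e (ComplexEmbedding.conjugate σ) b))
  have h1 : A.transpose * pm F σ + pm F σ * B = c • pm F σ := by
    ext a b
    rw [Matrix.add_apply, Matrix.mul_apply, Matrix.mul_apply, Matrix.smul_apply, smul_eq_mul]
    have h2 := hpol (F.e σ a) (F.e (ComplexEmbedding.conjugate σ) b)
    rw [comm_e F X hX σ a, comm_e F X hX _ b, map_sum, LinearMap.sum_apply, map_sum] at h2
    rw [show (pm F σ a b) = P.ψ (F.e σ a) (F.e (ComplexEmbedding.conjugate σ) b) from rfl, ← h2]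
    congr 1
    · refine Finset.sum_congr rfl fun d _ => ?_
      rw [map_smul, LinearMap.smul_apply, smul_eq_mul]; rfl
    · refine Finset.sum_congr rfl fun d _ => ?_
      rw [map_smul, smul_eq_mul, mul_comm]; rfl
  have hu : IsUnit (pm F σ).det := isUnit_iff_ne_zero.mpr (pm_det F σ)
  have h3 := congrArg (fun M => ((pm F σ)⁻¹ * M).trace) h1
  simp only [Matrix.mul_add, Matrix.trace_add, Matrix.mul_smul, Matrix.trace_smul,
    Matrix.nonsing_inv_mul _ hu, Matrix.trace_one, Fintype.card_fin, smul_eq_mul] at h3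
  rw [← Matrix.mul_assoc (pm F σ)⁻¹ (pm F σ) B, Matrix.nonsing_inv_mul _ hu, Matrix.one_mul,
    ← Matrix.mul_assoc, Matrix.trace_mul_comm, ← Matrix.mul_assoc, Matrix.mul_nonsing_inv _ hu,
    Matrix.one_mul, Matrix.trace_transpose] at h3
  have hr' : (r : ℂ) ≠ 0 := by exact_mod_cast hr.ne'
  rw [tw_apply, tw_apply, ← add_div, div_eq_iff hr', ← h3]
  rfl

/-- the weights of rational symmetries -/
lemma tw_rat (X : Module.End ℂ (κ → ℂ)) (hX : F.Comm X) (hr : ∀ v ∈ P.Q, X v ∈ P.Q) :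
    ∃ x : K, ∀ σ : K →+* ℂ, tw F σ X = σ x := by
  obtain ⟨m, hm⟩ := F.exists_matK X hr
  refine ⟨(∑ j, m j j) / r, fun σ => ?_⟩
  rw [tw_apply, map_div₀, map_sum, map_natCast]
  congr 1
  refine Finset.sum_congr rfl fun j _ => ?_
  rw [F.act_e X hX m hm σ j, map_sum, Finset.sum_eq_single j]
  · rw [map_smul, co_e_same, if_pos rfl, smul_eq_mul, mul_one]
  · intro b _ hb
    rw [map_smul, co_e_same, if_neg (Ne.symm hb), smul_zero]
  · intro h; exact absurd (Finset.mem_univ _) h

/-- at a place of rank one a symmetry acts as a scalar -/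
lemma act_one (F : UF P K 1) (X : Module.End ℂ (κ → ℂ)) (hX : F.Comm X) (σ : K →+* ℂ) :
    X (F.e σ 0) = tw F σ X • F.e σ 0 := by
  rw [tw_apply, Fin.sum_univ_one]
  conv_lhs => rw [comm_e F X hX σ 0, Fin.sum_univ_one]
  simp

end single

end Pool.Agent.Helper24
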